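import Pool.Agent.Lib.MP_a4c1f4_lc.Euc.Spec
import Pool.Agent.Lib.MP_a4c1f4_lc.Pad.Asm

set_option linter.all false

/-!
# Algorithms for the copies
-/

namespace Pool.Agent.MP_a4c1f4_lc.Euc

open Finset Pool.Agent.MP_a4c1f4_lc Pool.Agent.MP_a4c1f4_lc.Dbl Pool.Agent.MP_a4c1f4_lc.Pad

/-- The common factor. -/
noncomputable def fac (m : ℕ) : ℝ := (1 + Real.log m) * (1 + Real.log (1 + Real.log m)) ^ 2

theorem rf_of_crd (h1 : RsProp) (h2 : FamQProp) (h3 : RanCProp) {S : Type} [Fintype S]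
    [DecidableEq S] [Nonempty S] {D : S → S → ℝ} {β γ : ℝ} (hD : PM D) (hβ : 1 ≤ β)
    (hγ : 8 ≤ γ) (hC : Crd D β γ) :
    RF D (322 * (1 + Real.log (1 + Real.log (Fintype.card S))) ^ 2)
      (16 / 3 * (β * (228 + 62 * Real.log β + (253 + 24 * Real.log (γ / 8)) *
        Real.log (Fintype.card S)))) := by
  obtain ⟨h, ρ, Ω, fΩ, w, rp, a, hw0, hw1, hA, hdist⟩ := h3 S D β γ hD hβ hγ hC
  set L : ℝ := Real.log (Fintype.card S) with hL
  have hL0 : 0 ≤ L := Real.log_nonneg (by exact_mod_cast Fintype.card_pos)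
  refine ⟨Ω, Fin h × S, fΩ, inferInstance, inferInstance, w, fun ω => rs (rp ω) (a ω) h,
    h + eg (2 * L + 2), ρ, Fintype.card S, fun ω => qj (rp ω) (a ω) h,
    fun ω => amj (rp ω) (a ω) h, fun _ => ctj h, 8 * (1 + m0 (2 * L + 2)), m0 (2 * L + 2) + 4,
    hw0, hw1, fun ω => (h1 S D (rp ω) (a ω) h ρ _ hD (hA ω)).2.2.1,
    fun ω => h2 S D (rp ω) (a ω) h ρ _ hD (by linarith) (hA ω), AsmM.num hL0, ?_⟩
  intro x y
  have e1 : ∑ ω, w ω * ∑ j ∈ range (h + eg (2 * L + 2)), 4 ^ (j + 1) * ρ *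
      ind (rs (rp ω) (a ω) h j x ≠ rs (rp ω) (a ω) h j y) ≤
      ∑ ω, w ω * (16 / 3 * ∑ k ∈ range h, 4 ^ (k + 1) * ρ *
        ((2 + a ω k (rp ω k x) + a ω k (rp ω k y)) * ind (rp ω k x ≠ rp ω k y))) :=
    Finset.sum_le_sum fun ω _ => mul_le_mul_of_nonneg_left
      ((h1 S D (rp ω) (a ω) h ρ _ hD (hA ω)).2.2.2 x y) (hw0 ω)
  have e2 : ∑ ω, w ω * (16 / 3 * ∑ k ∈ range h, 4 ^ (k + 1) * ρ *
        ((2 + a ω k (rp ω k x) + a ω k (rp ω k y)) * ind (rp ω k x ≠ rp ω k y))) =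
      16 / 3 * ∑ ω, w ω * ∑ k ∈ range h, 4 ^ (k + 1) * ρ *
        ((2 + a ω k (rp ω k x) + a ω k (rp ω k y)) * ind (rp ω k x ≠ rp ω k y)) := by
    rw [Finset.mul_sum]
    exact Finset.sum_congr rfl fun ω _ => by ring
  rw [e2] at e1
  have e3 := hdist x y
  calc _ ≤ _ := e1
    _ ≤ 16 / 3 * (β * (228 + 62 * Real.log β + (253 + 24 * Real.log (γ / 8)) * L) * D x y) :=
        mul_le_mul_of_nonneg_left e3 (by norm_num)
    _ = _ := by ring

theorem cmp_of_crd (h1 : RsProp) (h2 : FamQProp) (h3 : RanCProp) (h4 : CoreQProp) {S T : Type}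
    [Fintype S] [DecidableEq S] [Nonempty S] [Fintype T] [DecidableEq T] (σ : T → S)
    {D : S → S → ℝ} {β γ : ℝ} (hD : PM D) (hβ : 1 ≤ β) (hγ : 8 ≤ γ) (hC : Crd D β γ) :
    Cmp D σ (322 * (1 + Real.log (1 + Real.log (Fintype.card S))) ^ 2 *
      (16 / 3 * (β * (228 + 62 * Real.log β + (253 + 24 * Real.log (γ / 8)) *
        Real.log (Fintype.card S))))) :=
  h4 S T D σ _ _ hD (rf_of_crd h1 h2 h3 hD hβ hγ hC)

theorem cmp_mono {S T : Type} [Fintype T] {D : S → S → ℝ} (hD : PM D) {σ : T → S} {c c' : ℝ}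
    (h : c ≤ c') (hc : Cmp D σ c) : Cmp D σ c' := by
  obtain ⟨Ω, fΩ, w, A, h1, h2, h3, h4⟩ := hc
  refine ⟨Ω, fΩ, w, A, h1, h2, h3, fun l τ hl => (h4 l τ hl).trans ?_⟩
  refine mul_le_mul_of_nonneg_right h ?_
  unfold acost
  apply List.sum_nonneg
  intro a ha
  obtain ⟨i, hi, rfl⟩ := List.getElem_of_mem ha
  rw [List.getElem_zipWith]
  exact hD.nonneg _ _

section Num

variable {L u b β : ℝ}

/-- Padded decompositions: `β (1 + log β)`. -/
theorem num_pad {β L : ℝ} (hβ : 1 ≤ β) (hL : 0 ≤ L) :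
    16 * β * (228 + 62 * Real.log (16 * β) + (253 + 24 * Real.log (8 * β / 8)) * L) ≤
      6410 * (β * (1 + Real.log β) * (1 + L)) := by
  have e1 : 8 * β / 8 = β := by ring
  have hb : 0 ≤ Real.log β := Real.log_nonneg hβ
  have e2 : Real.log (16 * β) = 4 * Real.log 2 + Real.log β := by
    rw [Real.log_mul (by norm_num) (by linarith), show (16 : ℝ) = 2 ^ 4 by norm_num,
      Real.log_pow]
    push_cast
    ring
  have e3 := Real.log_two_lt_d9
  rw [e1, e2]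
  set b := Real.log β
  have h1 : 228 + 62 * (4 * Real.log 2 + b) + (253 + 24 * b) * L ≤ 400.5 * ((1 + b) * (1 + L)) := by
    nlinarith [mul_nonneg hb hL]
  have h2 := mul_le_mul_of_nonneg_left h1 (by linarith : (0 : ℝ) ≤ 16 * β)
  have h3 : 0 ≤ β * (1 + b) * (1 + L) := by positivity
  have h4 : 16 * β * (400.5 * ((1 + b) * (1 + L))) = 6408 * (β * (1 + b) * (1 + L)) := by ring
  linarith

/-- Euclidean space of dimension `n`, `t = √n`. -/
theorem num_euc {t L : ℝ} (ht : 1 ≤ t) (hL : 0 ≤ L) :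
    9 * t * (228 + 62 * Real.log (9 * t) + (253 + 24 * Real.log (32 * t ^ 2 / 8)) * L) ≤
      3290 * (t * (1 + Real.log t) * (1 + L)) := by
  have hb : 0 ≤ Real.log t := Real.log_nonneg ht
  have e1 : 32 * t ^ 2 / 8 = 2 ^ 2 * t ^ 2 := by ring
  have e2 : Real.log (2 ^ 2 * t ^ 2) = 2 * Real.log 2 + 2 * Real.log t := by
    rw [Real.log_mul (by norm_num) (by positivity), Real.log_pow, Real.log_pow]
    push_cast
    ring
  have e3 : Real.log (9 * t) = Real.log 9 + Real.log t :=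
    Real.log_mul (by norm_num) (by linarith)
  have e4 : Real.log 9 ≤ 2.2 := by
    have e5 : Real.log 9 = 2 * Real.log 3 := by
      rw [show (9 : ℝ) = 3 ^ 2 by norm_num, Real.log_pow]
      push_cast
      ring
    have e6 : Real.log 3 ≤ 1.1 := by
      rw [Real.log_le_iff_le_exp (by norm_num)]
      have := Real.exp_one_gt_d9
      have e7 : Real.exp 1.1 = Real.exp 1 * Real.exp 0.1 := by
        rw [← Real.exp_add]
        norm_num
      have e8 := Real.add_one_le_exp (0.1 : ℝ)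
      have e9 : (1 + 0.1 + 0.1 ^ 2 / 2 : ℝ) ≤ Real.exp 0.1 :=
        Real.quadratic_le_exp_of_nonneg (by norm_num)
      rw [e7]
      nlinarith
    linarith
  have e5 := Real.log_two_lt_d9
  rw [e1, e2, e3]
  set b := Real.log t
  have h1 : 228 + 62 * (Real.log 9 + b) + (253 + 24 * (2 * Real.log 2 + 2 * b)) * L ≤
      365 * ((1 + b) * (1 + L)) := by
    nlinarith [mul_nonneg hb hL]
  have h2 := mul_le_mul_of_nonneg_left h1 (by linarith : (0 : ℝ) ≤ 9 * t)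
  have h3 : 0 ≤ t * (1 + b) * (1 + L) := by positivity
  have h4 : 9 * t * (365 * ((1 + b) * (1 + L))) = 3285 * (t * (1 + b) * (1 + L)) := by ring
  linarith

end Num

end Pool.Agent.MP_a4c1f4_lc.Euc
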