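import Pool.Agent.Lib.MP_a4c1f4_lc.Pad.Spec

set_option linter.all false

/-!
# Theorem P for core decompositions; Euclidean metrics

`../Pad/Spec.lean` treats metrics with `β`-padded decompositions. Here the same proof is done with
two parameters (`Crd D β γ`): the cells contain the balls of radius `Δ / γ` around their deep points,
and the *status* of a pair (both deep and in the same cell, or both not deep) is broken with
probability at most `β D x y / Δ`. For `n` dimensional Euclidean space `β = 9 √n`, `γ = 32 n` (ball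
carving), although the padding parameter is of order `n`. With a random projection to `O(ln m)`
dimensions this gives the ratio `(ln m)^(3/2)` up to `(ln ln m)^3` for every Euclidean metric.
-/

namespace Pool.Agent.MP_a4c1f4_lc.Euc

open Finset Pool.Agent.MP_a4c1f4_lc Pool.Agent.MP_a4c1f4_lc.Dbl Pool.Agent.MP_a4c1f4_lc.Pad

/-! ## Core decompositions -/

/-- A core decomposition at the scale `Δ`: random cells (`q`) of diameter at most `Δ` and deep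
points (`dp`). The cell of a deep point contains the ball of radius `Δ / γ`; a point is deep with
probability at least `3/4`; the probability that neither (both deep and in the same cell) nor (both
not deep) holds is at most `β D x y / Δ`. -/
def Cr1 {S : Type} [Fintype S] (D : S → S → ℝ) (β γ Δ : ℝ) : Prop :=
  ∃ (Ω : Type) (_ : Fintype Ω) (w : Ω → ℝ) (q : Ω → S → S) (dp : Ω → S → Prop),
    (∀ ω, 0 ≤ w ω) ∧ ∑ ω, w ω = 1 ∧ (∀ ω x y, q ω x = q ω y → D x y ≤ Δ) ∧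
    (∀ ω x y, dp ω x → D x y ≤ Δ / γ → q ω x = q ω y) ∧
    (∀ x, ∑ ω, w ω * ind (¬ dp ω x) ≤ 1 / 4) ∧
    (∀ x y, ∑ ω, w ω * ind (¬ ((dp ω x ∧ dp ω y ∧ q ω x = q ω y) ∨ (¬ dp ω x ∧ ¬ dp ω y))) ≤
      β * D x y / Δ)

/-- Core decompositions at all scales. -/
def Crd {S : Type} [Fintype S] (D : S → S → ℝ) (β γ : ℝ) : Prop := ∀ Δ, 0 < Δ → Cr1 D β γ Δ

/-- File PdC.lean, from `RndProp`. The space, `q`, `dp` of `RndProp`; `Δ / (8 β)` is the radius. If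
`D x y ≤ Δ / (8 β)` then the event is contained in the event (exactly one of them deep): if both are
deep then `q x = q y`. Probability `≤ 2 * (D x y / (Δ / (8 β))) = 16 β D x y / Δ`. Otherwise
`16 β D x y / Δ ≥ 1`. -/
def PdCProp : Prop :=
  ∀ (S : Type) [Fintype S] (D : S → S → ℝ) (β : ℝ), PM D → 1 ≤ β → Pdd D β →
    Crd D (16 * β) (8 * β)

open Classical in
/-- `n` rounds, compare `Pad.RecL`. -/
structure RecC {S : Type} [Fintype S] (D : S → S → ℝ) (β γ Δ : ℝ) (n : ℕ) (Ω : Type) [Fintype Ω]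
    (w : Ω → ℝ) (pt : Ω → S → ℕ × S) (M : Ω → ℕ × S → ℝ) : Prop where
  w0 : ∀ ω, 0 ≤ w ω
  w1 : ∑ ω, w ω = 1
  lt : ∀ ω x, (pt ω x).1 ≤ n
  diam : ∀ ω x y, (pt ω x).1 < n → pt ω x = pt ω y → D x y ≤ Δ
  Mn : ∀ ω z, 0 ≤ M ω z
  core : ∀ ω x, (pt ω x).1 < n →
    (nb D (Δ / γ) x : ℝ) ≤ 2 ^ ((pt ω x).1 + 1) * M ω (pt ω x)
  kraft : ∀ ω (v : Finset S), ∑ z ∈ (v.image (pt ω)).filter (fun z => z.1 < n), M ω z ≤
    (nbh D v Δ : ℝ)
  un : ∀ x, ∑ ω, w ω * ind ((pt ω x).1 = n) ≤ (1 / 4) ^ n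
  sep : ∀ x y, ∑ ω, w ω * ind (pt ω x ≠ pt ω y) ≤ 4 / 3 * (β * D x y / Δ)
  ix : ∀ x, ∑ ω, w ω * (((pt ω x).1 : ℝ) + 1) ≤ 4 / 3
  ixs : ∀ x y, ∑ ω, w ω * (ind (pt ω x ≠ pt ω y) * (((pt ω x).1 : ℝ) + 1)) ≤
    32 / 9 * (β * D x y / Δ)

/-- File RecC.lean. Copy of `../Pad/Rec.lean` (the lemmas of the namespace `Pad.RecM` may be
imported), the round is now `Cr1 D β γ Δ`. With `s = β D x y / Δ` and the event `o` (the event of
`Cr1`, probability at most `s`; no restriction on `D x y` and no case distinction is needed now): if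
not `o` then either both are deep and in the same cell, so that `pt x = pt y`, or both are not deep.
`ind (pt x ≠ pt y) ≤ ind o + ind (¬ dp a x) ind (pt' b x ≠ pt' b y)`: `s + 1/4 * 4/3 s = 4/3 s`;
`ind (pt x ≠ pt y) ((pt x).1 + 1) ≤ ind o (1 + ((pt' b x).1 + 1)) + ind (¬ dp a x) (ind (pt' b x ≠ pt' b y) + ind (pt' b x ≠ pt' b y) ((pt' b x).1 + 1))`:
`s (1 + 4/3) + 1/4 (4/3 s + 32/9 s) = 32/9 s`. -/
def RecCProp : Prop :=
  ∀ (S : Type) [Fintype S] [Nonempty S] (D : S → S → ℝ) (β γ Δ : ℝ), PM D → 0 < β → 0 < γ →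
    0 < Δ → Cr1 D β γ Δ → ∀ n, ∃ (Ω : Type) (_ : Fintype Ω) (w : Ω → ℝ) (pt : Ω → S → ℕ × S)
    (M : Ω → ℕ × S → ℝ), RecC D β γ Δ n Ω w pt M

open Classical in
/-- The random partition of one level, compare `Pad.OneL`. -/
structure OneC {S : Type} [Fintype S] (D : S → S → ℝ) (β γ Δ : ℝ) (Ω : Type) [Fintype Ω]
    (w : Ω → ℝ) (pt : Ω → S → ℕ × S) (M : Ω → ℕ × S → ℝ) : Prop where
  w0 : ∀ ω, 0 ≤ w ω
  w1 : ∑ ω, w ω = 1
  diam : ∀ ω x y, pt ω x = pt ω y → D x y ≤ Δ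
  core : ∀ ω x, (nb D (Δ / γ) x : ℝ) ≤ 2 ^ ((pt ω x).1 + 1) * M ω (pt ω x)
  kraft : ∀ ω (v : Finset S), ∑ z ∈ v.image (pt ω), M ω z ≤ (nbh D v Δ : ℝ)
  close : ∀ ω x y, 6 * β * (Fintype.card S : ℝ) ^ 2 * D x y ≤ Δ → pt ω x = pt ω y
  ixm : ∀ ω x, (4 : ℝ) ^ ((pt ω x).1 + 1) ≤ 16 * Fintype.card S
  sep : ∀ x y, ∑ ω, w ω * ind (pt ω x ≠ pt ω y) ≤ 8 / 3 * (β * D x y / Δ)
  ix : ∀ x, ∑ ω, w ω * (((pt ω x).1 : ℝ) + 1) ≤ 8 / 3
  ixs : ∀ x y, ∑ ω, w ω * (ind (pt ω x ≠ pt ω y) * (((pt ω x).1 : ℝ) + 1)) ≤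
    64 / 9 * (β * D x y / Δ)

/-- File CndC.lean, from `RecCProp`. Copy of `../Pad/Cnd.lean`: `m = card S`, `n` least with
`4 m ≤ 4^n`; good: all first components `< n`, and `pt ω x = pt ω y` for all pairs with
`6 β m^2 D x y ≤ Δ`. The complement has probability at most
`m (1/4)^n + m^2 * 4/3 * 1/(6 m^2) = 1/4 + 2/9 ≤ 1/2`. -/
def CndCProp : Prop :=
  ∀ (S : Type) [Fintype S] [Nonempty S] (D : S → S → ℝ) (β γ Δ : ℝ), PM D → 0 < β → 0 < γ →
    0 < Δ → Cr1 D β γ Δ → ∃ (Ω : Type) (_ : Fintype Ω) (w : Ω → ℝ) (pt : Ω → S → ℕ × S)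
    (M : Ω → ℕ × S → ℝ), OneC D β γ Δ Ω w pt M

/-- File IndC.lean. Copy of `../Pad/Ind.lean` with the other constants: (3)
`A * 8/3 + 2 log 2 * 64/9 ≤ 3 A + 10` (`8/3 * 8/3 = 64/9`; `2 log 2 * 64/9 ≤ 9.86`), (4)
`2 log 2 * 8/3 ≤ 4`. -/
def IndCProp : Prop :=
  ∀ (S : Type) [Fintype S] (D : S → S → ℝ) (β γ ρ : ℝ) (h : ℕ) (Ω : Fin h → Type)
    [∀ k, Fintype (Ω k)] (w : (k : Fin h) → Ω k → ℝ) (pt : (k : Fin h) → Ω k → S → ℕ × S)
    (M : (k : Fin h) → Ω k → ℕ × S → ℝ), PM D → 0 < β → 0 < ρ →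
    (∀ k : Fin h, OneC D β γ (4 ^ (k : ℕ) * ρ) (Ω k) (w k) (pt k) (M k)) →
    (∀ ω : (k : Fin h) → Ω k, 0 ≤ ∏ k, w k (ω k)) ∧
    (∑ ω : (k : Fin h) → Ω k, ∏ k, w k (ω k) = 1) ∧
    (∀ (x y : S) (k k' : Fin h) (A : ℝ), 0 ≤ A →
      ∑ ω : (k : Fin h) → Ω k, (∏ k, w k (ω k)) *
        ((A + Real.log 2 * (((pt k (ω k) x).1 : ℝ) + 1) +
          Real.log 2 * (((pt k (ω k) y).1 : ℝ) + 1)) *
            ind (pt k' (ω k') x ≠ pt k' (ω k') y)) ≤
        (3 * A + 10) * β * D x y / (4 ^ (k' : ℕ) * ρ)) ∧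
    (∀ (x y : S) (k : Fin h) (A : ℝ), 0 ≤ A →
      ∑ ω : (k : Fin h) → Ω k, (∏ k, w k (ω k)) *
        (A + Real.log 2 * (((pt k (ω k) x).1 : ℝ) + 1) +
          Real.log 2 * (((pt k (ω k) y).1 : ℝ) + 1)) ≤ A + 4)

/-- File NumC.lean. Copy of `../Pad/Num.lean` with other constants. `L = log m`, `c = 6 β m^2`.
(a) `4^k ρ < d`: total at most `16/3 (6 + 2 L) d`. (b) `d ≤ 4^k ρ < c d`: the term is at most
`16/3 (3 (2 + α k) + 10) β d = (256/3 + 16 α k) β d`, their number is at most `logb 4 c + 1`,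
`logb 4 c ≤ 1.2926 + 0.7214 log β + 1.4428 L`. Total at most
`β d (195.7 + 61.6 log β + 123.2 L + 16 (7.4 + 1.46 g) L) + (32 + 10.7 L) d`. -/
def NumCProp : Prop :=
  ∀ (h m : ℕ) (ρ β g d : ℝ) (α : ℕ → ℝ), 1 ≤ m → 0 < ρ → 1 ≤ β → 0 ≤ g → 0 < d →
    (∀ k, 0 ≤ α k ∧ α k ≤ 2 * Real.log m) →
    ∑ k ∈ range h, α k ≤ 2 * (3.7 + 0.73 * g) * Real.log m →
    ∑ k ∈ range h, 4 ^ (k + 1) * ρ * min (6 + α k)
      (∑ i ∈ Finset.Ico k h, ind (4 ^ i * ρ < 6 * β * (m : ℝ) ^ 2 * d) *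
        ((3 * (2 + α k) + 10) * β * d / (4 ^ i * ρ))) ≤
      β * (228 + 62 * Real.log β + (253 + 24 * g) * Real.log m) * d

/-- File RanC.lean, from `CndCProp`, `DetProp`, `IndCProp`, `TelProp`, `NumCProp`. Copy of
`../Pad/Ran.lean` (its lemmas `Pad.RanM.exists_rho`, `Pad.RanM.exists_h` may be imported). `DetProp`
and `TelProp` are used with `γ / 8` for `β` (note `8 * (γ / 8) = γ`), `NumCProp` with
`g = log (γ / 8) ≥ 0`. -/
def RanCProp : Prop :=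
  ∀ (S : Type) [Fintype S] [Nonempty S] (D : S → S → ℝ) (β γ : ℝ), PM D → 1 ≤ β → 8 ≤ γ →
    Crd D β γ →
    ∃ (h : ℕ) (ρ : ℝ) (Ω : Type) (_ : Fintype Ω) (w : Ω → ℝ) (rp : Ω → ℕ → S → S)
      (a : Ω → ℕ → S → ℝ), (∀ ω, 0 ≤ w ω) ∧ ∑ ω, w ω = 1 ∧
      (∀ ω, Arms D (rp ω) (a ω) h ρ (2 * Real.log (Fintype.card S) + 2)) ∧
      ∀ x y, ∑ ω, w ω * ∑ k ∈ range h, 4 ^ (k + 1) * ρ *
          ((2 + a ω k (rp ω k x) + a ω k (rp ω k y)) * ind (rp ω k x ≠ rp ω k y)) ≤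
        β * (228 + 62 * Real.log β + (253 + 24 * Real.log (γ / 8)) *
          Real.log (Fintype.card S)) * D x y

/-! ## Ball carving -/

/-- File Vol1.lean. `t = ‖v‖`. (i) We may assume `v = t e₀`: `reflection_sub` gives a linear isometry
mapping `v` to `t e₀` (if `v ≠ t e₀`), linear isometries preserve the volume
(`LinearIsometryEquiv.measurePreserving`) and map `closedBall 0 R \ closedBall v R` onto
`closedBall 0 R \ closedBall (t e₀) R`. (ii) Identify `EuclideanSpace ℝ (Fin (n+1))` with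
`ℝ × (Fin n → ℝ)` (`PiLp.volume_preserving_ofLp`, `volume_preserving_piFinSuccAbove` for `0`); the set is
`{(a, z) | a^2 + |z|^2 ≤ R^2, (a - t)^2 + |z|^2 > R^2}` with `|z|^2 = ∑ z_i^2`. Its section at `z` is
empty if `|z| > R`, otherwise, with `s = √(R^2 - |z|^2)`, contained in `[-s, -s + t)` (`a ≤ s` and
`t ≥ 0` exclude `a - t > s`), of length `t`. So by Fubini (`Measure.prod_apply_symm` or
`measure_prod...`) the volume is at most `t` times the volume of `{z | |z| ≤ R}`, which is the volume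
of the closed ball in `EuclideanSpace ℝ (Fin n)`. -/
def Vol1Prop : Prop :=
  ∀ (n : ℕ) (v : EuclideanSpace ℝ (Fin (n + 1))) (R : ℝ), 0 < R →
    MeasureTheory.volume (Metric.closedBall (0 : EuclideanSpace ℝ (Fin (n + 1))) R \
        Metric.closedBall v R) ≤
      ENNReal.ofReal ‖v‖ *
        MeasureTheory.volume (Metric.closedBall (0 : EuclideanSpace ℝ (Fin n)) R)

/-- File Vol2.lean. `EuclideanSpace.volume_closedBall`: `V_n(R) = R^n π^(n/2) / Γ(n/2+1)` (for `n = 0`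
the volume is `1`, treat this case separately if the theorem needs a nonempty index type; then
`V_1(R) = 2 R`). `V_n / V_(n+1) = Γ(x + 1/2) / (R √π Γ(x))` with `x = n/2 + 1`, and
`Γ(x + 1/2)^2 ≤ Γ(x) Γ(x + 1) = x Γ(x)^2` (log-convexity of `Γ`, e.g.
`Real.Gamma_mul_add_mul_le_rpow_Gamma_mul_rpow_Gamma`), so the quotient is at most
`√(x / π) / R ≤ √(n + 1) / R`. -/
def Vol2Prop : Prop :=
  ∀ (n : ℕ) (R : ℝ), 0 < R →
    MeasureTheory.volume (Metric.closedBall (0 : EuclideanSpace ℝ (Fin n)) R) ≤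
      ENNReal.ofReal (√(n + 1) / R) *
        MeasureTheory.volume (Metric.closedBall (0 : EuclideanSpace ℝ (Fin (n + 1))) R)

/-- The outcomes of one round of carving for the finite metric `D`: `P` = the points in the ball of
radius `R` around the random centre, `Pp`, `Pm` the same for `R + r0`, `R - r0`. -/
structure Pat {S : Type} [Fintype S] (D : S → S → ℝ) (R r0 K : ℝ) (Ω : Type) [Fintype Ω]
    (w : Ω → ℝ) (Pp P Pm : Ω → S → Prop) (p : ℝ) : Prop where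
  w0 : ∀ ω, 0 ≤ w ω
  w1 : ∑ ω, w ω = 1
  p0 : 0 < p
  mp : ∀ ω x, Pm ω x → P ω x
  pp : ∀ ω x, P ω x → Pp ω x
  diam : ∀ ω x y, P ω x → P ω y → D x y ≤ 2 * R
  mr : ∀ ω x y, Pm ω x → D x y ≤ r0 → P ω y
  pr : ∀ ω x y, P ω y → D x y ≤ r0 → Pp ω x
  hit : ∀ x, ∑ ω, w ω * ind (Pp ω x) = p
  rim : ∀ x, ∑ ω, w ω * ind (Pp ω x ∧ ¬ Pm ω x) ≤ p / 8
  bad : ∀ x y, ∑ ω, w ω * ind ((Pp ω x ∧ ¬ Pp ω y) ∨ (Pm ω x ∧ ¬ Pm ω y)) ≤ K * D x y * p

/-- File Pat.lean, from `Vol1Prop`, `Vol2Prop`. `d = n + 1`, `r0 = R / (16 d)`, `V r` = volume of a closed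
ball of radius `r` in `E = EuclideanSpace ℝ (Fin (n + 1))`; `V r = r^d V 1` (`Measure.addHaar_closedBall`).
`B = closedBall 0 b` with `b = max ‖f x‖ + 2 R`. For `c ∈ E`:
`Pp c x = (dist (f x) c ≤ R + r0)`, `P c x = (dist (f x) c ≤ R)`, `Pm c x = (dist (f x) c ≤ R - r0)`.
`Ω = Finset S × Finset S × Finset S` (the three sets, as outcomes), `w ω = volume {c ∈ B | the three sets
of c are ω} / volume B`; `p = V (R + r0) / volume B` (the ball of radius `R + r0` around `f x` is contained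
in `B`). To get the pointwise properties for all `ω` restrict `Ω` to the subtype of the outcomes that
occur for some `c` (or give all other outcomes three empty sets). Sums
`∑ ω, w ω * ind (property of ω)` are `volume {c ∈ B | property} / volume B` (finite additivity, all the sets
are measurable).
`rim`: `(V (R + r0) - V (R - r0)) / V (R + r0) = 1 - ((R - r0)/(R + r0))^d ≤ 2 d r0 / (R + r0) ≤ 1/8`
(Bernoulli `one_add_mul_le_pow`).
`bad`: by `Vol1Prop`, `Vol2Prop` and translation invariance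
`volume (closedBall x r \ closedBall y r) ≤ √d dist x y / r * V r` for every `r > 0`; for `r = R + r0`
this is at most `√d/R dist V (R + r0)`, for `r = R - r0 ≥ 15/16 R` at most
`16/15 √d/R dist V (R + r0)`; the sum is at most `2.1 √d/R`. -/
def PatProp : Prop :=
  ∀ (S : Type) [Fintype S] [Nonempty S] (n : ℕ) (f : S → EuclideanSpace ℝ (Fin (n + 1))) (R : ℝ),
    0 < R → ∃ (Ω : Type) (_ : Fintype Ω) (w : Ω → ℝ) (Pp P Pm : Ω → S → Prop) (p : ℝ),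
      Pat (fun x y => dist (f x) (f y)) R (R / (16 * (n + 1))) (2.1 * √(n + 1) / R) Ω w Pp P Pm p

open Classical in
/-- `N` rounds of carving: `c ω x` is the number of the first round `i < N` with `P x`, and `N` if there
is none. -/
structure Crv {S : Type} [Fintype S] (D : S → S → ℝ) (R r0 K p : ℝ) (N : ℕ) (Ω : Type)
    [Fintype Ω] (w : Ω → ℝ) (c : Ω → S → ℕ) (dp : Ω → S → Prop) : Prop where
  w0 : ∀ ω, 0 ≤ w ω
  w1 : ∑ ω, w ω = 1
  le : ∀ ω x, c ω x ≤ N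
  diam : ∀ ω x y, c ω x < N → c ω x = c ω y → D x y ≤ 2 * R
  dlt : ∀ ω x, dp ω x → c ω x < N
  deep : ∀ ω x y, dp ω x → D x y ≤ r0 → c ω x = c ω y
  ndp : ∀ x, ∑ ω, w ω * ind (¬ dp ω x) ≤ 1 / 8 + (1 - p) ^ N
  bad : ∀ x y, ∑ ω, w ω * ind (¬ ((dp ω x ∧ dp ω y ∧ c ω x = c ω y) ∨ (¬ dp ω x ∧ ¬ dp ω y))) ≤
    2 * (K * D x y)

/-- File Crv.lean. Induction on `N`. `N = 0`: one point, `c = 0`, `dp` false. Step: product of one round
(`Pat`) and `N` rounds (`c'`, `dp'`):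
`c x = if P x then 0 else c' x + 1`, `dp x = if Pp x then Pm x else dp' x`.
`dlt`: if `Pp x` then `Pm x`, so `P x`, `c x = 0`. `deep`: if `Pp x`: `Pm x`, so `P x` and `P y` (`mr`),
both are `0`. If not `Pp x`: not `P x`; not `P y` by `pr` (`D x y ≤ r0`); `dp' x`, induction.
`ndp`: `ind ≤ ind (Pp x ∧ ¬ Pm x) + ind (¬ Pp x) ind (¬ dp' x)`: `p/8 + (1-p) (1/8 + (1-p)^N)` (note
`p ≤ 1`). `bad`: if exactly one of `Pp x`, `Pp y` holds or exactly one of `Pm x`, `Pm y` (probability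
at most `2 K D x y p`, using `bad` of `Pat` for `(x, y)` and `(y, x)` and the symmetry of `D`)
nothing is claimed; otherwise, if `Pp x` and `Pp y` then either both `Pm` (both deep, `c = 0`) or both not
(both not deep), and the event does not happen; if neither `Pp x` nor `Pp y` then `c = c' + 1`,
`dp = dp'` at both. So the probability is at most `2 K D x y p + (1 - p) 2 K D x y`
(`P(¬ Pp x) = 1 - p`). -/
def CrvProp : Prop :=
  ∀ (S : Type) [Fintype S] (D : S → S → ℝ) (R r0 K : ℝ) (Ω0 : Type) [Fintype Ω0] (w0 : Ω0 → ℝ)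
    (Pp P Pm : Ω0 → S → Prop) (p : ℝ), PM D → 0 < R → 0 < r0 → 0 ≤ K →
    Pat D R r0 K Ω0 w0 Pp P Pm p → ∀ N : ℕ, ∃ (Ω : Type) (_ : Fintype Ω) (w : Ω → ℝ)
      (c : Ω → S → ℕ) (dp : Ω → S → Prop), Crv D R r0 K p N Ω w c dp

/-- File EuC.lean, from `PatProp`, `CrvProp`. Given `Δ`, let `R = Δ / 2`, `r0 = R / (16 (n+1)) = Δ / (32 (n+1))`, and
choose `N` with `(1 - p)^N ≤ 1/8` (`0 < p ≤ 1`). `q ω x` = a chosen representative of
`{y | c ω y = c ω x}` if `c ω x < N`, and `q ω x = x` if `c ω x = N` (so `q ω x = q ω y` implies `x = y` or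
`c ω x = c ω y < N`; a representative of a cell with `c < N` has itself `c < N`).
`2 * (2.1 √(n+1) / R) = 8.4 √(n+1) / Δ`. If `S` is empty everything is trivial (one point space). -/
def EuCProp : Prop :=
  ∀ (S : Type) [Fintype S] (n : ℕ) (f : S → EuclideanSpace ℝ (Fin (n + 1))),
    Crd (fun x y => dist (f x) (f y)) (9 * √(n + 1)) (32 * (n + 1))

/-! ## Random projections -/

/-- Average over the sign vectors. -/
noncomputable def Av {I : Type} [Fintype I] [DecidableEq I] (F : (I → Bool) → ℝ) : ℝ :=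
  (∑ ε, F ε) / 2 ^ Fintype.card I

/-- The random linear form. -/
noncomputable def sg {I : Type} [Fintype I] (z : I → ℝ) (ε : I → Bool) : ℝ :=
  ∑ i, (if ε i then 1 else -1) * z i

/-- File Kh.lean. Second and fourth moments: `Av (sg z)^2 = ∑ z_i^2 =: s` and
`Av (sg z)^4 ≤ 3 s^2` (induction over the coordinates, `E (ε a + X)^4 = a^4 + 6 a^2 E X^2 + E X^4` for
independent `ε`, `X` with symmetric `X`, and `a^4 + 6 a^2 b + 3 b^2 ≤ 3 (a^2 + b)^2`; prove for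
`I = Fin n` and transport, or expand the product directly). Then with
`exp (-y) ≤ 1 - y + y^2/2` for `y ≥ 0` (`y = (sg z)^2/(3 s)`, `s > 0`):
`Av (exp (-(sg z)^2/(3 s))) ≤ 1 - 1/3 + 3/18 = 5/6`. -/
def KhProp : Prop :=
  ∀ (n : ℕ) (z : Fin n → ℝ),
    Av (fun ε => sg z ε ^ 2) = ∑ i, z i ^ 2 ∧
    (0 < ∑ i, z i ^ 2 → Av (fun ε => Real.exp (-(sg z ε ^ 2 / (3 * ∑ i, z i ^ 2)))) ≤ 5 / 6)

/-- File JL.lean, from `KhProp`. `m = card S`, `L = log m`, `k = ⌈20.3 L + 7.1⌉₊ ≤ 21 (1 + L)`,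
`Ω = Fin k → Fin n → Bool` (uniform weights), `f ω x = (2/√k) (sg (φ x) (ω i))_i`. For a pair with
`z = φ x - φ y ≠ 0`, `s = ‖z‖^2`, `Y_i = sg z (ω i)`: `P(∑ Y_i^2 ≤ k s/4) ≤ e^(k/12) (5/6)^k ≤ 0.906^k` (Markov for
`exp (-∑ Y_i^2/(3 s))`, a product of independent factors; `e^(1/12) ≤ 1.0872`), and
`m^2 0.906^k ≤ 1/2`. So with probability at least `1/2` all pairs satisfy
`dist (φ x) (φ y) ≤ dist (f x) (f y)` (`4/k ∑ Y_i^2 ≥ s`). Condition on this event (subtype, weights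
divided by its probability): `E dist (f x) (f y) ≤ 2 * (E dist^2)^(1/2) = 2 * 2 ‖z‖`
(`E (4/k) ∑ Y_i^2 = 4 s`). -/
def JLProp : Prop :=
  ∀ (S : Type) [Fintype S] [Nonempty S] (n : ℕ) (φ : S → EuclideanSpace ℝ (Fin n)),
    ∃ (k : ℕ) (Ω : Type) (_ : Fintype Ω) (w : Ω → ℝ) (f : Ω → S → EuclideanSpace ℝ (Fin (k + 1))),
      (k : ℝ) + 1 ≤ 21 * (1 + Real.log (Fintype.card S)) ∧
      (∀ ω, 0 ≤ w ω) ∧ ∑ ω, w ω = 1 ∧
      (∀ ω x y, dist (φ x) (φ y) ≤ dist (f ω x) (f ω y)) ∧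
      (∀ x y, ∑ ω, w ω * dist (f ω x) (f ω y) ≤ 4 * dist (φ x) (φ y))

/-! ## Algorithms for the copies -/

/-- There is a randomized algorithm for the copies with ratio `c`. -/
def Cmp {S T : Type} [Fintype T] (D : S → S → ℝ) (σ : T → S) (c : ℝ) : Prop :=
  ∃ (Ω : Type) (_ : Fintype Ω) (w : Ω → ℝ) (A : Ω → T → List T → T),
    (∀ ω, 0 ≤ w ω) ∧ ∑ ω, w ω = 1 ∧
    (∀ ω l, l.length ≤ Fintype.card T → (chs (A ω) l).Nodup) ∧
    ∀ l τ : List T, Adm l τ →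
      ∑ ω, w ω * stp (fun x l => D (σ x) (σ (A ω x l))) l ≤
        c * acost (fun s t => D (σ s) (σ t)) l τ

/-- File Mix.lean. Choose for every `ω` an algorithm `(Ω' ω, w' ω, A' ω)` (`choose`); the new space is
`(ω : Ω) × Ω' ω` with weights `w ω * w' ω ω'`. `stp` for `D` is at most `stp` for `Dm ω` (induction on
the list), and `∑ ω, w ω * acost (Dm ω ..) l τ ≤ K * acost (D ..) l τ` (induction on `l`, `τ` of equal
length; `c ≥ 0`). -/
def MixProp : Prop :=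
  ∀ (S T : Type) [Fintype T] (D : S → S → ℝ) (σ : T → S) (c K : ℝ) (Ω : Type) [Fintype Ω]
    (w : Ω → ℝ) (Dm : Ω → S → S → ℝ), 0 ≤ c → (∀ ω, 0 ≤ w ω) → ∑ ω, w ω = 1 →
    (∀ ω x y, D x y ≤ Dm ω x y) → (∀ x y, ∑ ω, w ω * Dm ω x y ≤ K * D x y) →
    (∀ ω, Cmp (Dm ω) σ c) → Cmp D σ (c * K)

end Pool.Agent.MP_a4c1f4_lc.Euc
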