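import Pool.Agent.Lib.MP_a4c1f4_lc.Euc.Spec
import Pool.Agent.Lib.MP_a4c1f4_lc.Pad.Cnd

set_option linter.all false

/-!
Conditioning the rounds of one level on a good event, for core decompositions.
-/

namespace Pool.Agent.MP_a4c1f4_lc.Euc

open Finset Pool.Agent.MP_a4c1f4_lc Pool.Agent.MP_a4c1f4_lc.Dbl Pool.Agent.MP_a4c1f4_lc.Pad

open Pool.Agent.MP_a4c1f4_lc.Pad.CndM

open Classical in
theorem cndCP (h1 : RecCProp) : CndCProp := by
  intro S _ _ D β γ Δ hD hβ hγ hΔ hP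
  have hm : 1 ≤ Fintype.card S := Fintype.card_pos
  have hmR : (1 : ℝ) ≤ (Fintype.card S : ℝ) := by exact_mod_cast hm
  obtain ⟨n, hn1, hn2⟩ := exists_n (Fintype.card S) hm
  obtain ⟨Ω, iΩ, w, pt, M, hR⟩ := h1 S D β γ Δ hD hβ hγ hΔ hP n
  set m : ℝ := (Fintype.card S : ℝ) with hmdef
  let G : Ω → Prop := fun ω => (∀ x, ¬ ((pt ω x).1 = n)) ∧
    ∀ x y, ¬ (6 * β * m ^ 2 * D x y ≤ Δ ∧ pt ω x ≠ pt ω y)
  -- probability of the complement
  have hbad : ∑ ω, w ω * ind (¬ G ω) ≤ 1 / 2 := by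
    have e1 : ∑ ω, w ω * ind (¬ G ω) ≤ ∑ ω, w ω * (∑ x, ind ((pt ω x).1 = n) +
        ∑ x, ∑ y, ind (6 * β * m ^ 2 * D x y ≤ Δ ∧ pt ω x ≠ pt ω y)) := by
      apply Finset.sum_le_sum
      intro ω _
      exact mul_le_mul_of_nonneg_left (ind_union (Ω := Ω) _ _) (hR.w0 ω)
    have e2 : ∑ ω, w ω * (∑ x, ind ((pt ω x).1 = n) +
        ∑ x, ∑ y, ind (6 * β * m ^ 2 * D x y ≤ Δ ∧ pt ω x ≠ pt ω y)) =
        ∑ x, ∑ ω, w ω * ind ((pt ω x).1 = n) +
        ∑ x, ∑ y, ∑ ω, w ω * ind (6 * β * m ^ 2 * D x y ≤ Δ ∧ pt ω x ≠ pt ω y) := by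
      simp only [mul_add, Finset.mul_sum, Finset.sum_add_distrib]
      congr 1
      · rw [Finset.sum_comm]
      · rw [Finset.sum_comm]
        apply Finset.sum_congr rfl
        intro x _
        rw [Finset.sum_comm]
    have e3 : ∑ x : S, ∑ ω, w ω * ind ((pt ω x).1 = n) ≤ 1 / 4 := by
      have : ∑ x : S, ∑ ω, w ω * ind ((pt ω x).1 = n) ≤ ∑ x : S, (1 / 4 : ℝ) ^ n :=
        Finset.sum_le_sum (fun x _ => hR.un x)
      refine this.trans ?_
      rw [Finset.sum_const, Finset.card_univ, nsmul_eq_mul, ← hmdef]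
      have h4 : (4 * m : ℝ) ≤ 4 ^ n := by
        rw [hmdef]
        exact_mod_cast hn1
      rw [one_div, inv_pow, ← div_eq_mul_inv, div_le_iff₀ (by positivity)]
      linarith
    have e4 : ∑ x : S, ∑ y : S, ∑ ω, w ω *
        ind (6 * β * m ^ 2 * D x y ≤ Δ ∧ pt ω x ≠ pt ω y) ≤ 2 / 9 := by
      have key : ∀ x y : S, ∑ ω, w ω *
          ind (6 * β * m ^ 2 * D x y ≤ Δ ∧ pt ω x ≠ pt ω y) ≤ 2 / 9 / m ^ 2 := by
        intro x y
        by_cases hc : 6 * β * m ^ 2 * D x y ≤ Δ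
        · have h5 : ∑ ω, w ω * ind (6 * β * m ^ 2 * D x y ≤ Δ ∧ pt ω x ≠ pt ω y) ≤
              ∑ ω, w ω * ind (pt ω x ≠ pt ω y) := by
            apply Finset.sum_le_sum
            intro ω _
            apply mul_le_mul_of_nonneg_left _ (hR.w0 ω)
            by_cases hne : pt ω x ≠ pt ω y
            · rw [ind_true hne]
              exact ind_le_one _
            · rw [ind_false (fun hh => hne hh.2)]
              exact ind_nonneg _
          refine h5.trans ((hR.sep x y).trans ?_)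
          have h6 : 4 / 3 * (β * D x y / Δ) = (4 / 3 * β * D x y) / Δ := by ring
          rw [h6, div_le_div_iff₀ hΔ (by positivity)]
          nlinarith
        · have h5 : ∀ ω, w ω * ind (6 * β * m ^ 2 * D x y ≤ Δ ∧ pt ω x ≠ pt ω y) = 0 := by
            intro ω
            rw [ind_false (fun hh => hc hh.1), mul_zero]
          rw [Finset.sum_congr rfl (fun ω _ => h5 ω), Finset.sum_const_zero]
          positivity
      have : ∑ x : S, ∑ y : S, ∑ ω, w ω *
          ind (6 * β * m ^ 2 * D x y ≤ Δ ∧ pt ω x ≠ pt ω y) ≤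
          ∑ x : S, ∑ y : S, 2 / 9 / m ^ 2 :=
        Finset.sum_le_sum (fun x _ => Finset.sum_le_sum (fun y _ => key x y))
      refine this.trans (le_of_eq ?_)
      simp only [Finset.sum_const, Finset.card_univ, nsmul_eq_mul, ← hmdef]
      field_simp
    rw [e2] at e1
    linarith
  set Pg : ℝ := ∑ ω, w ω * ind (G ω) with hPg
  have hPg2 : 1 / 2 ≤ Pg := by
    have : Pg = 1 - ∑ ω, w ω * ind (¬ G ω) := by
      rw [hPg, ← hR.w1, ← Finset.sum_sub_distrib]
      apply Finset.sum_congr rfl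
      intro ω _
      rw [ind_compl (G ω)]
      ring
    linarith
  have hPg0 : 0 < Pg := by linarith
  have hlt : ∀ ω : {ω // G ω}, ∀ x, (pt ω x).1 < n := by
    intro ω x
    exact lt_of_le_of_ne (hR.lt ω x) (ω.2.1 x)
  refine ⟨{ω // G ω}, inferInstance, fun ω => w ω / Pg, fun ω => pt ω, fun ω => M ω,
    ?_, ?_, ?_, ?_, ?_, ?_, ?_, ?_, ?_, ?_⟩
  · intro ω
    exact div_nonneg (hR.w0 _) hPg0.le
  · rw [← Finset.sum_div, sum_sub G w, ← hPg, div_self hPg0.ne']
  · intro ω x y hxy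
    exact hR.diam ω x y (hlt ω x) hxy
  · intro ω x
    exact hR.core ω x (hlt ω x)
  · intro ω v
    have h2 := hR.kraft ω v
    rw [Finset.filter_true_of_mem] at h2
    · exact h2
    · intro z hz
      rw [Finset.mem_image] at hz
      obtain ⟨x, hx, rfl⟩ := hz
      exact hlt ω x
  · intro ω x y hxy
    have := ω.2.2 x y
    by_contra hne
    exact this ⟨hxy, hne⟩
  · intro ω x
    have h2 : (4 : ℝ) ^ ((pt ω x).1 + 1) ≤ 4 ^ n :=
      pow_le_pow_right₀ (by norm_num) (hlt ω x)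
    have h3 : (4 : ℝ) ^ n ≤ 16 * (Fintype.card S : ℝ) := by exact_mod_cast hn2
    exact h2.trans h3
  · intro x y
    have h2 := sum_sub_le G w (fun ω => ind (pt ω x ≠ pt ω y)) Pg hR.w0
      (fun ω => ind_nonneg _) hPg2
    refine h2.trans ?_
    have h3 := hR.sep x y
    linarith
  · intro x
    have h2 := sum_sub_le G w (fun ω => (((pt ω x).1 : ℝ) + 1)) Pg hR.w0
      (fun ω => by positivity) hPg2
    refine h2.trans ?_
    have h3 := hR.ix x
    linarith
  · intro x y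
    have h2 := sum_sub_le G w (fun ω => ind (pt ω x ≠ pt ω y) * (((pt ω x).1 : ℝ) + 1)) Pg hR.w0
      (fun ω => mul_nonneg (ind_nonneg _) (by positivity)) hPg2
    refine h2.trans ?_
    have h3 := hR.ixs x y
    linarith

end Pool.Agent.MP_a4c1f4_lc.Euc
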