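import Pool.Agent.Lib.MP_a4c1f4_lc.Euc.Spec
import Pool.Agent.Lib.MP_a4c1f4_lc.Pad.Rec

set_option linter.all false

/-!
Rounds of ball carving.
-/

namespace Pool.Agent.MP_a4c1f4_lc.Euc

open Finset Pool.Agent.MP_a4c1f4_lc Pool.Agent.MP_a4c1f4_lc.Dbl Pool.Agent.MP_a4c1f4_lc.Pad

open Pool.Agent.MP_a4c1f4_lc.Pad.RecM in
theorem crvP : CrvProp := by
  classical
  intro S _ D R r0 K Ω0 _ w0 Pp P Pm p hD hR hr0 hK hP N
  have hKD : ∀ x y, 0 ≤ K * D x y := fun x y => mul_nonneg hK (hD.nonneg x y)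
  have hmiss : ∀ x, ∑ a, w0 a * ind (¬ Pp a x) = 1 - p := by
    intro x
    rw [← hP.hit x, ← hP.w1, ← Finset.sum_sub_distrib]
    refine Finset.sum_congr rfl fun a _ => ?_
    by_cases h : Pp a x
    · rw [ind_false (not_not.mpr h), ind_true h]
      ring
    · rw [ind_true h, ind_false h]
      ring
  induction N with
  | zero =>
    refine ⟨Unit, inferInstance, fun _ => 1, fun _ _ => 0, fun _ _ => False, ?_⟩
    refine ⟨fun _ => zero_le_one, by simp, fun _ _ => le_rfl, ?_, fun _ _ h => h.elim,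
      fun _ _ _ h => h.elim, ?_, ?_⟩
    · intro _ _ _ h
      exact absurd h (by simp)
    · intro x
      simp only [Finset.univ_unique, Finset.sum_singleton, one_mul, pow_zero]
      rw [ind_true (by simp)]
      norm_num
    · intro x y
      simp only [Finset.univ_unique, Finset.sum_singleton, one_mul]
      rw [ind_false (by simp)]
      have := hKD x y
      linarith
  | succ N ih =>
    obtain ⟨Ω', _, w', c', dp', ih⟩ := ih
    let c : Ω0 × Ω' → S → ℕ := fun q x => if P q.1 x then 0 else c' q.2 x + 1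
    let dp : Ω0 × Ω' → S → Prop := fun q x => Pm q.1 x ∨ (¬ Pp q.1 x ∧ dp' q.2 x)
    have hc1 : ∀ q x, P q.1 x → c q x = 0 := fun q x h => if_pos h
    have hc2 : ∀ q x, ¬ P q.1 x → c q x = c' q.2 x + 1 := fun q x h => if_neg h
    have hww : ∀ q : Ω0 × Ω', 0 ≤ w0 q.1 * w' q.2 := fun q => mul_nonneg (hP.w0 _) (ih.w0 _)
    have hex : ∀ (F : Ω0 → ℝ) (H : Ω' → ℝ),
        ∑ q : Ω0 × Ω', w0 q.1 * w' q.2 * (F q.1 * H q.2) =
          (∑ a, w0 a * F a) * (∑ b, w' b * H b) := fun F H => prod_exp w0 w' F H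
    have hw1' : ∑ a, w0 a * (1 : ℝ) = 1 := by simpa using hP.w1
    have hw2' : ∑ b, w' b * (1 : ℝ) = 1 := by simpa using ih.w1
    have htot : ∑ q : Ω0 × Ω', w0 q.1 * w' q.2 = 1 := by
      have h2 := hex (fun _ => 1) (fun _ => 1)
      rw [hw1', hw2', mul_one] at h2
      simpa using h2
    have hmiss0 : ∀ x, 0 ≤ ∑ a, w0 a * ind (¬ Pp a x) := fun x =>
      Finset.sum_nonneg fun a _ => mul_nonneg (hP.w0 a) (ind_nonneg _)
    refine ⟨Ω0 × Ω', inferInstance, fun q => w0 q.1 * w' q.2, c, dp, hww, htot, ?_, ?_, ?_, ?_,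
      ?_, ?_⟩
    · -- le
      intro q x
      by_cases h : P q.1 x
      · rw [hc1 q x h]
        exact Nat.zero_le _
      · rw [hc2 q x h]
        exact Nat.succ_le_succ (ih.le _ _)
    · -- diam
      intro q x y hlt he
      by_cases hx : P q.1 x
      · by_cases hy : P q.1 y
        · exact hP.diam q.1 x y hx hy
        · rw [hc1 q x hx, hc2 q y hy] at he
          exact absurd he (by simp)
      · by_cases hy : P q.1 y
        · rw [hc2 q x hx, hc1 q y hy] at he
          exact absurd he (by simp)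
        · rw [hc2 q x hx] at hlt
          rw [hc2 q x hx, hc2 q y hy] at he
          exact ih.diam q.2 x y (by omega) (by omega)
    · -- dlt
      intro q x h
      rcases h with h | ⟨h1, h2⟩
      · rw [hc1 q x (hP.mp _ _ h)]
        omega
      · rw [hc2 q x (fun h => h1 (hP.pp _ _ h))]
        have := ih.dlt _ _ h2
        omega
    · -- deep
      intro q x y h hxy
      rcases h with h | ⟨h1, h2⟩
      · rw [hc1 q x (hP.mp _ _ h), hc1 q y (hP.mr _ _ _ h hxy)]
      · rw [hc2 q x (fun h => h1 (hP.pp _ _ h)), hc2 q y (fun h => h1 (hP.pr _ _ _ h hxy)),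
          ih.deep _ _ _ h2 hxy]
    · -- ndp
      intro x
      have h2 : ∑ q : Ω0 × Ω', w0 q.1 * w' q.2 * ind (¬ dp q x) ≤
          ∑ q : Ω0 × Ω', w0 q.1 * w' q.2 * (ind (Pp q.1 x ∧ ¬ Pm q.1 x) * 1) +
          ∑ q : Ω0 × Ω', w0 q.1 * w' q.2 * (ind (¬ Pp q.1 x) * ind (¬ dp' q.2 x)) := by
        rw [← Finset.sum_add_distrib]
        refine Finset.sum_le_sum fun q _ => ?_
        rw [← mul_add]
        refine mul_le_mul_of_nonneg_left ?_ (hww q)
        have n1 := mul_nonneg (ind_nonneg (¬ Pp q.1 x)) (ind_nonneg (¬ dp' q.2 x))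
        have n2 := mul_nonneg (ind_nonneg (Pp q.1 x ∧ ¬ Pm q.1 x)) (zero_le_one (α := ℝ))
        by_cases hd : dp q x
        · rw [ind_false (not_not.mpr hd)]
          linarith
        · have hm : ¬ Pm q.1 x := fun h => hd (Or.inl h)
          by_cases hp : Pp q.1 x
          · rw [ind_true hd, ind_true ⟨hp, hm⟩]
            linarith
          · have hd' : ¬ dp' q.2 x := fun h => hd (Or.inr ⟨hp, h⟩)
            rw [ind_true hd, ind_true hp, ind_true hd']
            linarith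
      refine h2.trans ?_
      rw [hex (fun a => ind (Pp a x ∧ ¬ Pm a x)) (fun _ => 1),
        hex (fun a => ind (¬ Pp a x)) (fun b => ind (¬ dp' b x)), hw2', mul_one, hmiss x]
      have h3 := hP.rim x
      have h4 := ih.ndp x
      have h5 : 0 ≤ 1 - p := by
        rw [← hmiss x]
        exact hmiss0 x
      have h6 := mul_le_mul_of_nonneg_left h4 h5
      rw [pow_succ]
      linarith
    · -- bad
      intro x y
      have h2 : ∑ q : Ω0 × Ω', w0 q.1 * w' q.2 *
            ind (¬ ((dp q x ∧ dp q y ∧ c q x = c q y) ∨ (¬ dp q x ∧ ¬ dp q y))) ≤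
          ∑ q : Ω0 × Ω', w0 q.1 * w' q.2 *
            (ind ((Pp q.1 x ∧ ¬ Pp q.1 y) ∨ (Pm q.1 x ∧ ¬ Pm q.1 y)) * 1) +
          ∑ q : Ω0 × Ω', w0 q.1 * w' q.2 *
            (ind ((Pp q.1 y ∧ ¬ Pp q.1 x) ∨ (Pm q.1 y ∧ ¬ Pm q.1 x)) * 1) +
          ∑ q : Ω0 × Ω', w0 q.1 * w' q.2 * (ind (¬ Pp q.1 x) *
            ind (¬ ((dp' q.2 x ∧ dp' q.2 y ∧ c' q.2 x = c' q.2 y) ∨
              (¬ dp' q.2 x ∧ ¬ dp' q.2 y)))) := by
        rw [← Finset.sum_add_distrib, ← Finset.sum_add_distrib]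
        refine Finset.sum_le_sum fun q _ => ?_
        rw [← mul_add, ← mul_add]
        refine mul_le_mul_of_nonneg_left ?_ (hww q)
        have n0 := ind_le_one (¬ ((dp q x ∧ dp q y ∧ c q x = c q y) ∨ (¬ dp q x ∧ ¬ dp q y)))
        have n1 := ind_nonneg ((Pp q.1 x ∧ ¬ Pp q.1 y) ∨ (Pm q.1 x ∧ ¬ Pm q.1 y))
        have n2 := ind_nonneg ((Pp q.1 y ∧ ¬ Pp q.1 x) ∨ (Pm q.1 y ∧ ¬ Pm q.1 x))
        have n3 := mul_nonneg (ind_nonneg (¬ Pp q.1 x))
          (ind_nonneg (¬ ((dp' q.2 x ∧ dp' q.2 y ∧ c' q.2 x = c' q.2 y) ∨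
              (¬ dp' q.2 x ∧ ¬ dp' q.2 y))))
        by_cases hb1 : (Pp q.1 x ∧ ¬ Pp q.1 y) ∨ (Pm q.1 x ∧ ¬ Pm q.1 y)
        · rw [ind_true hb1]
          linarith
        by_cases hb2 : (Pp q.1 y ∧ ¬ Pp q.1 x) ∨ (Pm q.1 y ∧ ¬ Pm q.1 x)
        · rw [ind_true hb2]
          linarith
        push Not at hb1 hb2
        by_cases hp : Pp q.1 x
        · have hpy := hb1.1 hp
          have hev : (dp q x ∧ dp q y ∧ c q x = c q y) ∨ (¬ dp q x ∧ ¬ dp q y) := by
            by_cases hm : Pm q.1 x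
            · have hmy := hb1.2 hm
              refine Or.inl ⟨Or.inl hm, Or.inl hmy, ?_⟩
              rw [hc1 q x (hP.mp _ _ hm), hc1 q y (hP.mp _ _ hmy)]
            · have hmy : ¬ Pm q.1 y := fun h => hm (hb2.2 h)
              refine Or.inr ⟨?_, ?_⟩
              · rintro (h | h)
                · exact hm h
                · exact h.1 hp
              · rintro (h | h)
                · exact hmy h
                · exact h.1 hpy
          rw [ind_false (not_not.mpr hev)]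
          linarith
        · have hpy : ¬ Pp q.1 y := fun h => hp (hb2.1 h)
          have hPx : ¬ P q.1 x := fun h => hp (hP.pp _ _ h)
          have hPy : ¬ P q.1 y := fun h => hpy (hP.pp _ _ h)
          have hmx : ¬ Pm q.1 x := fun h => hPx (hP.mp _ _ h)
          have hmy : ¬ Pm q.1 y := fun h => hPy (hP.mp _ _ h)
          have hdx : dp q x ↔ dp' q.2 x :=
            ⟨fun h => (h.resolve_left hmx).2, fun h => Or.inr ⟨hp, h⟩⟩
          have hdy : dp q y ↔ dp' q.2 y :=
            ⟨fun h => (h.resolve_left hmy).2, fun h => Or.inr ⟨hpy, h⟩⟩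
          have hcc : c q x = c q y ↔ c' q.2 x = c' q.2 y := by
            rw [hc2 q x hPx, hc2 q y hPy]
            omega
          rw [hdx, hdy, hcc, ind_true hp]
          linarith
      refine h2.trans ?_
      rw [hex (fun a => ind ((Pp a x ∧ ¬ Pp a y) ∨ (Pm a x ∧ ¬ Pm a y))) (fun _ => 1),
        hex (fun a => ind ((Pp a y ∧ ¬ Pp a x) ∨ (Pm a y ∧ ¬ Pm a x))) (fun _ => 1),
        hex (fun a => ind (¬ Pp a x)) (fun b => ind (¬ ((dp' b x ∧ dp' b y ∧ c' b x = c' b y) ∨
              (¬ dp' b x ∧ ¬ dp' b y)))), hw2', mul_one, mul_one, hmiss x]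
      have h3 := hP.bad x y
      have h4 := hP.bad y x
      rw [hD.symm y x] at h4
      have h5 : 0 ≤ 1 - p := by
        rw [← hmiss x]
        exact hmiss0 x
      have h6 := mul_le_mul_of_nonneg_left (ih.bad x y) h5
      linarith

end Pool.Agent.MP_a4c1f4_lc.Euc
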