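import Pool.Agent.Lib.MP_a4c1f4_lc.Euc.Spec

set_option linter.all false

/-!
From ball carving to core decompositions.
-/

namespace Pool.Agent.MP_a4c1f4_lc.Euc

open Finset Pool.Agent.MP_a4c1f4_lc Pool.Agent.MP_a4c1f4_lc.Dbl Pool.Agent.MP_a4c1f4_lc.Pad

theorem euCP (h1 : PatProp) (h2 : CrvProp) : EuCProp := by
  classical
  intro S _ n f Δ hΔ
  have hD : PM (fun x y => dist (f x) (f y)) := ⟨fun x => dist_self _, fun x y => dist_comm _ _,
    fun x y z => dist_triangle _ _ _⟩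
  rcases isEmpty_or_nonempty S with hS | hS
  · refine ⟨Unit, inferInstance, fun _ => 1, fun _ x => x, fun _ _ => True, fun _ => zero_le_one,
      by simp, fun _ x => isEmptyElim x, fun _ x => isEmptyElim x, fun x => isEmptyElim x,
      fun x => isEmptyElim x⟩
  have hn : (0 : ℝ) < (n : ℝ) + 1 := by
    have := Nat.cast_nonneg (α := ℝ) n
    linarith
  have hR : 0 < Δ / 2 := by linarith
  have hr0 : 0 < Δ / 2 / (16 * ((n : ℝ) + 1)) := by positivity
  have hK : 0 ≤ 2.1 * √((n : ℝ) + 1) / (Δ / 2) := by positivity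
  obtain ⟨Ω0, _, w0, Pp, P, Pm, p, hP⟩ := h1 S n f (Δ / 2) hR
  have hp0 : 0 < p := hP.p0
  have hp1 : p ≤ 1 := by
    obtain ⟨x⟩ := hS
    rw [← hP.hit x, ← hP.w1]
    exact Finset.sum_le_sum fun a _ => mul_le_of_le_one_right (hP.w0 a) (ind_le_one _)
  obtain ⟨N, hN⟩ : ∃ N : ℕ, (1 - p) ^ N < 1 / 8 :=
    exists_pow_lt_of_lt_one (by norm_num) (by linarith)
  obtain ⟨Ω, fΩ, w, c, dp, hC⟩ := h2 S (fun x y => dist (f x) (f y)) (Δ / 2)
    (Δ / 2 / (16 * ((n : ℝ) + 1))) (2.1 * √((n : ℝ) + 1) / (Δ / 2)) Ω0 w0 Pp P Pm p hD hR hr0 hK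
    hP N
  let rep : Ω → ℕ → S := fun ω i => if h : ∃ y, c ω y = i then h.choose else Classical.arbitrary S
  have hrep : ∀ ω x, c ω (rep ω (c ω x)) = c ω x := by
    intro ω x
    have h : ∃ y, c ω y = c ω x := ⟨x, rfl⟩
    have e : rep ω (c ω x) = h.choose := dif_pos h
    rw [e]
    exact h.choose_spec
  let q : Ω → S → S := fun ω x => if c ω x < N then rep ω (c ω x) else x
  have hq1 : ∀ ω x, c ω x < N → q ω x = rep ω (c ω x) := fun ω x h => if_pos h
  have hq2 : ∀ ω x, ¬ c ω x < N → q ω x = x := fun ω x h => if_neg h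
  have hqc : ∀ ω x y, c ω x < N → c ω x = c ω y → q ω x = q ω y := by
    intro ω x y hx he
    rw [hq1 ω x hx, hq1 ω y (he ▸ hx), he]
  refine ⟨Ω, fΩ, w, q, dp, hC.w0, hC.w1, ?_, ?_, ?_, ?_⟩
  · intro ω x y he
    by_cases hx : c ω x < N
    · by_cases hy : c ω y < N
      · rw [hq1 ω x hx, hq1 ω y hy] at he
        have e2 : c ω x = c ω y := by
          rw [← hrep ω x, he, hrep ω y]
        have := hC.diam ω x y hx e2
        linarith
      · rw [hq1 ω x hx, hq2 ω y hy] at he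
        exact absurd (by rw [← he, hrep ω x]; exact hx) hy
    · by_cases hy : c ω y < N
      · rw [hq2 ω x hx, hq1 ω y hy] at he
        exact absurd (by rw [he, hrep ω y]; exact hy) hx
      · rw [hq2 ω x hx, hq2 ω y hy] at he
        subst he
        exact (dist_self (f x)).le.trans hΔ.le
  · intro ω x y hd hxy
    refine hqc ω x y (hC.dlt ω x hd) (hC.deep ω x y hd ?_)
    have e1 : Δ / 2 / (16 * ((n : ℝ) + 1)) = Δ / (32 * ((n : ℝ) + 1)) := by
      rw [div_div]
      ring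
    rw [e1]
    exact hxy
  · intro x
    have := hC.ndp x
    linarith
  · intro x y
    refine le_trans (Finset.sum_le_sum fun ω _ => mul_le_mul_of_nonneg_left ?_ (hC.w0 ω))
      ((hC.bad x y).trans ?_)
    · refine ind_mono fun h h' => h ?_
      rcases h' with ⟨hx, hy, he⟩ | h'
      · exact Or.inl ⟨hx, hy, hqc ω x y (hC.dlt ω x hx) he⟩
      · exact Or.inr h'
    · have e1 : 2 * (2.1 * √((n : ℝ) + 1) / (Δ / 2) * dist (f x) (f y)) =
          8.4 * (√((n : ℝ) + 1) * dist (f x) (f y) / Δ) := by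
        field_simp
        ring
      have e2 : 9 * √((n : ℝ) + 1) * dist (f x) (f y) / Δ =
          9 * (√((n : ℝ) + 1) * dist (f x) (f y) / Δ) := by ring
      have e3 : 0 ≤ √((n : ℝ) + 1) * dist (f x) (f y) / Δ := by positivity
      rw [e1, e2]
      linarith

end Pool.Agent.MP_a4c1f4_lc.Euc
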