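import Pool.Agent.Lib.MP_a4c1f4_lc.Euc.AsmC
import Pool.Agent.Lib.MP_a4c1f4_lc.Pad.Fin

set_option linter.all false

/-!
# The theorem for requests anywhere and arbitrary capacities
-/

namespace Pool.Agent.MP_a4c1f4_lc.Euc

open Finset Pool.Agent.MP_a4c1f4_lc Pool.Agent.MP_a4c1f4_lc.Dbl Pool.Agent.MP_a4c1f4_lc.Pad
open Pool.Agent.MP_a4c1f4_lc.Dbl.L (assigned cost Respects)

open FinPM in
/-- From the copies to arbitrary requests. -/
theorem finC {N : Type*} [MetricSpace N] (m : ℕ)
    (hm : 0 < m) (s : Fin m → N) (cap : Fin m → ℕ) (hcap : ∀ j, 0 < cap j)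
    (c : ℝ) (hc : 0 ≤ c) (hC : Cmp (fun i j => dist (s i) (s j))
      (Sigma.fst : ((j : Fin m) × Fin (cap j)) → Fin m) c) :
    ∃ (Ω : Type) (_ : Fintype Ω) (w : Ω → ℝ) (A : Ω → N → List N → Fin m),
      (∀ ω, 0 ≤ w ω) ∧ ∑ ω, w ω = 1 ∧
      (∀ ω l, l.length ≤ ∑ j, cap j → Respects cap (assigned (A ω) l)) ∧
      ∀ (l : List N) (τ : List (Fin m)), τ.length = l.length → Respects cap τ →
        ∑ ω, w ω * cost s l (assigned (A ω) l) ≤ (1 + 2 * c) * cost s l τ := by
  classical
  have hcard : Fintype.card ((j : Fin m) × Fin (cap j)) = ∑ j, cap j := by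
    simp [Fintype.card_sigma]
  haveI hne : Nonempty ((j : Fin m) × Fin (cap j)) := ⟨⟨⟨0, hm⟩, ⟨0, hcap _⟩⟩⟩
  obtain ⟨Ω, fΩ, w, A, hw0, hw1, hnd, hmain⟩ := hC
  have hp : ∀ x : N, ∃ t : (j : Fin m) × Fin (cap j), ∀ t' : (j : Fin m) × Fin (cap j),
      dist x (s t.1) ≤ dist x (s t'.1) := by
    intro x
    obtain ⟨t, -, ht⟩ := Finset.exists_min_image (Finset.univ : Finset ((j : Fin m) × Fin (cap j)))
      (fun t => dist x (s t.1)) Finset.univ_nonempty
    exact ⟨t, fun t' => ht t' (Finset.mem_univ _)⟩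
  choose p hp using hp
  refine ⟨Ω, fΩ, w, fun ω x l => (A ω (p x) (l.map p)).1, hw0, hw1, ?_, ?_⟩
  · intro ω l hl j
    have := hnd ω (l.map p) (by rw [hcard]; simpa using hl)
    rw [assigned_eq cap p (A ω) l]
    exact copies_count m cap _ this j
  · intro l τ hlen hresp
    obtain ⟨τ', hnd', hmap⟩ := copies m cap τ hresp
    have hlen' : τ'.length = l.length := by
      rw [← hlen, ← hmap, List.length_map]
    obtain ⟨ho1, ho2⟩ := opt_cost cap s p hp l τ' hlen'
    rw [hmap] at ho1 ho2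
    have h1 := hmain (l.map p) τ' ⟨by rw [List.length_map, hlen'], hnd'⟩
    have hsum : ∑ ω, w ω * cost s l (assigned (fun x l => (A ω (p x) (l.map p)).1) l) ≤
        (l.map (fun x => dist x (s (p x).1))).sum +
          ∑ ω, w ω * stp (fun x l => dist (s x.1) (s (A ω x l).1)) (l.map p) := by
      calc ∑ ω, w ω * cost s l (assigned (fun x l => (A ω (p x) (l.map p)).1) l)
          ≤ ∑ ω, w ω * ((l.map (fun x => dist x (s (p x).1))).sum +
              stp (fun x l => dist (s x.1) (s (A ω x l).1)) (l.map p)) :=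
            Finset.sum_le_sum fun ω _ => mul_le_mul_of_nonneg_left
              (alg_cost cap s p (A ω) l) (hw0 ω)
        _ = _ := by
            simp only [mul_add]
            rw [Finset.sum_add_distrib, ← Finset.sum_mul, hw1, one_mul]
    have h3 : ∑ ω, w ω * stp (fun x l => dist (s x.1) (s (A ω x l).1)) (l.map p) ≤
        c * (2 * cost s l τ) :=
      h1.trans (mul_le_mul_of_nonneg_left ho1 hc)
    calc ∑ ω, w ω * cost s l (assigned (fun x l => (A ω (p x) (l.map p)).1) l)
        ≤ cost s l τ + c * (2 * cost s l τ) := by linarith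
      _ = (1 + 2 * c) * cost s l τ := by ring

/-- The parameter `β` is admissible for the sites: they have `β`-padded decompositions at all
scales, or they form a tree metric (four point condition), or they are isometric to a set in a
Euclidean space of dimension `n` with `√n ≤ β` or of any dimension with `√(1 + ln m) ≤ β`. -/
def Adb {m : ℕ} (D : Fin m → Fin m → ℝ) (β : ℝ) : Prop :=
  Pdd D β ∨
  (∀ i j k l, D i j + D k l ≤ max (D i k + D j l) (D i l + D j k)) ∨
  (∃ (n : ℕ) (f : Fin m → EuclideanSpace ℝ (Fin n)), (∀ i j, dist (f i) (f j) = D i j) ∧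
    (√n ≤ β ∨ √(1 + Real.log m) ≤ β))

theorem mono_tl {a b : ℝ} (ha : 1 ≤ a) (hab : a ≤ b) :
    a * (1 + Real.log a) ≤ b * (1 + Real.log b) := by
  have h1 : Real.log a ≤ Real.log b := Real.log_le_log (by linarith) hab
  have h2 : 0 ≤ Real.log a := Real.log_nonneg ha
  exact mul_le_mul hab (by linarith) (by linarith) (by linarith)

/-- The theorem for the copies, from the parts. -/
theorem cmpAll (h1 : RsProp) (h2 : FamQProp) (h3 : RanCProp) (h4 : CoreQProp) (h5 : PdCProp)
    (h6 : FourProp) (h7 : EuCProp) (h8 : JLProp) (h9 : MixProp) {T : Type} [Fintype T]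
    [DecidableEq T] {m : ℕ} (hm : 0 < m) (σ : T → Fin m) (D : Fin m → Fin m → ℝ) (hD : PM D)
    (β : ℝ) (hβ : 1 ≤ β) (hA : Adb D β) :
    Cmp D σ (280000000 * β * (1 + Real.log β) * (1 + Real.log m) *
      (1 + Real.log (1 + Real.log m)) ^ 2) := by
  haveI : Nonempty (Fin m) := ⟨⟨0, hm⟩⟩
  have hM1 : (1 : ℝ) ≤ (m : ℝ) := by exact_mod_cast hm
  set L : ℝ := Real.log m with hL
  have hL0 : 0 ≤ L := Real.log_nonneg hM1
  have hu0 : 0 ≤ Real.log (1 + L) := Real.log_nonneg (by linarith)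
  set u : ℝ := Real.log (1 + L) with hu
  have hlb : 0 ≤ Real.log β := Real.log_nonneg hβ
  have hU : 0 ≤ (1 + u) ^ 2 := by positivity
  -- the general bound
  have gen : ∀ (D' : Fin m → Fin m → ℝ) (b g K : ℝ), PM D' → 1 ≤ b → 8 ≤ g → Crd D' b g →
      b * (228 + 62 * Real.log b + (253 + 24 * Real.log (g / 8)) * L) ≤ K →
      Cmp D' σ (5152 / 3 * ((1 + u) ^ 2 * K)) := by
    intro D' b g K hD' hb hg hC hK
    have e1 := cmp_of_crd h1 h2 h3 h4 σ hD' hb hg hC
    rw [Fintype.card_fin] at e1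
    refine cmp_mono hD' ?_ e1
    have e2 := mul_le_mul_of_nonneg_left hK hU
    calc 322 * (1 + u) ^ 2 * (16 / 3 * (b * (228 + 62 * Real.log b +
          (253 + 24 * Real.log (g / 8)) * L)))
        = 5152 / 3 * ((1 + u) ^ 2 * (b * (228 + 62 * Real.log b +
          (253 + 24 * Real.log (g / 8)) * L))) := by ring
      _ ≤ _ := by linarith
  have pad : ∀ (D' : Fin m → Fin m → ℝ) (b : ℝ), PM D' → 1 ≤ b → Pdd D' b →
      Cmp D' σ (5152 / 3 * ((1 + u) ^ 2 * (6410 * (b * (1 + Real.log b) * (1 + L))))) := by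
    intro D' b hD' hb hP
    refine gen D' (16 * b) (8 * b) _ hD' (by linarith) (by linarith)
      (h5 (Fin m) D' b hD' hb hP) ?_
    exact num_pad hb hL0
  have euc : ∀ (n : ℕ) (f : Fin m → EuclideanSpace ℝ (Fin (n + 1))),
      Cmp (fun i j => dist (f i) (f j)) σ (5152 / 3 * ((1 + u) ^ 2 *
        (3290 * (√(n + 1) * (1 + Real.log (√(n + 1))) * (1 + L))))) := by
    intro n f
    have hD' : PM (fun i j => dist (f i) (f j)) := ⟨fun x => dist_self _,
      fun x y => dist_comm _ _, fun x y z => dist_triangle _ _ _⟩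
    have hn1 : (1 : ℝ) ≤ (n : ℝ) + 1 := by
      have := Nat.cast_nonneg (α := ℝ) n
      linarith
    have ht : 1 ≤ √((n : ℝ) + 1) := by
      rw [Real.one_le_sqrt]
      exact hn1
    have ht2 : √((n : ℝ) + 1) ^ 2 = (n : ℝ) + 1 := Real.sq_sqrt (by linarith)
    refine gen _ (9 * √(n + 1)) (32 * (n + 1)) _ hD' (by linarith) (by linarith)
      (h7 (Fin m) n f) ?_
    have e1 := num_euc ht hL0
    rw [ht2] at e1
    exact e1
  have hX0 : 0 ≤ (1 + u) ^ 2 * (β * (1 + Real.log β) * (1 + L)) := by positivity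
  rcases hA with hP | h4p | ⟨n, f, hf, hn⟩
  · refine cmp_mono hD ?_ (pad D β hD hβ hP)
    calc 5152 / 3 * ((1 + u) ^ 2 * (6410 * (β * (1 + Real.log β) * (1 + L))))
        = 5152 / 3 * 6410 * ((1 + u) ^ 2 * (β * (1 + Real.log β) * (1 + L))) := by ring
      _ ≤ 280000000 * ((1 + u) ^ 2 * (β * (1 + Real.log β) * (1 + L))) :=
          mul_le_mul_of_nonneg_right (by norm_num) hX0
      _ = _ := by ring
  · refine cmp_mono hD ?_ (pad D 6 hD (by norm_num)
      (h6 (Fin m) D hD (fun x y z w => h4p x y z w)))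
    have e1 : Real.log 6 ≤ 2 := by
      rw [Real.log_le_iff_le_exp (by norm_num)]
      have e7 : Real.exp 2 = Real.exp 1 * Real.exp 1 := by
        rw [← Real.exp_add]
        norm_num
      have e8 := Real.exp_one_gt_d9
      rw [e7]
      nlinarith
    have hb1 : (1 : ℝ) ≤ β * (1 + Real.log β) := by nlinarith
    have hX1 : 0 ≤ (1 + u) ^ 2 * (1 + L) := by positivity
    have e2 : (1 + u) ^ 2 * (1 + L) ≤ (1 + u) ^ 2 * (β * (1 + Real.log β) * (1 + L)) := by
      have := mul_le_mul_of_nonneg_right hb1 hX1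
      nlinarith
    calc 5152 / 3 * ((1 + u) ^ 2 * (6410 * (6 * (1 + Real.log 6) * (1 + L))))
        = 5152 / 3 * 6410 * 6 * (1 + Real.log 6) * ((1 + u) ^ 2 * (1 + L)) := by ring
      _ ≤ 5152 / 3 * 6410 * 6 * (1 + 2) * ((1 + u) ^ 2 * (1 + L)) := by gcongr
      _ ≤ 280000000 * ((1 + u) ^ 2 * (1 + L)) :=
          mul_le_mul_of_nonneg_right (by norm_num) hX1
      _ ≤ 280000000 * ((1 + u) ^ 2 * (β * (1 + Real.log β) * (1 + L))) := by linarith
      _ = _ := by ring
  · rcases hn with hn | hn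
    · -- small dimension
      obtain ⟨n', f', hf', hn'⟩ : ∃ (n' : ℕ) (f' : Fin m → EuclideanSpace ℝ (Fin (n' + 1))),
          (∀ i j, dist (f' i) (f' j) = D i j) ∧ √((n' : ℝ) + 1) ≤ β := by
        rcases n with _ | n'
        · refine ⟨0, fun _ => 0, fun i j => ?_, ?_⟩
          · rw [← hf i j, Subsingleton.elim (f i) (f j), dist_self, dist_self]
          · simp [hβ]
        · exact ⟨n', f, hf, by push_cast at hn; exact hn⟩
      have e1 := euc n' f'
      have e2 : (fun i j => dist (f' i) (f' j)) = D := by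
        funext i j
        exact hf' i j
      rw [e2] at e1
      have ht : 1 ≤ √((n' : ℝ) + 1) := by
        rw [Real.one_le_sqrt]
        have := Nat.cast_nonneg (α := ℝ) n'
        linarith
      refine cmp_mono hD ?_ e1
      have e3 := mono_tl ht hn'
      have e4 : (1 + u) ^ 2 * (√((n' : ℝ) + 1) * (1 + Real.log (√((n' : ℝ) + 1))) * (1 + L)) ≤
          (1 + u) ^ 2 * (β * (1 + Real.log β) * (1 + L)) := by gcongr
      calc 5152 / 3 * ((1 + u) ^ 2 *
            (3290 * (√((n' : ℝ) + 1) * (1 + Real.log (√((n' : ℝ) + 1))) * (1 + L))))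
          = 5152 / 3 * 3290 * ((1 + u) ^ 2 *
            (√((n' : ℝ) + 1) * (1 + Real.log (√((n' : ℝ) + 1))) * (1 + L))) := by ring
        _ ≤ 5152 / 3 * 3290 * ((1 + u) ^ 2 * (β * (1 + Real.log β) * (1 + L))) :=
            mul_le_mul_of_nonneg_left e4 (by norm_num)
        _ ≤ 280000000 * ((1 + u) ^ 2 * (β * (1 + Real.log β) * (1 + L))) :=
            mul_le_mul_of_nonneg_right (by norm_num) hX0
        _ = _ := by ring
    · -- random projection
      obtain ⟨k, Ω, fΩ, w, F, hk, hw0, hw1, hF1, hF2⟩ := h8 (Fin m) n f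
      rw [Fintype.card_fin] at hk
      have ht : 1 ≤ √((k : ℝ) + 1) := by
        rw [Real.one_le_sqrt]
        have := Nat.cast_nonneg (α := ℝ) k
        linarith
      have hkb : √((k : ℝ) + 1) ≤ 4.6 * β := by
        have e1 : √((k : ℝ) + 1) ≤ √(21 * (1 + L)) := Real.sqrt_le_sqrt hk
        have e2 : √(21 * (1 + L)) = √21 * √(1 + L) := Real.sqrt_mul (by norm_num) _
        have e3 : √21 ≤ 4.6 := by
          rw [Real.sqrt_le_left (by norm_num)]
          norm_num
        have e4 : √21 * √(1 + L) ≤ 4.6 * β :=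
          mul_le_mul e3 hn (Real.sqrt_nonneg _) (by norm_num)
        linarith
      have e3 := mono_tl ht hkb
      have e5 : Real.log (4.6 * β) ≤ 1.6 + Real.log β := by
        rw [Real.log_mul (by norm_num) (by linarith)]
        have : Real.log 4.6 ≤ 1.6 := by
          rw [Real.log_le_iff_le_exp (by norm_num)]
          have e7 : Real.exp 1.6 = Real.exp 1 * Real.exp 0.6 := by
            rw [← Real.exp_add]
            norm_num
          have e8 := Real.exp_one_gt_d9
          have e9 : (1 + 0.6 + 0.6 ^ 2 / 2 : ℝ) ≤ Real.exp 0.6 :=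
            Real.quadratic_le_exp_of_nonneg (by norm_num)
          rw [e7]
          nlinarith
        linarith
      have e6 : √((k : ℝ) + 1) * (1 + Real.log (√((k : ℝ) + 1))) ≤
          11.96 * (β * (1 + Real.log β)) := by
        have : 4.6 * β * (1 + Real.log (4.6 * β)) ≤ 4.6 * β * (2.6 + Real.log β) := by
          apply mul_le_mul_of_nonneg_left _ (by linarith)
          linarith
        nlinarith [mul_nonneg (by linarith : (0 : ℝ) ≤ β) hlb]
      have key : ∀ ω, Cmp (fun i j => dist (F ω i) (F ω j)) σ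
          (5152 / 3 * ((1 + u) ^ 2 * (3290 * (11.96 * (β * (1 + Real.log β)) * (1 + L))))) := by
        intro ω
        have hD' : PM (fun i j => dist (F ω i) (F ω j)) := ⟨fun x => dist_self _,
          fun x y => dist_comm _ _, fun x y z => dist_triangle _ _ _⟩
        refine cmp_mono hD' ?_ (euc k (F ω))
        gcongr
      have e7 := h9 (Fin m) T D σ _ 4 Ω w (fun ω i j => dist (F ω i) (F ω j))
        (by positivity) hw0 hw1 (fun ω x y => by rw [← hf x y]; exact hF1 ω x y)
        (fun x y => by rw [← hf x y]; exact hF2 x y) key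
      refine cmp_mono hD ?_ e7
      calc 5152 / 3 * ((1 + u) ^ 2 * (3290 * (11.96 * (β * (1 + Real.log β)) * (1 + L)))) * 4
          = 5152 / 3 * 3290 * 11.96 * 4 * ((1 + u) ^ 2 * (β * (1 + Real.log β) * (1 + L))) := by
            ring
        _ ≤ 280000000 * ((1 + u) ^ 2 * (β * (1 + Real.log β) * (1 + L))) :=
            mul_le_mul_of_nonneg_right (by norm_num) hX0
        _ = _ := by ring

/-- The theorem, from the parts. -/
theorem finAll (h1 : RsProp) (h2 : FamQProp) (h3 : RanCProp) (h4 : CoreQProp) (h5 : PdCProp)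
    (h6 : FourProp) (h7 : EuCProp) (h8 : JLProp) (h9 : MixProp) {N : Type*} [MetricSpace N]
    (m : ℕ) (hm : 0 < m) (s : Fin m → N) (cap : Fin m → ℕ) (hcap : ∀ j, 0 < cap j) (β : ℝ)
    (hβ : 1 ≤ β) (hA : Adb (fun i j => dist (s i) (s j)) β) :
    ∃ (Ω : Type) (_ : Fintype Ω) (w : Ω → ℝ) (A : Ω → N → List N → Fin m),
      (∀ ω, 0 ≤ w ω) ∧ ∑ ω, w ω = 1 ∧
      (∀ ω l, l.length ≤ ∑ j, cap j → Respects cap (assigned (A ω) l)) ∧
      ∀ (l : List N) (τ : List (Fin m)), τ.length = l.length → Respects cap τ →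
        ∑ ω, w ω * cost s l (assigned (A ω) l) ≤
          600000000 * β * (1 + Real.log β) * (1 + Real.log m) *
            (1 + Real.log (1 + Real.log m)) ^ 2 * cost s l τ := by
  have hPM : PM (fun i j => dist (s i) (s j)) := ⟨fun x => dist_self _, fun x y => dist_comm _ _,
    fun x y z => dist_triangle _ _ _⟩
  have hM1 : (1 : ℝ) ≤ (m : ℝ) := by exact_mod_cast hm
  have hL : 0 ≤ Real.log (m : ℝ) := Real.log_nonneg hM1
  have hlb : 0 ≤ Real.log β := Real.log_nonneg hβ
  have hu : 0 ≤ Real.log (1 + Real.log (m : ℝ)) := Real.log_nonneg (by linarith)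
  have hC := cmpAll h1 h2 h3 h4 h5 h6 h7 h8 h9 hm
    (Sigma.fst : ((j : Fin m) × Fin (cap j)) → Fin m) (fun i j => dist (s i) (s j)) hPM β hβ hA
  set L := Real.log (m : ℝ)
  set u := Real.log (1 + L)
  set b := Real.log β
  obtain ⟨Ω, fΩ, w, A, h1, h2, h3, h4⟩ := finC m hm s cap hcap _ (by positivity) hC
  refine ⟨Ω, fΩ, w, A, h1, h2, h3, fun l τ ha hb => (h4 l τ ha hb).trans ?_⟩
  refine mul_le_mul_of_nonneg_right ?_ (FinPM.cost_nonneg s l τ)
  have hX : 1 ≤ β * (1 + b) * (1 + L) * (1 + u) ^ 2 := by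
    have e1 : 1 ≤ β * (1 + b) := by nlinarith
    have e2 : 1 ≤ β * (1 + b) * (1 + L) := by nlinarith
    have e3 : 1 ≤ (1 + u) ^ 2 := by nlinarith
    nlinarith
  nlinarith

end Pool.Agent.MP_a4c1f4_lc.Euc
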