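import Pool.Agent.Lib.MP_a4c1f4_lc.Euc.Spec
import Pool.Agent.Lib.MP_a4c1f4_lc.Pad.Ind

set_option linter.all false

/-!
Independence of the levels, for core decompositions.
-/

namespace Pool.Agent.MP_a4c1f4_lc.Euc

open Finset Pool.Agent.MP_a4c1f4_lc Pool.Agent.MP_a4c1f4_lc.Dbl Pool.Agent.MP_a4c1f4_lc.Pad

open Pool.Agent.MP_a4c1f4_lc.Pad.IndM

theorem indCP : IndCProp := by
  intro S _ D β γ ρ h Ω _ w pt M hD hβ hρ hO
  have hw : ∀ k, ∑ b, w k b = 1 := fun k => (hO k).w1
  have hw0 : ∀ k b, 0 ≤ w k b := fun k b => (hO k).w0 b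
  have hl := Real.log_two_lt_d9
  have hl0 : 0 < Real.log 2 := Real.log_pos (by norm_num)
  refine ⟨?_, sum1 w hw, ?_, ?_⟩
  · intro ω
    exact Finset.prod_nonneg (fun k _ => hw0 k _)
  · intro x y k k' A hA
    have hk4 : (0 : ℝ) < 4 ^ (k' : ℕ) * ρ := by positivity
    set t : ℝ := β * D x y / (4 ^ (k' : ℕ) * ρ) with ht
    have ht0 : 0 ≤ t := by
      have := hD.nonneg x y
      positivity
    have hgoal : (3 * A + 10) * β * D x y / (4 ^ (k' : ℕ) * ρ) = (3 * A + 10) * t := by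
      rw [ht]
      ring
    rw [hgoal]
    have hs : ∑ b, w k' b * ind (pt k' b x ≠ pt k' b y) ≤ 8 / 3 * t := (hO k').sep x y
    have hs0 : 0 ≤ ∑ b, w k' b * ind (pt k' b x ≠ pt k' b y) :=
      Finset.sum_nonneg (fun b _ => mul_nonneg (hw0 k' b) (ind_nonneg _))
    by_cases hkk : k = k'
    · subst hkk
      rw [exp1 w hw k (fun b => (A + Real.log 2 * (((pt k b x).1 : ℝ) + 1) +
          Real.log 2 * (((pt k b y).1 : ℝ) + 1)) * ind (pt k b x ≠ pt k b y))]
      have e1 : ∑ b, w k b * ((A + Real.log 2 * (((pt k b x).1 : ℝ) + 1) +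
          Real.log 2 * (((pt k b y).1 : ℝ) + 1)) * ind (pt k b x ≠ pt k b y)) =
          A * (∑ b, w k b * ind (pt k b x ≠ pt k b y)) +
          Real.log 2 * (∑ b, w k b * (ind (pt k b x ≠ pt k b y) * (((pt k b x).1 : ℝ) + 1))) +
          Real.log 2 * (∑ b, w k b * (ind (pt k b y ≠ pt k b x) * (((pt k b y).1 : ℝ) + 1))) := by
        rw [Finset.mul_sum, Finset.mul_sum, Finset.mul_sum, ← Finset.sum_add_distrib,
          ← Finset.sum_add_distrib]
        apply Finset.sum_congr rfl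
        intro b _
        have : ind (pt k b y ≠ pt k b x) = ind (pt k b x ≠ pt k b y) := by
          rw [ne_comm]
        rw [this]
        ring
      rw [e1]
      have h3 := (hO k).ixs x y
      have h4 := (hO k).ixs y x
      rw [hD.symm y x] at h4
      have h6 := mul_le_mul_of_nonneg_left hs hA
      have h7 := mul_le_mul_of_nonneg_left h3 hl0.le
      have h8 := mul_le_mul_of_nonneg_left h4 hl0.le
      have h9 : Real.log 2 * t ≤ 0.6931471808 * t := mul_le_mul_of_nonneg_right hl.le ht0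
      nlinarith
    · have e1 : ∀ ω : (k : Fin h) → Ω k, (∏ k, w k (ω k)) *
        ((A + Real.log 2 * (((pt k (ω k) x).1 : ℝ) + 1) +
          Real.log 2 * (((pt k (ω k) y).1 : ℝ) + 1)) *
            ind (pt k' (ω k') x ≠ pt k' (ω k') y)) =
        A * ((∏ k, w k (ω k)) * ind (pt k' (ω k') x ≠ pt k' (ω k') y)) +
        Real.log 2 * ((∏ k, w k (ω k)) *
          ((((pt k (ω k) x).1 : ℝ) + 1) * ind (pt k' (ω k') x ≠ pt k' (ω k') y))) +
        Real.log 2 * ((∏ k, w k (ω k)) *
          ((((pt k (ω k) y).1 : ℝ) + 1) * ind (pt k' (ω k') x ≠ pt k' (ω k') y))) := by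
        intro ω
        ring
      rw [Finset.sum_congr rfl (fun ω _ => e1 ω), Finset.sum_add_distrib, Finset.sum_add_distrib,
        ← Finset.mul_sum, ← Finset.mul_sum, ← Finset.mul_sum,
        exp1 w hw k' (fun b => ind (pt k' b x ≠ pt k' b y)),
        exp2 w hw k k' hkk (fun b => (((pt k b x).1 : ℝ) + 1))
          (fun b => ind (pt k' b x ≠ pt k' b y)),
        exp2 w hw k k' hkk (fun b => (((pt k b y).1 : ℝ) + 1))
          (fun b => ind (pt k' b x ≠ pt k' b y))]
      have h3 := (hO k).ix x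
      have h4 := (hO k).ix y
      have h3' : (∑ b, w k b * (((pt k b x).1 : ℝ) + 1)) *
          (∑ b, w k' b * ind (pt k' b x ≠ pt k' b y)) ≤ 8 / 3 * (8 / 3 * t) :=
        mul_le_mul h3 hs hs0 (by norm_num)
      have h4' : (∑ b, w k b * (((pt k b y).1 : ℝ) + 1)) *
          (∑ b, w k' b * ind (pt k' b x ≠ pt k' b y)) ≤ 8 / 3 * (8 / 3 * t) :=
        mul_le_mul h4 hs hs0 (by norm_num)
      have h6 := mul_le_mul_of_nonneg_left hs hA
      have h7 := mul_le_mul_of_nonneg_left h3' hl0.le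
      have h8 := mul_le_mul_of_nonneg_left h4' hl0.le
      have h9 : Real.log 2 * t ≤ 0.6931471808 * t := mul_le_mul_of_nonneg_right hl.le ht0
      nlinarith
  · intro x y k A hA
    rw [exp1 w hw k (fun b => (A + Real.log 2 * (((pt k b x).1 : ℝ) + 1) +
          Real.log 2 * (((pt k b y).1 : ℝ) + 1)))]
    have e1 : ∑ b, w k b * (A + Real.log 2 * (((pt k b x).1 : ℝ) + 1) +
          Real.log 2 * (((pt k b y).1 : ℝ) + 1)) =
        A * (∑ b, w k b) + Real.log 2 * (∑ b, w k b * (((pt k b x).1 : ℝ) + 1)) +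
          Real.log 2 * (∑ b, w k b * (((pt k b y).1 : ℝ) + 1)) := by
      rw [Finset.mul_sum, Finset.mul_sum, Finset.mul_sum, ← Finset.sum_add_distrib,
          ← Finset.sum_add_distrib]
      apply Finset.sum_congr rfl
      intro b _
      ring
    rw [e1, hw k]
    have h3 := (hO k).ix x
    have h4 := (hO k).ix y
    have h7 := mul_le_mul_of_nonneg_left h3 hl0.le
    have h8 := mul_le_mul_of_nonneg_left h4 hl0.le
    nlinarith

end Pool.Agent.MP_a4c1f4_lc.Euc
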