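import Pool.Agent.Lib.MP_a4c1f4_lc.Euc.Spec
import Pool.Agent.Lib.MP_a4c1f4_lc.Pad.Ind
import Pool.Agent.Lib.MP_a4c1f4_lc.Pad.Cnd

set_option linter.all false

/-!
Random projections.
-/

namespace Pool.Agent.MP_a4c1f4_lc.Euc

open Finset Pool.Agent.MP_a4c1f4_lc Pool.Agent.MP_a4c1f4_lc.Dbl Pool.Agent.MP_a4c1f4_lc.Pad

namespace JLM

/-- the logarithm of the base -/
theorem numq : 1 / 12 + Real.log (5 / 6) ≤ -0.0986 := by
  have h1 : Real.log (5 / 6) ≤ -0.18194 := by
    rw [Real.log_le_iff_le_exp (by norm_num), Real.exp_neg]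
    have h2 := Real.exp_bound' (x := 0.18194) (by norm_num) (by norm_num) (n := 3) (by norm_num)
    have h3 : (∑ m ∈ Finset.range 3, (0.18194 : ℝ) ^ m / (m.factorial : ℝ)) +
      0.18194 ^ 3 * ((3 : ℕ) + 1) / ((Nat.factorial 3 : ℕ) * (3 : ℕ)) ≤ 6 / 5 := by
      simp only [Finset.sum_range_succ, Finset.sum_range_zero, Nat.factorial]
      norm_num
    have h4 : Real.exp 0.18194 ≤ 6 / 5 := h2.trans h3
    rw [show (5 / 6 : ℝ) = (6 / 5)⁻¹ by norm_num]
    exact inv_anti₀ (Real.exp_pos _) h4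
  linarith

/-- The union bound. -/
theorem union_num {m : ℝ} (hm : 1 ≤ m) {K : ℕ} (hK : 20.3 * Real.log m + 7.1 ≤ (K : ℝ)) :
    m ^ 2 * (Real.exp ((K : ℝ) / 12) * (5 / 6) ^ K) ≤ 1 / 2 := by
  have hL : 0 ≤ Real.log m := Real.log_nonneg hm
  have hm0 : 0 < m := by linarith
  have e1 : m ^ 2 * (Real.exp ((K : ℝ) / 12) * (5 / 6) ^ K) =
      Real.exp (2 * Real.log m + (K : ℝ) * (1 / 12 + Real.log (5 / 6))) := by
    have e2 : m ^ 2 = Real.exp (2 * Real.log m) := by
      rw [mul_comm, Real.exp_mul, Real.exp_log hm0]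
      norm_cast
    have e3 : ((5 / 6 : ℝ)) ^ K = Real.exp ((K : ℝ) * Real.log (5 / 6)) := by
      rw [mul_comm, Real.exp_mul, Real.exp_log (by norm_num)]
      norm_cast
    rw [e2, e3, ← Real.exp_add, ← Real.exp_add]
    congr 1
    ring
  rw [e1]
  have h1 := numq
  have h2 : (K : ℝ) * (1 / 12 + Real.log (5 / 6)) ≤ (20.3 * Real.log m + 7.1) * (-0.0986) := by
    have h3 := mul_le_mul_of_nonneg_left h1 (by linarith : (0 : ℝ) ≤ (K : ℝ))
    nlinarith
  have h4 : 2 * Real.log m + (K : ℝ) * (1 / 12 + Real.log (5 / 6)) ≤ -Real.log 2 := by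
    have := Real.log_two_lt_d9
    nlinarith
  calc Real.exp (2 * Real.log m + (K : ℝ) * (1 / 12 + Real.log (5 / 6))) ≤
      Real.exp (-Real.log 2) := Real.exp_le_exp.mpr h4
    _ = 1 / 2 := by
      rw [Real.exp_neg, Real.exp_log (by norm_num)]
      norm_num

theorem sg_sub {I : Type} [Fintype I] (z z' : I → ℝ) (ε : I → Bool) :
    sg (fun i => z i - z' i) ε = sg z ε - sg z' ε := by
  unfold sg
  rw [← Finset.sum_sub_distrib]
  exact Finset.sum_congr rfl fun i _ => by ring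

end JLM

open JLM in
open Pool.Agent.MP_a4c1f4_lc.Pad.CndM in
open Pool.Agent.MP_a4c1f4_lc.Pad.IndM in
theorem jlP (hKh : KhProp) : JLProp := by
  classical
  intro S _ _ n φ
  have hm : (1 : ℝ) ≤ (Fintype.card S : ℝ) := by exact_mod_cast Fintype.card_pos (α := S)
  set m : ℝ := (Fintype.card S : ℝ) with hmdef
  set L : ℝ := Real.log m with hL
  have hL0 : 0 ≤ L := Real.log_nonneg hm
  obtain ⟨k, hk⟩ : ∃ k : ℕ, ⌈20.3 * L + 7.1⌉₊ = k + 1 := by
    have h1 : 0 < ⌈20.3 * L + 7.1⌉₊ := Nat.ceil_pos.mpr (by positivity)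
    exact ⟨⌈20.3 * L + 7.1⌉₊ - 1, by omega⟩
  have hk1 : 20.3 * L + 7.1 ≤ ((k + 1 : ℕ) : ℝ) := by
    rw [← hk]
    exact Nat.le_ceil _
  have hk2 : ((k + 1 : ℕ) : ℝ) < 20.3 * L + 7.1 + 1 := by
    rw [← hk]
    exact Nat.ceil_lt_add_one (by positivity)
  have hK0 : (0 : ℝ) < ((k + 1 : ℕ) : ℝ) := by positivity
  -- the product space
  let B : Type := Fin n → Bool
  let w1 : Fin (k + 1) → B → ℝ := fun _ _ => 1 / 2 ^ n
  have hav : ∀ (i : Fin (k + 1)) (F : B → ℝ), ∑ b, w1 i b * F b = Av F := by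
    intro i F
    unfold Av
    rw [Fintype.card_fin, Finset.sum_div]
    exact Finset.sum_congr rfl fun b _ => by
      change 1 / 2 ^ n * F b = F b / 2 ^ n
      ring
  have hw1 : ∀ i, ∑ b, w1 i b = 1 := by
    intro i
    change ∑ b : Fin n → Bool, (1 : ℝ) / 2 ^ n = 1
    rw [Finset.sum_const, Finset.card_univ, nsmul_eq_mul, Fintype.card_fun, Fintype.card_bool,
      Fintype.card_fin]
    push_cast
    field_simp
  let W : (Fin (k + 1) → B) → ℝ := fun ω => ∏ i, w1 i (ω i)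
  have hW0 : ∀ ω, 0 ≤ W ω := fun ω => Finset.prod_nonneg fun i _ => by
    change (0 : ℝ) ≤ 1 / 2 ^ n
    positivity
  have hW1 : ∑ ω, W ω = 1 := sum1 (Ω := fun _ : Fin (k + 1) => B) w1 hw1
  -- differences
  let z : S → S → Fin n → ℝ := fun x y i => φ x i - φ y i
  let s : S → S → ℝ := fun x y => ∑ i, z x y i ^ 2
  have hs : ∀ x y, s x y = dist (φ x) (φ y) ^ 2 := by
    intro x y
    rw [EuclideanSpace.dist_sq_eq]
    refine Finset.sum_congr rfl fun i _ => ?_
    rw [Real.dist_eq, sq_abs]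
  have hs0 : ∀ x y, 0 ≤ s x y := fun x y => Finset.sum_nonneg fun i _ => sq_nonneg _
  let Y : (Fin (k + 1) → B) → S → S → ℝ := fun ω x y => ∑ i, sg (z x y) (ω i) ^ 2
  have hY0 : ∀ ω x y, 0 ≤ Y ω x y := fun ω x y => Finset.sum_nonneg fun i _ => sq_nonneg _
  let f : (Fin (k + 1) → B) → S → EuclideanSpace ℝ (Fin (k + 1)) := fun ω x =>
    WithLp.toLp 2 (fun i => 2 / √((k + 1 : ℕ) : ℝ) * sg (fun j => φ x j) (ω i))
  have hf : ∀ ω x y, dist (f ω x) (f ω y) ^ 2 = 4 / ((k + 1 : ℕ) : ℝ) * Y ω x y := by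
    intro ω x y
    rw [EuclideanSpace.dist_sq_eq, Finset.mul_sum]
    refine Finset.sum_congr rfl fun i _ => ?_
    rw [Real.dist_eq, sq_abs]
    change (2 / √((k + 1 : ℕ) : ℝ) * sg (fun j => φ x j) (ω i) -
      2 / √((k + 1 : ℕ) : ℝ) * sg (fun j => φ y j) (ω i)) ^ 2 =
      4 / ((k + 1 : ℕ) : ℝ) * sg (fun j => φ x j - φ y j) (ω i) ^ 2
    rw [sg_sub, ← mul_sub, mul_pow, div_pow, Real.sq_sqrt hK0.le]
    norm_num
  -- the good event
  let G : (Fin (k + 1) → B) → Prop := fun ω => (∀ x : S, ¬ False) ∧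
    ∀ x y, ¬ (Y ω x y < ((k + 1 : ℕ) : ℝ) * s x y / 4)
  have hbadp : ∀ x y, ∑ ω, W ω * ind (Y ω x y < ((k + 1 : ℕ) : ℝ) * s x y / 4) ≤
      Real.exp (((k + 1 : ℕ) : ℝ) / 12) * (5 / 6) ^ (k + 1) := by
    intro x y
    rcases eq_or_lt_of_le (hs0 x y) with h0 | h0
    · have e1 : ∀ ω, W ω * ind (Y ω x y < ((k + 1 : ℕ) : ℝ) * s x y / 4) = 0 := by
        intro ω
        rw [ind_false, mul_zero]
        rw [← h0, mul_zero, zero_div, not_lt]
        exact hY0 ω x y
      rw [Finset.sum_congr rfl fun ω _ => e1 ω, Finset.sum_const_zero]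
      positivity
    · have e1 : ∀ ω, ind (Y ω x y < ((k + 1 : ℕ) : ℝ) * s x y / 4) ≤
          Real.exp (((k + 1 : ℕ) : ℝ) / 12) *
            ∏ i, Real.exp (-(sg (z x y) (ω i) ^ 2 / (3 * s x y))) := by
        intro ω
        rw [← Real.exp_sum, ← Real.exp_add]
        by_cases hb : Y ω x y < ((k + 1 : ℕ) : ℝ) * s x y / 4
        · rw [ind_true hb]
          apply Real.one_le_exp
          rw [Finset.sum_neg_distrib, ← Finset.sum_div]
          change 0 ≤ ((k + 1 : ℕ) : ℝ) / 12 + -(Y ω x y / (3 * s x y))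
          have h1 : Y ω x y / (3 * s x y) ≤ ((k + 1 : ℕ) : ℝ) / 12 := by
            rw [div_le_iff₀ (by positivity)]
            nlinarith
          linarith
        · rw [ind_false hb]
          exact (Real.exp_pos _).le
      calc ∑ ω, W ω * ind (Y ω x y < ((k + 1 : ℕ) : ℝ) * s x y / 4)
          ≤ ∑ ω, W ω * (Real.exp (((k + 1 : ℕ) : ℝ) / 12) *
            ∏ i, Real.exp (-(sg (z x y) (ω i) ^ 2 / (3 * s x y)))) :=
            Finset.sum_le_sum fun ω _ => mul_le_mul_of_nonneg_left (e1 ω) (hW0 ω)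
        _ = Real.exp (((k + 1 : ℕ) : ℝ) / 12) *
            ∑ ω, W ω * ∏ i, Real.exp (-(sg (z x y) (ω i) ^ 2 / (3 * s x y))) :=
            Eq.symm ((Finset.mul_sum _ _ _).trans (Finset.sum_congr rfl fun ω _ =>
              mul_left_comm _ _ _))
        _ = Real.exp (((k + 1 : ℕ) : ℝ) / 12) * ∏ i : Fin (k + 1),
            ∑ b, w1 i b * Real.exp (-(sg (z x y) b ^ 2 / (3 * s x y))) := by
            have := expG (Ω := fun _ : Fin (k + 1) => B) w1
              (fun _ b => Real.exp (-(sg (z x y) b ^ 2 / (3 * s x y))))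
            rw [← this]
        _ ≤ Real.exp (((k + 1 : ℕ) : ℝ) / 12) * (5 / 6) ^ (k + 1) := by
            refine mul_le_mul_of_nonneg_left ?_ (Real.exp_pos _).le
            have h5 : ∀ i : Fin (k + 1),
                ∑ b, w1 i b * Real.exp (-(sg (z x y) b ^ 2 / (3 * s x y))) ≤ 5 / 6 := by
              intro i
              rw [hav i]
              exact (hKh n (z x y)).2 h0
            calc ∏ i : Fin (k + 1), ∑ b, w1 i b * Real.exp (-(sg (z x y) b ^ 2 / (3 * s x y)))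
                ≤ ∏ i : Fin (k + 1), (5 / 6 : ℝ) := by
                  refine Finset.prod_le_prod (fun i _ => ?_) fun i _ => h5 i
                  refine Finset.sum_nonneg fun b _ => mul_nonneg ?_ (Real.exp_pos _).le
                  change (0 : ℝ) ≤ 1 / 2 ^ n
                  positivity
              _ = (5 / 6) ^ (k + 1) := by
                  rw [Finset.prod_const, Finset.card_univ, Fintype.card_fin]
  have hbad : ∑ ω, W ω * ind (¬ G ω) ≤ 1 / 2 := by
    have e1 : ∑ ω, W ω * ind (¬ G ω) ≤ ∑ ω, W ω * (∑ x : S, ind False +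
        ∑ x, ∑ y, ind (Y ω x y < ((k + 1 : ℕ) : ℝ) * s x y / 4)) := by
      apply Finset.sum_le_sum
      intro ω _
      exact mul_le_mul_of_nonneg_left (ind_union (Ω := Fin (k + 1) → B) _ _) (hW0 ω)
    have e2 : ∑ ω, W ω * (∑ x : S, ind False +
        ∑ x, ∑ y, ind (Y ω x y < ((k + 1 : ℕ) : ℝ) * s x y / 4)) =
        ∑ x, ∑ y, ∑ ω, W ω * ind (Y ω x y < ((k + 1 : ℕ) : ℝ) * s x y / 4) := by
      have e3 : ∑ x : S, ind False = 0 := Finset.sum_eq_zero fun x _ => ind_false (by simp)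
      simp only [e3, zero_add, Finset.mul_sum]
      rw [Finset.sum_comm]
      refine Finset.sum_congr rfl fun x _ => ?_
      rw [Finset.sum_comm]
    rw [e2] at e1
    refine e1.trans ?_
    calc ∑ x, ∑ y, ∑ ω, W ω * ind (Y ω x y < ((k + 1 : ℕ) : ℝ) * s x y / 4)
        ≤ ∑ x : S, ∑ y : S, Real.exp (((k + 1 : ℕ) : ℝ) / 12) * (5 / 6) ^ (k + 1) :=
          Finset.sum_le_sum fun x _ => Finset.sum_le_sum fun y _ => hbadp x y
      _ = m ^ 2 * (Real.exp (((k + 1 : ℕ) : ℝ) / 12) * (5 / 6) ^ (k + 1)) := by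
          simp only [Finset.sum_const, Finset.card_univ, nsmul_eq_mul, ← hmdef]
          ring
      _ ≤ 1 / 2 := union_num hm hk1
  set Pg : ℝ := ∑ ω, W ω * ind (G ω) with hPg
  have hPg2 : 1 / 2 ≤ Pg := by
    have : Pg = 1 - ∑ ω, W ω * ind (¬ G ω) := by
      rw [hPg, ← hW1, ← Finset.sum_sub_distrib]
      apply Finset.sum_congr rfl
      intro ω _
      rw [ind_compl (G ω)]
      ring
    linarith
  have hPg0 : 0 < Pg := by linarith
  refine ⟨k, {ω // G ω}, inferInstance, fun ω => W ω / Pg, fun ω => f ω, ?_, ?_, ?_, ?_, ?_⟩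
  · push_cast at hk2
    linarith
  · intro ω
    exact div_nonneg (hW0 ω.1) hPg0.le
  · rw [← Finset.sum_div, sum_sub G W, ← hPg, div_self hPg0.ne']
  · intro ω x y
    have h1 := ω.2.2 x y
    rw [not_lt] at h1
    have h2 : dist (φ x) (φ y) ^ 2 ≤ dist (f ω x) (f ω y) ^ 2 := by
      rw [hf, ← hs]
      have h3 : s x y = 4 / ((k + 1 : ℕ) : ℝ) * (((k + 1 : ℕ) : ℝ) * s x y / 4) := by
        field_simp
      calc s x y = 4 / ((k + 1 : ℕ) : ℝ) * (((k + 1 : ℕ) : ℝ) * s x y / 4) := h3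
        _ ≤ _ := mul_le_mul_of_nonneg_left h1 (by positivity)
    exact (pow_le_pow_iff_left₀ dist_nonneg dist_nonneg two_ne_zero).mp h2
  · intro x y
    have h2 := sum_sub_le G W (fun ω => dist (f ω x) (f ω y)) Pg hW0
      (fun ω => dist_nonneg) hPg2
    refine h2.trans ?_
    -- the second moment
    have hsec : ∑ ω, W ω * dist (f ω x) (f ω y) ^ 2 = 4 * s x y := by
      calc ∑ ω, W ω * dist (f ω x) (f ω y) ^ 2
          = 4 / ((k + 1 : ℕ) : ℝ) * ∑ i : Fin (k + 1), ∑ ω, W ω * sg (z x y) (ω i) ^ 2 := by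
            rw [Finset.mul_sum]
            simp only [hf, Y, Finset.mul_sum]
            rw [Finset.sum_comm]
            exact Finset.sum_congr rfl fun i _ => Finset.sum_congr rfl fun ω _ => by ring
        _ = 4 / ((k + 1 : ℕ) : ℝ) * ∑ i : Fin (k + 1), s x y := by
            congr 1
            refine Finset.sum_congr rfl fun i _ => ?_
            have h3 := exp1 (Ω := fun _ : Fin (k + 1) => B) w1 hw1 i
              (fun b => sg (z x y) b ^ 2)
            rw [hav i] at h3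
            exact h3.trans (hKh n (z x y)).1
        _ = 4 * s x y := by
            rw [Finset.sum_const, Finset.card_univ, Fintype.card_fin, nsmul_eq_mul]
            field_simp
    set a : ℝ := dist (φ x) (φ y) with ha
    have ha0 : 0 ≤ a := dist_nonneg
    rw [hs x y, ← ha] at hsec
    rcases eq_or_lt_of_le ha0 with h0 | h0
    · have h3 : ∀ ω, W ω * dist (f ω x) (f ω y) = 0 := by
        have h4 : ∀ ω ∈ (Finset.univ : Finset (Fin (k + 1) → B)),
            0 ≤ W ω * dist (f ω x) (f ω y) ^ 2 := fun ω _ => mul_nonneg (hW0 ω) (sq_nonneg _)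
        rw [← h0] at hsec
        have h5 := (Finset.sum_eq_zero_iff_of_nonneg h4).mp (by rw [hsec]; norm_num)
        intro ω
        have h6 := h5 ω (Finset.mem_univ _)
        rcases mul_eq_zero.mp h6 with h7 | h7
        · rw [h7, zero_mul]
        · rw [pow_eq_zero_iff two_ne_zero] at h7
          rw [h7, mul_zero]
      rw [Finset.sum_congr rfl fun ω _ => h3 ω, Finset.sum_const_zero, ← h0]
      norm_num
    · have h3 : ∑ ω, W ω * dist (f ω x) (f ω y) ≤
          ∑ ω, (1 / (4 * a) * (W ω * dist (f ω x) (f ω y) ^ 2) + a * W ω) := by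
        refine Finset.sum_le_sum fun ω _ => ?_
        have h4 : dist (f ω x) (f ω y) ≤ 1 / (4 * a) * dist (f ω x) (f ω y) ^ 2 + a := by
          have h5 : 1 / (4 * a) * dist (f ω x) (f ω y) ^ 2 + a - dist (f ω x) (f ω y) =
              1 / (4 * a) * (dist (f ω x) (f ω y) - 2 * a) ^ 2 := by
            field_simp
            ring
          have h6 : 0 ≤ 1 / (4 * a) * (dist (f ω x) (f ω y) - 2 * a) ^ 2 := by positivity
          linarith
        calc W ω * dist (f ω x) (f ω y)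
            ≤ W ω * (1 / (4 * a) * dist (f ω x) (f ω y) ^ 2 + a) :=
              mul_le_mul_of_nonneg_left h4 (hW0 ω)
          _ = _ := by ring
      rw [Finset.sum_add_distrib, ← Finset.mul_sum, ← Finset.mul_sum, hsec, hW1] at h3
      have h4 : 1 / (4 * a) * (4 * a ^ 2) + a * 1 = 2 * a := by
        field_simp
        ring
      linarith

end Pool.Agent.MP_a4c1f4_lc.Euc
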