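import Pool.Agent.Lib.MP_a4c1f4_lc.Euc.Spec

set_option linter.all false

/-!
Second and fourth moments of Rademacher sums.
-/

namespace Pool.Agent.MP_a4c1f4_lc.Euc

open Finset

namespace KhM

theorem av_add {I : Type} [Fintype I] [DecidableEq I] (F G : (I → Bool) → ℝ) :
    Av (fun ε => F ε + G ε) = Av F + Av G := by
  unfold Av
  rw [Finset.sum_add_distrib, add_div]

theorem av_mul {I : Type} [Fintype I] [DecidableEq I] (a : ℝ) (F : (I → Bool) → ℝ) :
    Av (fun ε => a * F ε) = a * Av F := by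
  unfold Av
  rw [← Finset.mul_sum, mul_div_assoc]

theorem av_const {I : Type} [Fintype I] [DecidableEq I] (a : ℝ) :
    Av (fun _ : I → Bool => a) = a := by
  unfold Av
  rw [Finset.sum_const, Finset.card_univ, nsmul_eq_mul, Fintype.card_fun, Fintype.card_bool]
  push_cast
  field_simp

theorem av_mono {I : Type} [Fintype I] [DecidableEq I] {F G : (I → Bool) → ℝ}
    (h : ∀ ε, F ε ≤ G ε) : Av F ≤ Av G := by
  unfold Av
  exact div_le_div_of_nonneg_right (Finset.sum_le_sum fun ε _ => h ε) (by positivity)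

theorem av_succ {n : ℕ} (F : (Fin (n + 1) → Bool) → ℝ) :
    Av F = 1 / 2 * (Av (fun ε : Fin n → Bool => F (Fin.cons true ε)) +
      Av (fun ε : Fin n → Bool => F (Fin.cons false ε))) := by
  unfold Av
  rw [← (Fin.consEquiv (fun _ : Fin (n + 1) => Bool)).sum_comp, Fintype.sum_prod_type,
    Fintype.sum_bool, Fintype.card_fin, Fintype.card_fin, pow_succ]
  simp only [Fin.consEquiv, Equiv.coe_fn_mk]
  field_simp

theorem sg_cons {n : ℕ} (z : Fin (n + 1) → ℝ) (b : Bool) (ε : Fin n → Bool) :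
    sg z (Fin.cons b ε) = (if b then 1 else -1) * z 0 + sg (fun i => z i.succ) ε := by
  unfold sg
  rw [Fin.sum_univ_succ]
  simp only [Fin.cons_zero, Fin.cons_succ]

theorem second (n : ℕ) (z : Fin n → ℝ) : Av (fun ε => sg z ε ^ 2) = ∑ i, z i ^ 2 := by
  induction n with
  | zero =>
    simp [Av, sg]
  | succ n ih =>
    rw [av_succ, Fin.sum_univ_succ, ← ih (fun i => z i.succ), ← av_add]
    have e : (fun ε : Fin n → Bool => sg z (Fin.cons true ε) ^ 2 + sg z (Fin.cons false ε) ^ 2) =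
        fun ε => 2 * z 0 ^ 2 + 2 * sg (fun i => z i.succ) ε ^ 2 := by
      funext ε
      rw [sg_cons, sg_cons]
      simp only [if_true, Bool.false_eq_true, if_false]
      ring
    rw [e, av_add, av_const, av_mul]
    ring

theorem fourth (n : ℕ) (z : Fin n → ℝ) :
    Av (fun ε => sg z ε ^ 4) ≤ 3 * (∑ i, z i ^ 2) ^ 2 := by
  induction n with
  | zero =>
    simp [Av, sg]
  | succ n ih =>
    rw [av_succ, Fin.sum_univ_succ, ← av_add]
    have e : (fun ε : Fin n → Bool => sg z (Fin.cons true ε) ^ 4 + sg z (Fin.cons false ε) ^ 4) =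
        fun ε => 2 * z 0 ^ 4 + (12 * z 0 ^ 2 * sg (fun i => z i.succ) ε ^ 2 +
          2 * sg (fun i => z i.succ) ε ^ 4) := by
      funext ε
      rw [sg_cons, sg_cons]
      simp only [if_true, Bool.false_eq_true, if_false]
      ring
    rw [e, av_add, av_add, av_const, av_mul, av_mul, second]
    have h1 := ih (fun i => z i.succ)
    nlinarith [sq_nonneg (z 0 ^ 2)]

theorem exp_neg_le {y : ℝ} (hy : 0 ≤ y) : Real.exp (-y) ≤ 1 - y + y ^ 2 / 2 := by
  have h1 : 1 + y + y ^ 2 / 2 ≤ Real.exp y := Real.quadratic_le_exp_of_nonneg hy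
  have h2 : 0 < 1 - y + y ^ 2 / 2 := by nlinarith [sq_nonneg (y - 1)]
  have h3 : 1 ≤ (1 - y + y ^ 2 / 2) * Real.exp y := by
    have h4 := mul_le_mul_of_nonneg_left h1 h2.le
    have h5 : (1 - y + y ^ 2 / 2) * (1 + y + y ^ 2 / 2) = 1 + (y ^ 2) ^ 2 / 4 := by ring
    have h6 : 0 ≤ (y ^ 2) ^ 2 / 4 := by positivity
    linarith
  have h4 : Real.exp (-y) * Real.exp y = 1 := by
    rw [← Real.exp_add]
    simp
  have h5 : Real.exp (-y) * 1 ≤ Real.exp (-y) * ((1 - y + y ^ 2 / 2) * Real.exp y) :=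
    mul_le_mul_of_nonneg_left h3 (Real.exp_pos _).le
  calc Real.exp (-y) = Real.exp (-y) * 1 := by ring
    _ ≤ Real.exp (-y) * ((1 - y + y ^ 2 / 2) * Real.exp y) := h5
    _ = (1 - y + y ^ 2 / 2) * (Real.exp (-y) * Real.exp y) := by ring
    _ = _ := by rw [h4, mul_one]

end KhM

open KhM in
theorem khP : KhProp := by
  intro n z
  refine ⟨second n z, fun hs => ?_⟩
  set s := ∑ i, z i ^ 2 with hsdef
  have h1 : Av (fun ε => Real.exp (-(sg z ε ^ 2 / (3 * s)))) ≤
      Av (fun ε => 1 + ((-1 / (3 * s)) * sg z ε ^ 2 + (1 / (18 * s ^ 2)) * sg z ε ^ 4)) := by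
    refine av_mono fun ε => ?_
    have h2 : 0 ≤ sg z ε ^ 2 / (3 * s) := by positivity
    refine (exp_neg_le h2).trans (le_of_eq ?_)
    field_simp
    ring
  refine h1.trans ?_
  rw [av_add, av_add, av_const, av_mul, av_mul, second n z, ← hsdef]
  have h3 := fourth n z
  rw [← hsdef] at h3
  have h4 : 1 / (18 * s ^ 2) * Av (fun ε => sg z ε ^ 4) ≤ 1 / (18 * s ^ 2) * (3 * s ^ 2) :=
    mul_le_mul_of_nonneg_left h3 (by positivity)
  have h5 : 1 / (18 * s ^ 2) * (3 * s ^ 2) = 1 / 6 := by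
    field_simp
    norm_num
  have h6 : -1 / (3 * s) * s = -1 / 3 := by
    field_simp
  rw [h5] at h4
  rw [h6]
  linarith

end Pool.Agent.MP_a4c1f4_lc.Euc
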