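import Pool.Agent.Lib.MP_a4c1f4_lc.Euc.Spec

set_option linter.all false

/-!
Mixture of algorithms for random metrics.
-/

namespace Pool.Agent.MP_a4c1f4_lc.Euc

open Finset Pool.Agent.MP_a4c1f4_lc Pool.Agent.MP_a4c1f4_lc.Dbl Pool.Agent.MP_a4c1f4_lc.Pad

namespace MixM

theorem stp_mono {T : Type} {f g : T → List T → ℝ} (h : ∀ x l, f x l ≤ g x l) (l : List T) :
    stp f l ≤ stp g l := by
  induction l with
  | nil => exact le_rfl
  | cons x l ih =>
    simp only [stp]
    exact add_le_add ih (h x l)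

theorem acost_nil {T : Type} (c : T → T → ℝ) (τ : List T) : acost c [] τ = 0 := by
  simp [acost]

theorem acost_nil' {T : Type} (c : T → T → ℝ) (l : List T) : acost c l [] = 0 := by
  simp [acost]

theorem acost_cons {T : Type} (c : T → T → ℝ) (x : T) (l : List T) (t : T) (τ : List T) :
    acost c (x :: l) (t :: τ) = c x t + acost c l τ := by
  simp [acost]

theorem acost_avg {T Ω : Type} [Fintype Ω] (w : Ω → ℝ) (c : Ω → T → T → ℝ) (d : T → T → ℝ)
    (K : ℝ) (h : ∀ s t, ∑ ω, w ω * c ω s t ≤ K * d s t) (l τ : List T) :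
    ∑ ω, w ω * acost (c ω) l τ ≤ K * acost d l τ := by
  induction l generalizing τ with
  | nil => simp [acost_nil]
  | cons x l ih =>
    cases τ with
    | nil => simp [acost_nil']
    | cons t τ =>
      simp only [acost_cons, mul_add, Finset.sum_add_distrib]
      exact add_le_add (h x t) (ih τ)

end MixM

open MixM

theorem mixP : MixProp := by
  intro S T _ D σ c K Ω fΩ w Dm hc hw0 hw1 hle hav hC
  choose Ω' fΩ' w' A hw0' hw1' hnd hmain using hC
  letI : ∀ ω, Fintype (Ω' ω) := fΩ'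
  refine ⟨(ω : Ω) × Ω' ω, inferInstance, fun p => w p.1 * w' p.1 p.2, fun p => A p.1 p.2,
    fun p => mul_nonneg (hw0 _) (hw0' _ _), ?_, fun p l hl => hnd p.1 p.2 l hl, ?_⟩
  · rw [Fintype.sum_sigma]
    simp only [← Finset.mul_sum, hw1', mul_one]
    exact hw1
  · intro l τ hl
    rw [Fintype.sum_sigma]
    have e1 : ∀ ω, ∑ ω' : Ω' ω, w ω * w' ω ω' *
        stp (fun x l => D (σ x) (σ (A ω ω' x l))) l ≤
        w ω * (c * acost (fun s t => Dm ω (σ s) (σ t)) l τ) := by
      intro ω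
      calc ∑ ω' : Ω' ω, w ω * w' ω ω' * stp (fun x l => D (σ x) (σ (A ω ω' x l))) l
          ≤ ∑ ω' : Ω' ω, w ω * (w' ω ω' * stp (fun x l => Dm ω (σ x) (σ (A ω ω' x l))) l) := by
            refine Finset.sum_le_sum fun ω' _ => ?_
            rw [mul_assoc]
            refine mul_le_mul_of_nonneg_left (mul_le_mul_of_nonneg_left ?_ (hw0' ω ω')) (hw0 ω)
            exact stp_mono (fun x l => hle ω _ _) l
        _ = w ω * ∑ ω' : Ω' ω, w' ω ω' * stp (fun x l => Dm ω (σ x) (σ (A ω ω' x l))) l := by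
            rw [Finset.mul_sum]
        _ ≤ _ := mul_le_mul_of_nonneg_left (hmain ω l τ hl) (hw0 ω)
    calc ∑ ω, ∑ ω' : Ω' ω, w ω * w' ω ω' * stp (fun x l => D (σ x) (σ (A ω ω' x l))) l
        ≤ ∑ ω, w ω * (c * acost (fun s t => Dm ω (σ s) (σ t)) l τ) :=
          Finset.sum_le_sum fun ω _ => e1 ω
      _ = c * ∑ ω, w ω * acost (fun s t => Dm ω (σ s) (σ t)) l τ := by
          rw [Finset.mul_sum]
          exact Finset.sum_congr rfl fun ω _ => by ring
      _ ≤ c * (K * acost (fun s t => D (σ s) (σ t)) l τ) :=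
          mul_le_mul_of_nonneg_left (acost_avg w (fun ω s t => Dm ω (σ s) (σ t)) _ K
            (fun s t => hav _ _) l τ) hc
      _ = c * K * acost (fun s t => D (σ s) (σ t)) l τ := by ring

end Pool.Agent.MP_a4c1f4_lc.Euc
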