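import Pool.Agent.Lib.MP_a4c1f4_lc.Euc.Spec
import Pool.Agent.Lib.MP_a4c1f4_lc.Pad.Num

set_option linter.all false

/-!
The numerical sum, for core decompositions.
-/

namespace Pool.Agent.MP_a4c1f4_lc.Euc

open Finset Pool.Agent.MP_a4c1f4_lc Pool.Agent.MP_a4c1f4_lc.Dbl Pool.Agent.MP_a4c1f4_lc.Pad

open Pool.Agent.MP_a4c1f4_lc.Pad.NumM in
theorem numCP : NumCProp := by
  intro h m ρ β g d α hm hρ hβ hg hd hα hsum
  have hm1 : (1 : ℝ) ≤ m := by exact_mod_cast hm
  set L := Real.log m with hL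
  have hL0 : 0 ≤ L := Real.log_nonneg hm1
  set lb := Real.log β with hlb
  have hlb0 : 0 ≤ lb := Real.log_nonneg hβ
  set c := 6 * β * (m : ℝ) ^ 2 with hc
  have hc1 : 1 ≤ c := by
    rw [hc]
    have h1 : (1 : ℝ) ≤ (m : ℝ) ^ 2 := one_le_pow₀ hm1
    nlinarith
  have hβ0 : 0 < β := by linarith
  have hcd : ∀ i : ℕ, (4 ^ i * ρ < 6 * β * (m : ℝ) ^ 2 * d) = ((4 : ℝ) ^ i * ρ < c * d) := by
    intro i; rw [hc]
  -- termwise bound
  have hterm : ∀ k ∈ range h, 4 ^ (k + 1) * ρ * min (6 + α k)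
      (∑ i ∈ Finset.Ico k h, ind (4 ^ i * ρ < 6 * β * (m : ℝ) ^ 2 * d) *
        ((3 * (2 + α k) + 10) * β * d / (4 ^ i * ρ))) ≤
      4 * (6 + 2 * L) * (if (4 : ℝ) ^ k * ρ < d then (4 : ℝ) ^ k * ρ else 0) +
      (if d ≤ (4 : ℝ) ^ k * ρ ∧ (4 : ℝ) ^ k * ρ < c * d then
        16 / 3 * (16 + 3 * α k) * β * d else 0) := by
    intro k _
    have hak := hα k
    have ha0 : 0 < (4 : ℝ) ^ k * ρ := by positivity
    have h4 : (4 : ℝ) ^ (k + 1) * ρ = 4 * ((4 : ℝ) ^ k * ρ) := by rw [pow_succ]; ring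
    rw [h4]
    by_cases h1 : (4 : ℝ) ^ k * ρ < d
    · rw [if_pos h1, if_neg (by intro h2; linarith [h2.1]), add_zero]
      calc 4 * ((4 : ℝ) ^ k * ρ) * min (6 + α k) _ ≤ 4 * ((4 : ℝ) ^ k * ρ) * (6 + α k) :=
            mul_le_mul_of_nonneg_left (min_le_left _ _) (by positivity)
        _ ≤ 4 * ((4 : ℝ) ^ k * ρ) * (6 + 2 * L) :=
            mul_le_mul_of_nonneg_left (by linarith [hak.2]) (by positivity)
        _ = 4 * (6 + 2 * L) * ((4 : ℝ) ^ k * ρ) := by ring
    · rw [if_neg h1, mul_zero, zero_add]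
      have h1' : d ≤ (4 : ℝ) ^ k * ρ := not_lt.1 h1
      by_cases h2 : (4 : ℝ) ^ k * ρ < c * d
      · rw [if_pos ⟨h1', h2⟩]
        have hK0 : 0 ≤ (3 * (2 + α k) + 10) * β * d := by
          have := hak.1
          positivity
        have h3 : ∑ i ∈ Finset.Ico k h, ind (4 ^ i * ρ < 6 * β * (m : ℝ) ^ 2 * d) *
            ((3 * (2 + α k) + 10) * β * d / (4 ^ i * ρ)) ≤
            (3 * (2 + α k) + 10) * β * d * (4 / 3 * (1 / ((4 : ℝ) ^ k * ρ))) := by
          calc _ ≤ ∑ i ∈ Finset.Ico k h, (3 * (2 + α k) + 10) * β * d *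
                (1 / ((4 : ℝ) ^ i * ρ)) := by
                apply sum_le_sum
                intro i _
                have h5 : (3 * (2 + α k) + 10) * β * d / (4 ^ i * ρ) =
                    (3 * (2 + α k) + 10) * β * d * (1 / ((4 : ℝ) ^ i * ρ)) := by ring
                rw [h5]
                have h6 : 0 ≤ (3 * (2 + α k) + 10) * β * d * (1 / ((4 : ℝ) ^ i * ρ)) :=
                  mul_nonneg hK0 (by positivity)
                unfold ind
                split_ifs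
                · rw [one_mul]
                · rw [zero_mul]; exact h6
            _ = (3 * (2 + α k) + 10) * β * d * ∑ i ∈ Finset.Ico k h, 1 / ((4 : ℝ) ^ i * ρ) := by
                rw [mul_sum]
            _ ≤ _ := mul_le_mul_of_nonneg_left (inv ρ hρ k h) hK0
        calc 4 * ((4 : ℝ) ^ k * ρ) * min (6 + α k) _ ≤ 4 * ((4 : ℝ) ^ k * ρ) *
              ((3 * (2 + α k) + 10) * β * d * (4 / 3 * (1 / ((4 : ℝ) ^ k * ρ)))) :=
              mul_le_mul_of_nonneg_left ((min_le_right _ _).trans h3) (by positivity)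
          _ = 16 / 3 * (16 + 3 * α k) * β * d := by
              have h7 : (4 : ℝ) ^ k * ρ ≠ 0 := ha0.ne'
              have h8 : 4 * ((4 : ℝ) ^ k * ρ) *
                ((3 * (2 + α k) + 10) * β * d * (4 / 3 * (1 / ((4 : ℝ) ^ k * ρ)))) =
                16 / 3 * (3 * (2 + α k) + 10) * β * d *
                  (((4 : ℝ) ^ k * ρ) * (1 / ((4 : ℝ) ^ k * ρ))) := by ring
              rw [h8, mul_one_div_cancel h7]
              ring
      · rw [if_neg (by intro h3; exact h2 h3.2)]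
        have h3 : ∑ i ∈ Finset.Ico k h, ind (4 ^ i * ρ < 6 * β * (m : ℝ) ^ 2 * d) *
            ((3 * (2 + α k) + 10) * β * d / (4 ^ i * ρ)) = 0 := by
          apply sum_eq_zero
          intro i hi
          have hki : k ≤ i := (Finset.mem_Ico.1 hi).1
          have h4' : (4 : ℝ) ^ k * ρ ≤ (4 : ℝ) ^ i * ρ :=
            mul_le_mul_of_nonneg_right (pow_le_pow_right₀ (by norm_num) hki) hρ.le
          have h5 : ¬ (4 ^ i * ρ < 6 * β * (m : ℝ) ^ 2 * d) := by
            rw [hcd i]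
            intro h6
            exact h2 (lt_of_le_of_lt h4' h6)
          unfold ind
          rw [if_neg h5, zero_mul]
        rw [h3]
        have h5 : min (6 + α k) 0 = 0 := min_eq_right (by linarith [hak.1])
        rw [h5, mul_zero]
  refine (sum_le_sum hterm).trans ?_
  rw [sum_add_distrib, ← mul_sum]
  have hA := geoF ρ d hρ hd h
  have hA' : 4 * (6 + 2 * L) * ∑ k ∈ range h,
      (if (4 : ℝ) ^ k * ρ < d then (4 : ℝ) ^ k * ρ else 0) ≤ 4 * (6 + 2 * L) * (4 / 3 * d) :=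
    mul_le_mul_of_nonneg_left hA (by positivity)
  set S := (range h).filter (fun k => d ≤ (4 : ℝ) ^ k * ρ ∧ (4 : ℝ) ^ k * ρ < c * d) with hS
  have hsf : ∑ k ∈ range h, (if d ≤ (4 : ℝ) ^ k * ρ ∧ (4 : ℝ) ^ k * ρ < c * d then
      16 / 3 * (16 + 3 * α k) * β * d else 0) = ∑ k ∈ S, 16 / 3 * (16 + 3 * α k) * β * d := by
    rw [hS, sum_filter]
  rw [hsf]
  have hB : ∑ k ∈ S, 16 / 3 * (16 + 3 * α k) * β * d =
      β * d * (256 / 3 * (S.card : ℝ) + 16 * ∑ k ∈ S, α k) := by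
    have h1 : ∀ k ∈ S, 16 / 3 * (16 + 3 * α k) * β * d =
        β * d * (256 / 3) + β * d * 16 * α k := fun k _ => by ring
    rw [sum_congr rfl h1, sum_add_distrib, sum_const, nsmul_eq_mul, ← mul_sum]
    ring
  rw [hB]
  have hαS : ∑ k ∈ S, α k ≤ 2 * (3.7 + 0.73 * g) * L := by
    refine le_trans ?_ hsum
    exact sum_le_sum_of_subset_of_nonneg (filter_subset _ _) fun k _ _ => (hα k).1
  have hcount := count ρ d c hρ hc1 h
  rw [← hS] at hcount
  have hl4 : Real.log 4 = 2 * Real.log 2 := by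
    have : (4 : ℝ) = 2 ^ 2 := by norm_num
    rw [this, Real.log_pow]; norm_num
  have hl2 := Real.log_two_gt_d9
  have hlogc : Real.log c = Real.log 6 + lb + 2 * L := by
    rw [hc, Real.log_mul (by positivity) (by positivity), Real.log_mul (by norm_num) hβ0.ne',
      Real.log_pow]
    push_cast
    ring
  have hl6 : 27 * Real.log 6 ≤ 35 * Real.log 4 := by
    have h1 : Real.log ((6 : ℝ) ^ 27) ≤ Real.log ((4 : ℝ) ^ 35) :=
      Real.log_le_log (by norm_num) (by norm_num)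
    rw [Real.log_pow, Real.log_pow] at h1
    push_cast at h1
    exact h1
  have hcardS : (S.card : ℝ) ≤ 2.2965 + 0.722 * lb + 1.4434 * L := by
    have hl4pos : 1.3862 < Real.log 4 := by rw [hl4]; linarith
    have h1 : (S.card : ℝ) * Real.log 4 ≤ (2.2965 + 0.722 * lb + 1.4434 * L) * Real.log 4 := by
      rw [hlogc] at hcount
      nlinarith [mul_nonneg hlb0 (sub_nonneg.2 hl4pos.le), mul_nonneg hL0 (sub_nonneg.2 hl4pos.le)]
    exact le_of_mul_le_mul_right h1 (by linarith)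
  have hLlb : 0 ≤ g * L := mul_nonneg hg hL0
  have hin : 256 / 3 * (S.card : ℝ) + 16 * ∑ k ∈ S, α k ≤
      256 / 3 * (2.2965 + 0.722 * lb + 1.4434 * L) + 16 * (2 * (3.7 + 0.73 * g) * L) := by
    linarith
  have hBle : β * d * (256 / 3 * (S.card : ℝ) + 16 * ∑ k ∈ S, α k) ≤
      β * d * (256 / 3 * (2.2965 + 0.722 * lb + 1.4434 * L) + 16 * (2 * (3.7 + 0.73 * g) * L)) :=
    mul_le_mul_of_nonneg_left hin (by positivity)
  have hA2 : 4 * (6 + 2 * L) * (4 / 3 * d) ≤ β * d * (32 + 32 / 3 * L) := by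
    have h1 : 4 * (6 + 2 * L) * (4 / 3 * d) = d * (32 + 32 / 3 * L) := by ring
    have h2 : d * (32 + 32 / 3 * L) ≤ β * (d * (32 + 32 / 3 * L)) :=
      le_mul_of_one_le_left (by positivity) hβ
    linarith
  have hfin : β * d * (32 + 32 / 3 * L) +
      β * d * (256 / 3 * (2.2965 + 0.722 * lb + 1.4434 * L) + 16 * (2 * (3.7 + 0.73 * g) * L)) ≤
      β * (228 + 62 * lb + (253 + 24 * g) * L) * d := by
    have h1 : β * d * (32 + 32 / 3 * L) +
      β * d * (256 / 3 * (2.2965 + 0.722 * lb + 1.4434 * L) + 16 * (2 * (3.7 + 0.73 * g) * L)) =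
      β * d * ((32 + 32 / 3 * L) +
        (256 / 3 * (2.2965 + 0.722 * lb + 1.4434 * L) + 16 * (2 * (3.7 + 0.73 * g) * L))) := by ring
    have h2 : β * (228 + 62 * lb + (253 + 24 * g) * L) * d =
      β * d * (228 + 62 * lb + (253 + 24 * g) * L) := by ring
    rw [h1, h2]
    apply mul_le_mul_of_nonneg_left _ (by positivity)
    nlinarith
  linarith

end Pool.Agent.MP_a4c1f4_lc.Euc
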