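import Pool.Agent.Lib.MP_a4c1f4_lc.Euc.Spec

set_option linter.all false

/-!
One round of ball carving, with finitely many outcomes.
-/

namespace Pool.Agent.MP_a4c1f4_lc.Euc

open Finset MeasureTheory Pool.Agent.MP_a4c1f4_lc Pool.Agent.MP_a4c1f4_lc.Dbl
open Pool.Agent.MP_a4c1f4_lc.Pad

namespace PatM

/-- The volume of a centred ball as a real number. -/
noncomputable def V (n : ℕ) (r : ℝ) : ℝ :=
  (volume : Measure (EuclideanSpace ℝ (Fin (n + 1)))).real (Metric.closedBall 0 r)

theorem V_center {n : ℕ} (x : EuclideanSpace ℝ (Fin (n + 1))) (r : ℝ) :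
    (volume : Measure (EuclideanSpace ℝ (Fin (n + 1)))).real (Metric.closedBall x r) = V n r := by
  unfold V
  rw [measureReal_def, measureReal_def, Measure.addHaar_closedBall_center]

theorem V_pow {n : ℕ} {r : ℝ} (hr : 0 ≤ r) : V n r = r ^ (n + 1) * V n 1 := by
  unfold V
  rw [Measure.addHaar_real_closedBall' volume 0 hr, finrank_euclideanSpace, Fintype.card_fin]

theorem V_one_pos (n : ℕ) : 0 < V n 1 := by
  unfold V
  exact ENNReal.toReal_pos (Metric.measure_closedBall_pos volume 0 one_pos).ne'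
    measure_closedBall_lt_top.ne

theorem V_pos {n : ℕ} {r : ℝ} (hr : 0 < r) : 0 < V n r := by
  rw [V_pow hr.le]
  have := V_one_pos n
  positivity

theorem V_mono {n : ℕ} {r r' : ℝ} (hr : 0 ≤ r) (h : r ≤ r') : V n r ≤ V n r' := by
  rw [V_pow hr, V_pow (hr.trans h)]
  exact mul_le_mul_of_nonneg_right (pow_le_pow_left₀ hr h _) (V_one_pos n).le

/-- The difference of two balls. -/
theorem dif (h1 : Vol1Prop) (h2 : Vol2Prop) {n : ℕ} (x y : EuclideanSpace ℝ (Fin (n + 1)))
    {r : ℝ} (hr : 0 < r) :
    (volume : Measure (EuclideanSpace ℝ (Fin (n + 1)))).real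
      (Metric.closedBall x r \ Metric.closedBall y r) ≤
      √((n : ℝ) + 1) / r * dist x y * V n r := by
  have e1 : Metric.closedBall x r \ Metric.closedBall y r =
      (fun c => c + (-x)) ⁻¹' (Metric.closedBall 0 r \ Metric.closedBall (y - x) r) := by
    ext c
    simp only [Set.mem_diff, Metric.mem_closedBall, Set.mem_preimage]
    have a1 : dist (c + -x) 0 = dist c x := by
      rw [dist_zero_right, dist_eq_norm, sub_eq_add_neg]
    have a2 : dist (c + -x) (y - x) = dist c y := by
      rw [dist_eq_norm, dist_eq_norm]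
      congr 1
      abel
    rw [a1, a2]
  have e2 : volume (Metric.closedBall x r \ Metric.closedBall y r) =
      volume (Metric.closedBall (0 : EuclideanSpace ℝ (Fin (n + 1))) r \
        Metric.closedBall (y - x) r) := by
    rw [e1, measure_preimage_add_right]
  have e3 := (h1 n (y - x) r hr).trans (mul_le_mul' le_rfl (h2 n r hr))
  rw [← mul_assoc, ← ENNReal.ofReal_mul (norm_nonneg _)] at e3
  have hfin : volume (Metric.closedBall (0 : EuclideanSpace ℝ (Fin (n + 1))) r) ≠ ⊤ :=
    measure_closedBall_lt_top.ne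
  rw [measureReal_def, e2]
  have e4 := ENNReal.toReal_mono (ENNReal.mul_ne_top ENNReal.ofReal_ne_top hfin) e3
  rw [ENNReal.toReal_mul, ENNReal.toReal_ofReal (by positivity)] at e4
  refine e4.trans (le_of_eq ?_)
  have e5 : ‖y - x‖ = dist x y := by rw [dist_comm, dist_eq_norm]
  rw [e5]
  unfold V
  rw [measureReal_def]
  ring

end PatM

open PatM in
open Classical in
theorem patP (h1 : Vol1Prop) (h2 : Vol2Prop) : PatProp := by
  intro S _ _ n f R hR
  set d : ℝ := (n : ℝ) + 1 with hd
  have hd1 : 1 ≤ d := by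
    have := Nat.cast_nonneg (α := ℝ) n
    linarith
  have hd0 : 0 < d := by linarith
  set r0 : ℝ := R / (16 * d) with hr0
  have hr00 : 0 < r0 := by positivity
  have hr016 : r0 ≤ R / 16 := by
    rw [hr0]
    exact div_le_div_of_nonneg_left hR.le (by norm_num) (by linarith)
  have hr1 : 0 < R + r0 := by linarith
  have hr2 : 0 < R - r0 := by linarith
  -- the big ball
  obtain ⟨x0, _, hx0⟩ := Finset.exists_max_image (Finset.univ : Finset S) (fun x => ‖f x‖)
    Finset.univ_nonempty
  set b : ℝ := ‖f x0‖ + 2 * R with hb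
  have hb0 : 0 < b := by positivity
  have hsub : ∀ x r, r ≤ 2 * R → Metric.closedBall (f x) r ⊆ Metric.closedBall 0 b := by
    intro x r hr c hc
    rw [Metric.mem_closedBall] at hc ⊢
    have h3 := hx0 x (Finset.mem_univ _)
    have h4 := dist_triangle c (f x) 0
    rw [dist_zero_right (f x)] at h4
    linarith
  set μ : Measure (EuclideanSpace ℝ (Fin (n + 1))) :=
    volume.restrict (Metric.closedBall 0 b) with hμ
  haveI : IsFiniteMeasure μ := by
    rw [hμ]
    exact ⟨by rw [Measure.restrict_apply_univ]; exact measure_closedBall_lt_top⟩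
  have hμ0 : μ.real Set.univ = V n b := by
    rw [hμ, measureReal_def, Measure.restrict_apply_univ]
    rfl
  have hVb : 0 < V n b := V_pos hb0
  have hμs : ∀ A, MeasurableSet A → A ⊆ Metric.closedBall 0 b → μ.real A =
      (volume : Measure (EuclideanSpace ℝ (Fin (n + 1)))).real A := by
    intro A hA hA2
    rw [hμ, measureReal_def, Measure.restrict_apply hA, Set.inter_eq_left.mpr hA2]
    rfl
  -- the patterns
  let T : Type := S → Bool × Bool × Bool
  let pat : EuclideanSpace ℝ (Fin (n + 1)) → T := fun c x =>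
    (decide (dist (f x) c ≤ R + r0), decide (dist (f x) c ≤ R), decide (dist (f x) c ≤ R - r0))
  have hmc : ∀ x r, MeasurableSet {c | dist (f x) c ≤ r} := fun x r =>
    (isClosed_le (by fun_prop) (by fun_prop)).measurableSet
  have hmb : ∀ x r, Measurable (fun c => decide (dist (f x) c ≤ r)) := by
    intro x r
    apply measurable_to_bool
    convert hmc x r using 1
    ext c
    simp
  have hpat : Measurable pat := by
    apply measurable_pi_iff.mpr
    intro x
    exact (hmb x _).prodMk ((hmb x _).prodMk (hmb x _))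
  let Pp : T → S → Prop := fun ω x => ∃ c, pat c = ω ∧ dist (f x) c ≤ R + r0
  let P : T → S → Prop := fun ω x => ∃ c, pat c = ω ∧ dist (f x) c ≤ R
  let Pm : T → S → Prop := fun ω x => ∃ c, pat c = ω ∧ dist (f x) c ≤ R - r0
  have hPp : ∀ c x, Pp (pat c) x ↔ dist (f x) c ≤ R + r0 := by
    intro c x
    refine ⟨?_, fun h => ⟨c, rfl, h⟩⟩
    rintro ⟨c', hc', h⟩
    have h3 := congrArg Prod.fst (congrFun hc' x)
    have h4 : decide (dist (f x) c' ≤ R + r0) = decide (dist (f x) c ≤ R + r0) := h3
    rw [decide_eq_decide] at h4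
    exact h4.mp h
  have hP : ∀ c x, P (pat c) x ↔ dist (f x) c ≤ R := by
    intro c x
    refine ⟨?_, fun h => ⟨c, rfl, h⟩⟩
    rintro ⟨c', hc', h⟩
    have h3 := congrArg (fun q => q.2.1) (congrFun hc' x)
    have h4 : decide (dist (f x) c' ≤ R) = decide (dist (f x) c ≤ R) := h3
    rw [decide_eq_decide] at h4
    exact h4.mp h
  have hPm : ∀ c x, Pm (pat c) x ↔ dist (f x) c ≤ R - r0 := by
    intro c x
    refine ⟨?_, fun h => ⟨c, rfl, h⟩⟩
    rintro ⟨c', hc', h⟩
    have h3 := congrArg (fun q => q.2.2) (congrFun hc' x)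
    have h4 : decide (dist (f x) c' ≤ R - r0) = decide (dist (f x) c ≤ R - r0) := h3
    rw [decide_eq_decide] at h4
    exact h4.mp h
  let w : T → ℝ := fun ω => μ.real (pat ⁻¹' {ω}) / V n b
  have hw0 : ∀ ω, 0 ≤ w ω := fun ω => div_nonneg measureReal_nonneg hVb.le
  have hsum : ∀ Q : T → Prop, ∑ ω, w ω * ind (Q ω) = μ.real {c | Q (pat c)} / V n b := by
    intro Q
    have e1 : ∑ ω, w ω * ind (Q ω) = ∑ ω ∈ Finset.univ.filter Q, w ω := by
      rw [Finset.sum_filter]
      refine Finset.sum_congr rfl fun ω _ => ?_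
      by_cases hQ : Q ω
      · rw [ind_true hQ, if_pos hQ, mul_one]
      · rw [ind_false hQ, if_neg hQ, mul_zero]
    rw [e1]
    change ∑ ω ∈ Finset.univ.filter Q, μ.real (pat ⁻¹' {ω}) / V n b = _
    rw [← Finset.sum_div, sum_measureReal_preimage_singleton _ fun ω _ => hpat
      (measurableSet_singleton ω)]
    congr 2
    ext c
    simp
  have hev : ∀ Q : T → Prop, ∀ A, MeasurableSet A → A ⊆ Metric.closedBall 0 b →
      (∀ c, Q (pat c) ↔ c ∈ A) → ∑ ω, w ω * ind (Q ω) =
        (volume : Measure (EuclideanSpace ℝ (Fin (n + 1)))).real A / V n b := by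
    intro Q A hA hA2 hQ
    rw [hsum Q, ← hμs A hA hA2]
    congr 2
    ext c
    exact hQ c
  have hball : ∀ x r c, dist (f x) c ≤ r ↔ c ∈ Metric.closedBall (f x) r := by
    intro x r c
    rw [Metric.mem_closedBall, dist_comm]
  have hmB : ∀ (x : S) r, MeasurableSet (Metric.closedBall (f x) r) := fun x r =>
    Metric.isClosed_closedBall.measurableSet
  have hV12 : V n (R - r0) ≤ V n (R + r0) := V_mono hr2.le (by linarith)
  refine ⟨T, inferInstance, w, Pp, P, Pm, V n (R + r0) / V n b, ?_⟩
  refine ⟨hw0, ?_, div_pos (V_pos hr1) hVb, ?_, ?_, ?_, ?_, ?_, ?_, ?_, ?_⟩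
  · -- total
    have e1 := hsum (fun _ => True)
    simp only [ind_true trivial, mul_one, Set.setOf_true] at e1
    rw [e1, hμ0, div_self hVb.ne']
  · -- mp
    rintro ω x ⟨c, hc, h⟩
    exact ⟨c, hc, by linarith⟩
  · -- pp
    rintro ω x ⟨c, hc, h⟩
    exact ⟨c, hc, by linarith⟩
  · -- diam
    rintro ω x y ⟨c, rfl, h⟩ hy
    rw [hP] at hy
    have h3 := dist_triangle (f x) c (f y)
    rw [dist_comm c (f y)] at h3
    change dist (f x) (f y) ≤ 2 * R
    linarith
  · -- mr
    rintro ω x y ⟨c, rfl, h⟩ hxy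
    rw [hP]
    have h3 := dist_triangle (f y) (f x) c
    rw [dist_comm (f y) (f x)] at h3
    change dist (f x) (f y) ≤ r0 at hxy
    linarith
  · -- pr
    rintro ω x y ⟨c, rfl, h⟩ hxy
    rw [hPp]
    have h3 := dist_triangle (f x) (f y) c
    change dist (f x) (f y) ≤ r0 at hxy
    linarith
  · -- hit
    intro x
    rw [hev (fun ω => Pp ω x) (Metric.closedBall (f x) (R + r0)) (hmB x _)
      (hsub x _ (by linarith)) (fun c => (hPp c x).trans (hball x _ c)), V_center]
  · -- rim
    intro x
    have hA2 : Metric.closedBall (f x) (R - r0) ⊆ Metric.closedBall (f x) (R + r0) :=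
      Metric.closedBall_subset_closedBall (by linarith)
    rw [hev (fun ω => Pp ω x ∧ ¬ Pm ω x)
      (Metric.closedBall (f x) (R + r0) \ Metric.closedBall (f x) (R - r0))
      ((hmB x _).diff (hmB x _))
      (Set.diff_subset.trans (hsub x _ (by linarith))) (fun c => by
        rw [hPp, hPm, Set.mem_diff, hball, hball])]
    rw [measureReal_diff hA2 (hmB x _) (measure_closedBall_lt_top.ne)]
    rw [V_center, V_center, V_pow hr1.le, V_pow hr2.le]
    have hq : 1 + (n + 1 : ℕ) * ((R - r0) / (R + r0) - 1) ≤ ((R - r0) / (R + r0)) ^ (n + 1) := by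
      have h3 := one_add_mul_le_pow (a := (R - r0) / (R + r0) - 1) (by
        have : 0 ≤ (R - r0) / (R + r0) := by positivity
        linarith) (n + 1)
      rw [add_sub_cancel] at h3
      exact h3
    have hq2 : 7 / 8 ≤ 1 + ((n + 1 : ℕ) : ℝ) * ((R - r0) / (R + r0) - 1) := by
      have h3 : (R - r0) / (R + r0) - 1 = -(2 * r0 / (R + r0)) := by
        field_simp
        ring
      have h4 : ((n + 1 : ℕ) : ℝ) = d := by
        push_cast
        rfl
      rw [h3, h4]
      have h5 : d * (2 * r0 / (R + r0)) ≤ 1 / 8 := by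
        rw [← mul_div_assoc, div_le_iff₀ hr1]
        have h6 : d * (2 * r0) = R / 8 := by
          rw [hr0]
          field_simp
          norm_num
        rw [h6]
        linarith
      linarith
    have hq3 : 7 / 8 * (R + r0) ^ (n + 1) ≤ (R - r0) ^ (n + 1) := by
      have h3 := hq2.trans hq
      rw [div_pow, le_div_iff₀ (by positivity)] at h3
      exact h3
    rw [div_div, mul_comm (V n b) 8, ← div_div]
    refine div_le_div_of_nonneg_right ?_ hVb.le
    have h3 := mul_le_mul_of_nonneg_right hq3 (V_one_pos n).le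
    linarith
  · -- bad
    intro x y
    have hA : ∀ c, ((Pp (pat c) x ∧ ¬ Pp (pat c) y) ∨ (Pm (pat c) x ∧ ¬ Pm (pat c) y)) ↔
        c ∈ (Metric.closedBall (f x) (R + r0) \ Metric.closedBall (f y) (R + r0)) ∪
          (Metric.closedBall (f x) (R - r0) \ Metric.closedBall (f y) (R - r0)) := by
      intro c
      rw [hPp, hPp, hPm, hPm, Set.mem_union, Set.mem_diff, Set.mem_diff, hball, hball, hball,
        hball]
    rw [hev (fun ω => (Pp ω x ∧ ¬ Pp ω y) ∨ (Pm ω x ∧ ¬ Pm ω y)) _
      (((hmB x _).diff (hmB y _)).union ((hmB x _).diff (hmB y _)))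
      (Set.union_subset (Set.diff_subset.trans (hsub x _ (by linarith)))
        (Set.diff_subset.trans (hsub x _ (by linarith)))) hA]
    have h3 := dif h1 h2 (f x) (f y) hr1
    have h4 := dif h1 h2 (f x) (f y) hr2
    have h5 := measureReal_union_le (μ := (volume : Measure (EuclideanSpace ℝ (Fin (n + 1)))))
      (Metric.closedBall (f x) (R + r0) \ Metric.closedBall (f y) (R + r0))
      (Metric.closedBall (f x) (R - r0) \ Metric.closedBall (f y) (R - r0))
    rw [← mul_div_assoc]
    refine div_le_div_of_nonneg_right (h5.trans ?_) hVb.le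
    have hV0 : 0 ≤ V n (R + r0) := (V_pos hr1).le
    have hV0' : 0 ≤ V n (R - r0) := (V_pos hr2).le
    have hX : 0 ≤ √d * dist (f x) (f y) * V n (R + r0) / R := by positivity
    have e1 : √d / (R + r0) * dist (f x) (f y) * V n (R + r0) ≤
        √d * dist (f x) (f y) * V n (R + r0) / R := by
      have : √d / (R + r0) ≤ √d / R :=
        div_le_div_of_nonneg_left (Real.sqrt_nonneg _) hR (by linarith)
      calc √d / (R + r0) * dist (f x) (f y) * V n (R + r0)
          ≤ √d / R * dist (f x) (f y) * V n (R + r0) := by gcongr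
        _ = _ := by ring
    have e2 : √d / (R - r0) * dist (f x) (f y) * V n (R - r0) ≤
        16 / 15 * (√d * dist (f x) (f y) * V n (R + r0) / R) := by
      have : √d / (R - r0) ≤ √d / (15 / 16 * R) :=
        div_le_div_of_nonneg_left (Real.sqrt_nonneg _) (by positivity) (by linarith)
      calc √d / (R - r0) * dist (f x) (f y) * V n (R - r0)
          ≤ √d / (15 / 16 * R) * dist (f x) (f y) * V n (R + r0) := by gcongr
        _ = _ := by
          field_simp
    have e3 : 2.1 * √d / R * dist (f x) (f y) * V n (R + r0) =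
        2.1 * (√d * dist (f x) (f y) * V n (R + r0) / R) := by ring
    change _ ≤ 2.1 * √d / R * dist (f x) (f y) * V n (R + r0)
    rw [e3]
    linarith

end Pool.Agent.MP_a4c1f4_lc.Euc
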