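import Pool.Agent.Lib.MP_a4c1f4_lc.Euc.Spec

set_option linter.all false

/-!
Padded decompositions give core decompositions.
-/

namespace Pool.Agent.MP_a4c1f4_lc.Euc

open Finset Pool.Agent.MP_a4c1f4_lc Pool.Agent.MP_a4c1f4_lc.Dbl Pool.Agent.MP_a4c1f4_lc.Pad

theorem pdCP (h1 : RndProp) : PdCProp := by
  intro S _ D β hD hβ hP Δ hΔ
  obtain ⟨Ω, fΩ, w, q, dp, hw0, hw1, hdiam, hpad, hdp, hone⟩ := h1 S D β Δ hD hβ hΔ hP
  have hβ0 : 0 < β := by linarith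
  have hr0 : 0 < Δ / (8 * β) := by positivity
  refine ⟨Ω, fΩ, w, q, dp, hw0, hw1, hdiam, hpad, hdp, fun x y => ?_⟩
  have e1 : 16 * β * D x y / Δ = 2 * (D x y / (Δ / (8 * β))) := by
    field_simp
    ring
  rw [e1]
  rcases le_or_gt (D x y) (Δ / (8 * β)) with hs | hs
  · refine le_trans (Finset.sum_le_sum fun ω _ => mul_le_mul_of_nonneg_left ?_ (hw0 ω))
      (hone x y hs)
    refine ind_mono fun h => ?_
    by_cases hx : dp ω x
    · by_cases hy : dp ω y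
      · exact absurd (Or.inl ⟨hx, hy, hpad ω x y hx hs⟩) h
      · exact Or.inl ⟨hx, hy⟩
    · by_cases hy : dp ω y
      · exact Or.inr ⟨hx, hy⟩
      · exact absurd (Or.inr ⟨hx, hy⟩) h
  · have h2 : ∑ ω, w ω * ind (¬ ((dp ω x ∧ dp ω y ∧ q ω x = q ω y) ∨ (¬ dp ω x ∧ ¬ dp ω y))) ≤
        ∑ ω, w ω := Finset.sum_le_sum fun ω _ => mul_le_of_le_one_right (hw0 ω) (ind_le_one _)
    rw [hw1] at h2
    have h3 : 1 < D x y / (Δ / (8 * β)) := by rwa [one_lt_div hr0]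
    linarith

end Pool.Agent.MP_a4c1f4_lc.Euc
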