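import Pool.Agent.Lib.MP_a4c1f4_lc.Euc.Spec
import Pool.Agent.Lib.MP_a4c1f4_lc.Pad.Ran

set_option linter.all false

/-!
Assembly of the random hierarchy with arms, for core decompositions.
-/

namespace Pool.Agent.MP_a4c1f4_lc.Euc

open Finset Pool.Agent.MP_a4c1f4_lc Pool.Agent.MP_a4c1f4_lc.Dbl Pool.Agent.MP_a4c1f4_lc.Pad

open Pool.Agent.MP_a4c1f4_lc.Pad.RanM in
theorem ranCP (h1 : CndCProp) (h2 : DetProp) (h3 : IndCProp) (h4 : TelProp) (h5 : NumCProp) :
    RanCProp := by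
  classical
  intro S _ _ D β γ hD hβ hγ hP
  obtain ⟨ρ, hρ, hρ0⟩ := exists_rho D hD
  obtain ⟨h, hh⟩ := exists_h D ρ hρ
  have hβ0 : 0 < β := by linarith
  have hγ0 : 0 < γ := by linarith
  have hγ1 : 1 ≤ γ / 8 := by linarith
  have hγ8 : 8 * (γ / 8) = γ := by ring
  have hg0 : 0 ≤ Real.log (γ / 8) := Real.log_nonneg hγ1
  have hc : ∀ k : Fin h, ∃ (Ω : Type) (_ : Fintype Ω) (w : Ω → ℝ) (pt : Ω → S → ℕ × S)
      (M : Ω → ℕ × S → ℝ), OneC D β γ (4 ^ (k : ℕ) * ρ) Ω w pt M :=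
    fun k => h1 S D β γ _ hD hβ0 hγ0 (by positivity) (hP _ (by positivity))
  choose Ω hF w pt M hO using hc
  letI : ∀ k, Fintype (Ω k) := hF
  obtain ⟨hW0, hW1, hI3, hI4⟩ := h3 S D β γ ρ h Ω w pt M hD hβ0 hρ hO
  let p : ((k : Fin h) → Ω k) → ℕ → S → ℕ × S := fun ω k =>
    if hk : k < h then pt ⟨k, hk⟩ (ω ⟨k, hk⟩) else fun x => (0, x)
  let MM : ((k : Fin h) → Ω k) → ℕ → ℕ × S → ℝ := fun ω k =>
    if hk : k < h then M ⟨k, hk⟩ (ω ⟨k, hk⟩) else fun _ => 0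
  have hp : ∀ ω k (hk : k < h), p ω k = pt ⟨k, hk⟩ (ω ⟨k, hk⟩) := fun ω k hk => dif_pos hk
  have hMM : ∀ ω k (hk : k < h), MM ω k = M ⟨k, hk⟩ (ω ⟨k, hk⟩) := fun ω k hk => dif_pos hk
  have hdet := fun ω => h2 S D (γ / 8) ρ h (p ω) (MM ω) hD hγ1 hρ hh hρ0 (by
    intro k hk
    rw [hp ω k hk, hMM ω k hk]
    have hOk := hO ⟨k, hk⟩
    rw [hγ8]
    exact ⟨hOk.diam _, hOk.core _, hOk.kraft _, hOk.ixm _⟩)
  have hclose : ∀ ω k, k < h → ∀ x y,
      6 * β * (Fintype.card S : ℝ) ^ 2 * D x y ≤ 4 ^ k * ρ → p ω k x = p ω k y := by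
    intro ω k hk x y hxy
    rw [hp ω k hk]
    exact (hO ⟨k, hk⟩).close _ x y hxy
  have hm : 1 ≤ Fintype.card S := Fintype.card_pos
  have hL : 0 ≤ Real.log (Fintype.card S) := Real.log_natCast_nonneg _
  have hl2 : 0 ≤ Real.log 2 := Real.log_nonneg (by norm_num)
  refine ⟨h, ρ, (k : Fin h) → Ω k, inferInstance, fun ω => ∏ k, w k (ω k),
    fun ω => rpo (p ω) h, fun ω => ao D ρ (p ω) (MM ω) h, hW0, hW1, fun ω => (hdet ω).1, ?_⟩
  intro x y
  rcases eq_or_lt_of_le (hD.nonneg x y) with hd | hd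
  · -- distance zero
    have hz : ∀ ω k, rpo (p ω) h k x = rpo (p ω) h k y := by
      intro ω k
      by_contra hne
      obtain ⟨i, _, hi, hne'⟩ := (hdet ω).2.2 k x y hne
      exact hne' (hclose ω i hi x y (by rw [← hd, mul_zero]; positivity))
    rw [← hd, mul_zero]
    apply le_of_eq
    apply Finset.sum_eq_zero
    intro ω _
    rw [Finset.sum_eq_zero, mul_zero]
    intro k _
    rw [ind_false (by simpa using hz ω k), mul_zero, mul_zero]
  · -- positive distance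
    let g : S → ℕ → ℝ := fun z k => Real.log (nb D (5 * (4 ^ k * ρ)) z) -
      Real.log (nb D (4 ^ k * ρ / (8 * (γ / 8))) z)
    have hg : ∀ z k, g z k = Real.log (nb D (5 * (4 ^ k * ρ)) z) -
      Real.log (nb D (4 ^ k * ρ / (8 * (γ / 8))) z) := fun z k => rfl
    obtain ⟨hgx, hsx⟩ := h4 S D (γ / 8) ρ h x hD hγ1 hρ
    obtain ⟨hgy, hsy⟩ := h4 S D (γ / 8) ρ h y hD hγ1 hρ
    have hα : ∀ k, 0 ≤ g x k + g y k ∧ g x k + g y k ≤ 2 * Real.log (Fintype.card S) := by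
      intro k
      have e1 := hgx k
      have e2 := hgy k
      rw [← hg] at e1 e2
      exact ⟨by linarith [e1.1, e2.1], by linarith [e1.2, e2.2]⟩
    have hsum : ∑ k ∈ range h, (g x k + g y k) ≤
        2 * (3.7 + 0.73 * Real.log (γ / 8)) * Real.log (Fintype.card S) := by
      rw [Finset.sum_add_distrib]
      have e1 : ∑ k ∈ range h, g x k ≤ (3.7 + 0.73 * Real.log (γ / 8)) * Real.log (Fintype.card S) := hsx
      have e2 : ∑ k ∈ range h, g y k ≤ (3.7 + 0.73 * Real.log (γ / 8)) * Real.log (Fintype.card S) := hsy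
      linarith
    have hnum := h5 h (Fintype.card S) ρ β (Real.log (γ / 8)) (D x y) (fun k => g x k + g y k) hm hρ hβ hg0 hd
      hα hsum
    refine le_trans ?_ hnum
    -- the terms
    let V : ((k : Fin h) → Ω k) → Fin h → ℝ := fun ω k =>
      (2 + (g x k + g y k)) + Real.log 2 * (((pt k (ω k) x).1 : ℝ) + 1) +
        Real.log 2 * (((pt k (ω k) y).1 : ℝ) + 1)
    have hV0 : ∀ ω k, 0 ≤ V ω k := by
      intro ω k
      have e1 := (hα k).1
      have e2 : 0 ≤ Real.log 2 * (((pt k (ω k) x).1 : ℝ) + 1) := by positivity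
      have e3 : 0 ≤ Real.log 2 * (((pt k (ω k) y).1 : ℝ) + 1) := by positivity
      change 0 ≤ (2 + (g x k + g y k)) + Real.log 2 * (((pt k (ω k) x).1 : ℝ) + 1) +
        Real.log 2 * (((pt k (ω k) y).1 : ℝ) + 1)
      linarith
    have hTV : ∀ ω k (hk : k < h), 2 + ao D ρ (p ω) (MM ω) h k (rpo (p ω) h k x) +
        ao D ρ (p ω) (MM ω) h k (rpo (p ω) h k y) ≤ V ω ⟨k, hk⟩ := by
      intro ω k hk
      have e1 := (hdet ω).2.1 k hk x
      have e2 := (hdet ω).2.1 k hk y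
      rw [← hg, hp ω k hk] at e1 e2
      change _ ≤ (2 + (g x k + g y k)) + Real.log 2 * (((pt ⟨k, hk⟩ (ω ⟨k, hk⟩) x).1 : ℝ) + 1) +
        Real.log 2 * (((pt ⟨k, hk⟩ (ω ⟨k, hk⟩) y).1 : ℝ) + 1)
      linarith
    have hswap : ∑ ω : (k : Fin h) → Ω k, (∏ k, w k (ω k)) * ∑ k ∈ range h, 4 ^ (k + 1) * ρ *
          ((2 + ao D ρ (p ω) (MM ω) h k (rpo (p ω) h k x) +
            ao D ρ (p ω) (MM ω) h k (rpo (p ω) h k y)) *
              ind (rpo (p ω) h k x ≠ rpo (p ω) h k y)) =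
        ∑ k ∈ range h, 4 ^ (k + 1) * ρ * ∑ ω : (k : Fin h) → Ω k, (∏ k, w k (ω k)) *
          ((2 + ao D ρ (p ω) (MM ω) h k (rpo (p ω) h k x) +
            ao D ρ (p ω) (MM ω) h k (rpo (p ω) h k y)) *
              ind (rpo (p ω) h k x ≠ rpo (p ω) h k y)) := by
      simp only [Finset.mul_sum]
      rw [Finset.sum_comm]
      refine Finset.sum_congr rfl fun k _ => Finset.sum_congr rfl fun ω _ => ?_
      ring
    refine (le_of_eq hswap).trans ?_
    refine Finset.sum_le_sum fun k hk => ?_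
    rw [Finset.mem_range] at hk
    refine mul_le_mul_of_nonneg_left ?_ (by positivity)
    have hT1 : ∀ ω, (2 + ao D ρ (p ω) (MM ω) h k (rpo (p ω) h k x) +
        ao D ρ (p ω) (MM ω) h k (rpo (p ω) h k y)) *
          ind (rpo (p ω) h k x ≠ rpo (p ω) h k y) ≤
        V ω ⟨k, hk⟩ * ind (rpo (p ω) h k x ≠ rpo (p ω) h k y) := fun ω =>
      mul_le_mul_of_nonneg_right (hTV ω k hk) (ind_nonneg _)
    apply le_min
    · -- first entry
      have e1 := hI4 x y ⟨k, hk⟩ (2 + (g x k + g y k)) (by linarith [(hα k).1])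
      refine le_trans (Finset.sum_le_sum fun ω _ => ?_) (e1.trans (by linarith))
      refine mul_le_mul_of_nonneg_left ?_ (hW0 ω)
      refine (hT1 ω).trans ?_
      exact mul_le_of_le_one_right (hV0 ω _) (ind_le_one _)
    · -- second entry
      have hT2 : ∀ ω, (2 + ao D ρ (p ω) (MM ω) h k (rpo (p ω) h k x) +
          ao D ρ (p ω) (MM ω) h k (rpo (p ω) h k y)) *
            ind (rpo (p ω) h k x ≠ rpo (p ω) h k y) ≤
          ∑ i ∈ Finset.Ico k h, ind (4 ^ i * ρ < 6 * β * (Fintype.card S : ℝ) ^ 2 * D x y) *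
            (V ω ⟨k, hk⟩ * ind (p ω i x ≠ p ω i y)) := by
        intro ω
        refine (hT1 ω).trans ?_
        have hnn : ∀ i, 0 ≤ ind (4 ^ i * ρ < 6 * β * (Fintype.card S : ℝ) ^ 2 * D x y) *
            (V ω ⟨k, hk⟩ * ind (p ω i x ≠ p ω i y)) := fun i =>
          mul_nonneg (ind_nonneg _) (mul_nonneg (hV0 ω _) (ind_nonneg _))
        by_cases hne : rpo (p ω) h k x = rpo (p ω) h k y
        · rw [ind_false (by simpa using hne), mul_zero]
          exact Finset.sum_nonneg fun i _ => hnn i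
        · rw [ind_true hne, mul_one]
          obtain ⟨i, hki, hi, hne'⟩ := (hdet ω).2.2 k x y hne
          have hlt : 4 ^ i * ρ < 6 * β * (Fintype.card S : ℝ) ^ 2 * D x y := by
            by_contra hcon
            exact hne' (hclose ω i hi x y (not_lt.1 hcon))
          have e1 := Finset.single_le_sum (f := fun i =>
            ind (4 ^ i * ρ < 6 * β * (Fintype.card S : ℝ) ^ 2 * D x y) *
            (V ω ⟨k, hk⟩ * ind (p ω i x ≠ p ω i y))) (fun i _ => hnn i)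
            (Finset.mem_Ico.2 ⟨hki, hi⟩)
          refine le_trans (le_of_eq ?_) e1
          change V ω ⟨k, hk⟩ = ind (4 ^ i * ρ < 6 * β * (Fintype.card S : ℝ) ^ 2 * D x y) *
            (V ω ⟨k, hk⟩ * ind (p ω i x ≠ p ω i y))
          rw [ind_true hlt, ind_true hne', one_mul, mul_one]
      have e2 : ∑ ω : (k : Fin h) → Ω k, (∏ k, w k (ω k)) *
          ((2 + ao D ρ (p ω) (MM ω) h k (rpo (p ω) h k x) +
            ao D ρ (p ω) (MM ω) h k (rpo (p ω) h k y)) *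
              ind (rpo (p ω) h k x ≠ rpo (p ω) h k y)) ≤
          ∑ ω : (k : Fin h) → Ω k, (∏ k, w k (ω k)) *
            ∑ i ∈ Finset.Ico k h, ind (4 ^ i * ρ < 6 * β * (Fintype.card S : ℝ) ^ 2 * D x y) *
            (V ω ⟨k, hk⟩ * ind (p ω i x ≠ p ω i y)) :=
        Finset.sum_le_sum fun ω _ => mul_le_mul_of_nonneg_left (hT2 ω) (hW0 ω)
      refine e2.trans ?_
      have e3 : ∑ ω : (k : Fin h) → Ω k, (∏ k, w k (ω k)) *
            ∑ i ∈ Finset.Ico k h, ind (4 ^ i * ρ < 6 * β * (Fintype.card S : ℝ) ^ 2 * D x y) *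
            (V ω ⟨k, hk⟩ * ind (p ω i x ≠ p ω i y)) =
          ∑ i ∈ Finset.Ico k h, ind (4 ^ i * ρ < 6 * β * (Fintype.card S : ℝ) ^ 2 * D x y) *
            ∑ ω : (k : Fin h) → Ω k, (∏ k, w k (ω k)) *
              (V ω ⟨k, hk⟩ * ind (p ω i x ≠ p ω i y)) := by
        simp only [Finset.mul_sum]
        rw [Finset.sum_comm]
        refine Finset.sum_congr rfl fun i _ => Finset.sum_congr rfl fun ω _ => ?_
        ring
      rw [e3]
      refine Finset.sum_le_sum fun i hi => ?_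
      rw [Finset.mem_Ico] at hi
      refine mul_le_mul_of_nonneg_left ?_ (ind_nonneg _)
      have e4 := hI3 x y ⟨k, hk⟩ ⟨i, hi.2⟩ (2 + (g x k + g y k)) (by linarith [(hα k).1])
      refine le_trans (le_of_eq ?_) e4
      refine Finset.sum_congr rfl fun ω _ => ?_
      rw [hp ω i hi.2]

end Pool.Agent.MP_a4c1f4_lc.Euc
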