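import Pool.Agent.Lib.MP_a4c1f4_lc.Euc.Spec
import Pool.Agent.Lib.MP_a4c1f4_lc.Pad.Rec

set_option linter.all false

/-!
# Independent rounds: the partition of one level, for core decompositions
-/

namespace Pool.Agent.MP_a4c1f4_lc.Euc

open Finset Pool.Agent.MP_a4c1f4_lc Pool.Agent.MP_a4c1f4_lc.Dbl Pool.Agent.MP_a4c1f4_lc.Pad

open Pool.Agent.MP_a4c1f4_lc.Pad.RecM in
theorem recCP : RecCProp := by
  classical
  intro S _ _ D β γ Δ hD hβ hγ hΔ hP n
  have hs0 : ∀ x y, 0 ≤ β * D x y / Δ := fun x y =>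
    div_nonneg (mul_nonneg hβ.le (hD.nonneg x y)) hΔ.le
  induction n with
  | zero =>
    have x0 : S := Classical.arbitrary S
    refine ⟨Unit, inferInstance, fun _ => 1, fun _ _ => (0, x0), fun _ _ => 0, ?_⟩
    refine ⟨fun _ => zero_le_one, by simp, fun _ _ => le_rfl, ?_, fun _ _ => le_rfl, ?_, ?_, ?_, ?_,
      ?_, ?_⟩
    · intro _ _ _ h
      exact absurd h (by simp)
    · intro _ _ h
      exact absurd h (by simp)
    · intro _ v
      simp
    · intro x
      simp [ind]
    · intro x y
      have := hs0 x y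
      simp only [ne_eq, not_true_eq_false, Finset.univ_unique, Finset.sum_singleton, one_mul]
      rw [ind_false (by simp)]
      linarith
    · intro x
      simp
      norm_num
    · intro x y
      have := hs0 x y
      simp only [ne_eq, not_true_eq_false, Finset.univ_unique, Finset.sum_singleton, one_mul]
      rw [ind_false (by simp)]
      linarith
  | succ n ih =>
    obtain ⟨Ω', _, w', pt', M', ih⟩ := ih
    obtain ⟨Ω1, _, w, q, dp, hw0, hw1, hdiam, hpad, hdp, hone⟩ := hP
    let pt : Ω1 × Ω' → S → ℕ × S := fun p x =>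
      if dp p.1 x then (0, q p.1 x) else ((pt' p.2 x).1 + 1, (pt' p.2 x).2)
    let M : Ω1 × Ω' → ℕ × S → ℝ := fun p z =>
      if z.1 = 0 then (((Finset.univ : Finset S).filter (fun y => q p.1 y = z.2)).card : ℝ) / 2
      else M' p.2 (z.1 - 1, z.2) / 2
    have hpt1 : ∀ p x, dp p.1 x → pt p x = (0, q p.1 x) := fun p x h => if_pos h
    have hpt2 : ∀ p x, ¬ dp p.1 x → pt p x = ((pt' p.2 x).1 + 1, (pt' p.2 x).2) :=
      fun p x h => if_neg h
    have hM0 : ∀ p z, M p (0, z) =
        (((Finset.univ : Finset S).filter (fun y => q p.1 y = z)).card : ℝ) / 2 :=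
      fun p z => if_pos rfl
    have hM1 : ∀ p i z, M p (i + 1, z) = M' p.2 (i, z) / 2 := fun p i z => if_neg (by simp)
    have hex : ∀ (F : Ω1 → ℝ) (H : Ω' → ℝ),
        ∑ p : Ω1 × Ω', w p.1 * w' p.2 * (F p.1 * H p.2) =
          (∑ a, w a * F a) * (∑ b, w' b * H b) := fun F H => prod_exp w w' F H
    have hww : ∀ p : Ω1 × Ω', 0 ≤ w p.1 * w' p.2 := fun p => mul_nonneg (hw0 _) (ih.w0 _)
    have hw1' : ∑ a, w a * (1 : ℝ) = 1 := by simpa using hw1
    have hw2' : ∑ b, w' b * (1 : ℝ) = 1 := by simpa using ih.w1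
    have htot : ∑ p : Ω1 × Ω', w p.1 * w' p.2 = 1 := by
      have h2 := hex (fun _ => 1) (fun _ => 1)
      rw [hw1', hw2', mul_one] at h2
      simpa using h2
    -- the index
    have hixeq : ∀ p x, (((pt p x).1 : ℝ) + 1) =
        1 * 1 + ind (¬ dp p.1 x) * (((pt' p.2 x).1 : ℝ) + 1) := by
      intro p x
      by_cases h : dp p.1 x
      · rw [hpt1 p x h, ind_false (by simpa using h)]
        simp
      · rw [hpt2 p x h, ind_true h]
        push_cast
        ring
    have hix : ∀ x, ∑ p : Ω1 × Ω', w p.1 * w' p.2 * (((pt p x).1 : ℝ) + 1) ≤ 4 / 3 := by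
      intro x
      have h2 : ∑ p : Ω1 × Ω', w p.1 * w' p.2 * (((pt p x).1 : ℝ) + 1) =
          (∑ a, w a * 1) * (∑ b, w' b * 1) +
          (∑ a, w a * ind (¬ dp a x)) * (∑ b, w' b * (((pt' b x).1 : ℝ) + 1)) := by
        rw [← hex (fun _ => 1) (fun _ => 1),
          ← hex (fun a => ind (¬ dp a x)) (fun b => ((pt' b x).1 : ℝ) + 1),
          ← Finset.sum_add_distrib]
        refine Finset.sum_congr rfl fun p _ => ?_
        rw [hixeq p x]
        ring
      rw [h2, hw1', hw2']
      have h3 := hdp x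
      have h4 := ih.ix x
      have h5 : 0 ≤ ∑ b, w' b * (((pt' b x).1 : ℝ) + 1) :=
        Finset.sum_nonneg fun b _ => mul_nonneg (ih.w0 b) (by positivity)
      have h6 : (∑ a, w a * ind (¬ dp a x)) * (∑ b, w' b * (((pt' b x).1 : ℝ) + 1)) ≤
          1 / 4 * (4 / 3) := mul_le_mul h3 h4 h5 (by norm_num)
      linarith
    -- the event
    let o : Ω1 → S → S → Prop := fun a x y =>
      ¬ ((dp a x ∧ dp a y ∧ q a x = q a y) ∨ (¬ dp a x ∧ ¬ dp a y))
    refine ⟨Ω1 × Ω', inferInstance, fun p => w p.1 * w' p.2, pt, M, hww, htot, ?_, ?_, ?_, ?_, ?_,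
      ?_, ?_, hix, ?_⟩
    · -- lt
      intro p x
      by_cases h : dp p.1 x
      · rw [hpt1 p x h]
        exact Nat.zero_le _
      · rw [hpt2 p x h]
        exact Nat.succ_le_succ (ih.lt _ _)
    · -- diam
      intro p x y hlt he
      by_cases hx : dp p.1 x
      · by_cases hy : dp p.1 y
        · rw [hpt1 p x hx, hpt1 p y hy] at he
          exact hdiam p.1 x y (congrArg Prod.snd he)
        · rw [hpt1 p x hx, hpt2 p y hy] at he
          exact absurd (congrArg Prod.fst he) (by simp)
      · by_cases hy : dp p.1 y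
        · rw [hpt2 p x hx, hpt1 p y hy] at he
          exact absurd (congrArg Prod.fst he) (by simp)
        · rw [hpt2 p x hx] at hlt
          rw [hpt2 p x hx, hpt2 p y hy] at he
          refine ih.diam p.2 x y (by simpa using hlt) ?_
          have h3 := congrArg Prod.fst he
          have h4 := congrArg Prod.snd he
          exact Prod.ext (by simpa using h3) h4
    · -- Mn
      intro p z
      change 0 ≤ if z.1 = 0 then
        (((Finset.univ : Finset S).filter (fun y => q p.1 y = z.2)).card : ℝ) / 2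
        else M' p.2 (z.1 - 1, z.2) / 2
      split_ifs
      · positivity
      · have := ih.Mn p.2 (z.1 - 1, z.2)
        linarith
    · -- core
      intro p x hlt
      by_cases hx : dp p.1 x
      · rw [hpt1 p x hx, hM0]
        have h3 : nb D (Δ / γ) x ≤
            ((Finset.univ : Finset S).filter (fun y => q p.1 y = q p.1 x)).card := by
          unfold nb
          apply Finset.card_le_card
          intro y hy
          rw [Finset.mem_filter] at hy ⊢
          refine ⟨Finset.mem_univ _, ?_⟩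
          rw [hD.symm y x] at hy
          exact (hpad p.1 x y hx hy.2).symm
        have h4 : (nb D (Δ / γ) x : ℝ) ≤
            (((Finset.univ : Finset S).filter (fun y => q p.1 y = q p.1 x)).card : ℝ) := by
          exact_mod_cast h3
        simp only [zero_add, pow_one]
        linarith
      · rw [hpt2 p x hx] at hlt ⊢
        have h3 := ih.core p.2 x (by simpa using hlt)
        rw [hM1]
        simp only at h3 ⊢
        have h4 : (pt' p.2 x) = ((pt' p.2 x).1, (pt' p.2 x).2) := rfl
        rw [← h4, pow_succ]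
        linarith
    · -- kraft
      intro p v
      exact kraft_step D Δ n (q p.1) (dp p.1) (pt' p.2) (M' p.2) (ih.Mn p.2) (hdiam p.1) v
        (ih.kraft p.2 v) (pt p) (M p) (hpt1 p) (hpt2 p) (hM0 p) (hM1 p)
    · -- un
      intro x
      have h2 : ∑ p : Ω1 × Ω', w p.1 * w' p.2 * ind ((pt p x).1 = n + 1) ≤
          ∑ p : Ω1 × Ω', w p.1 * w' p.2 * (ind (¬ dp p.1 x) * ind ((pt' p.2 x).1 = n)) := by
        refine Finset.sum_le_sum fun p _ => mul_le_mul_of_nonneg_left ?_ (hww p)
        by_cases hx : dp p.1 x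
        · rw [hpt1 p x hx, ind_false (by simp)]
          exact mul_nonneg (ind_nonneg _) (ind_nonneg _)
        · rw [hpt2 p x hx, ind_true hx, one_mul]
          exact ind_mono fun h => by simpa using h
      refine h2.trans ?_
      rw [hex (fun a => ind (¬ dp a x)) (fun b => ind ((pt' b x).1 = n)), pow_succ, mul_comm]
      have h5 : 0 ≤ ∑ a, w a * ind (¬ dp a x) :=
        Finset.sum_nonneg fun a _ => mul_nonneg (hw0 a) (ind_nonneg _)
      exact mul_le_mul (ih.un x) (hdp x) h5 (by positivity)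
    · -- sep
      intro x y
      have h2 : ∑ p : Ω1 × Ω', w p.1 * w' p.2 * ind (pt p x ≠ pt p y) ≤
          ∑ p : Ω1 × Ω', w p.1 * w' p.2 * (ind (o p.1 x y) * 1) +
          ∑ p : Ω1 × Ω', w p.1 * w' p.2 *
            (ind (¬ dp p.1 x) * ind (pt' p.2 x ≠ pt' p.2 y)) := by
        rw [← Finset.sum_add_distrib]
        refine Finset.sum_le_sum fun p _ => ?_
        rw [← mul_add]
        refine mul_le_mul_of_nonneg_left ?_ (hww p)
        by_cases ho : o p.1 x y
        · rw [ind_true ho, one_mul]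
          have := ind_le_one (pt p x ≠ pt p y)
          have := mul_nonneg (ind_nonneg (¬ dp p.1 x)) (ind_nonneg (pt' p.2 x ≠ pt' p.2 y))
          linarith
        · have ho' : (dp p.1 x ∧ dp p.1 y ∧ q p.1 x = q p.1 y) ∨ (¬ dp p.1 x ∧ ¬ dp p.1 y) :=
            not_not.mp ho
          rcases ho' with ⟨hx, hy, hq⟩ | ⟨hx, hy⟩
          · have h3 : pt p x = pt p y := by
              rw [hpt1 p x hx, hpt1 p y hy, hq]
            rw [ind_false (by simpa using h3)]
            exact add_nonneg (mul_nonneg (ind_nonneg _) zero_le_one)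
              (mul_nonneg (ind_nonneg _) (ind_nonneg _))
          · rw [ind_true hx, one_mul]
            have h3 : ind (pt p x ≠ pt p y) ≤ ind (pt' p.2 x ≠ pt' p.2 y) := by
              refine ind_mono fun h h' => h ?_
              rw [hpt2 p x hx, hpt2 p y hy, h']
            have := mul_nonneg (ind_nonneg (o p.1 x y)) (zero_le_one (α := ℝ))
            linarith
      refine h2.trans ?_
      rw [hex (fun a => ind (o a x y)) (fun _ => 1),
        hex (fun a => ind (¬ dp a x)) (fun b => ind (pt' b x ≠ pt' b y)), hw2', mul_one]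
      have h3 : ∑ a, w a * ind (o a x y) ≤ β * D x y / Δ := hone x y
      have h4 := ih.sep x y
      have h5 : 0 ≤ ∑ b, w' b * ind (pt' b x ≠ pt' b y) :=
        Finset.sum_nonneg fun b _ => mul_nonneg (ih.w0 b) (ind_nonneg _)
      have h6 := mul_le_mul (hdp x) h4 h5 (by norm_num)
      linarith
    · -- ixs
      intro x y
      have h2 : ∑ p : Ω1 × Ω', w p.1 * w' p.2 *
            (ind (pt p x ≠ pt p y) * (((pt p x).1 : ℝ) + 1)) ≤
          ∑ p : Ω1 × Ω', w p.1 * w' p.2 *
            (ind (o p.1 x y) * (1 + (((pt' p.2 x).1 : ℝ) + 1))) +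
          ∑ p : Ω1 × Ω', w p.1 * w' p.2 *
            (ind (¬ dp p.1 x) * (ind (pt' p.2 x ≠ pt' p.2 y) +
              ind (pt' p.2 x ≠ pt' p.2 y) * (((pt' p.2 x).1 : ℝ) + 1))) := by
        rw [← Finset.sum_add_distrib]
        refine Finset.sum_le_sum fun p _ => ?_
        rw [← mul_add]
        refine mul_le_mul_of_nonneg_left ?_ (hww p)
        have hi0 : (0 : ℝ) ≤ ((pt' p.2 x).1 : ℝ) := Nat.cast_nonneg _
        have hN : 0 ≤ ind (pt' p.2 x ≠ pt' p.2 y) +
            ind (pt' p.2 x ≠ pt' p.2 y) * (((pt' p.2 x).1 : ℝ) + 1) :=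
          add_nonneg (ind_nonneg _) (mul_nonneg (ind_nonneg _) (by linarith))
        have hle : ((pt p x).1 : ℝ) + 1 ≤ 1 + (((pt' p.2 x).1 : ℝ) + 1) := by
          rw [hixeq p x, one_mul]
          have := mul_le_of_le_one_left (a := ind (¬ dp p.1 x))
            (b := ((pt' p.2 x).1 : ℝ) + 1) (by linarith) (ind_le_one _)
          linarith
        have hle2 : ind (pt p x ≠ pt p y) * (((pt p x).1 : ℝ) + 1) ≤
            1 + (((pt' p.2 x).1 : ℝ) + 1) := by
          refine le_trans ?_ hle
          exact mul_le_of_le_one_left (by positivity) (ind_le_one _)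
        by_cases ho : o p.1 x y
        · rw [ind_true ho, one_mul]
          have := mul_nonneg (ind_nonneg (¬ dp p.1 x)) hN
          linarith
        · have ho' : (dp p.1 x ∧ dp p.1 y ∧ q p.1 x = q p.1 y) ∨ (¬ dp p.1 x ∧ ¬ dp p.1 y) :=
            not_not.mp ho
          rcases ho' with ⟨hx, hy, hq⟩ | ⟨hx, hy⟩
          · have h3 : pt p x = pt p y := by
              rw [hpt1 p x hx, hpt1 p y hy, hq]
            rw [ind_false (by simpa using h3), zero_mul]
            exact add_nonneg (mul_nonneg (ind_nonneg _) (by linarith))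
              (mul_nonneg (ind_nonneg _) hN)
          · rw [ind_true hx, one_mul]
            have h3 : ind (pt p x ≠ pt p y) ≤ ind (pt' p.2 x ≠ pt' p.2 y) := by
              refine ind_mono fun h h' => h ?_
              rw [hpt2 p x hx, hpt2 p y hy, h']
            have h4 : ind (pt p x ≠ pt p y) * (((pt p x).1 : ℝ) + 1) ≤
                ind (pt' p.2 x ≠ pt' p.2 y) * (1 + (((pt' p.2 x).1 : ℝ) + 1)) :=
              mul_le_mul h3 hle (by positivity) (ind_nonneg _)
            have := mul_nonneg (ind_nonneg (o p.1 x y))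
              (by linarith : (0 : ℝ) ≤ 1 + (((pt' p.2 x).1 : ℝ) + 1))
            linarith
      refine h2.trans ?_
      rw [hex (fun a => ind (o a x y)) (fun b => 1 + (((pt' b x).1 : ℝ) + 1)),
        hex (fun a => ind (¬ dp a x)) (fun b => ind (pt' b x ≠ pt' b y) +
          ind (pt' b x ≠ pt' b y) * (((pt' b x).1 : ℝ) + 1))]
      have h3 : ∑ a, w a * ind (o a x y) ≤ β * D x y / Δ := hone x y
      have h4 := ih.sep x y
      have h5 := ih.ixs x y
      have h6 : ∑ b, w' b * (1 + (((pt' b x).1 : ℝ) + 1)) ≤ 1 + 4 / 3 := by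
        have h7 : ∑ b, w' b * (1 + (((pt' b x).1 : ℝ) + 1)) =
            ∑ b, w' b * 1 + ∑ b, w' b * (((pt' b x).1 : ℝ) + 1) := by
          rw [← Finset.sum_add_distrib]
          exact Finset.sum_congr rfl fun b _ => by ring
        rw [h7, hw2']
        linarith [ih.ix x]
      have h6' : 0 ≤ ∑ b, w' b * (1 + (((pt' b x).1 : ℝ) + 1)) :=
        Finset.sum_nonneg fun b _ => mul_nonneg (ih.w0 b) (by positivity)
      have h8 : ∑ b, w' b * (ind (pt' b x ≠ pt' b y) +
          ind (pt' b x ≠ pt' b y) * (((pt' b x).1 : ℝ) + 1)) ≤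
          4 / 3 * (β * D x y / Δ) + 32 / 9 * (β * D x y / Δ) := by
        have h7 : ∑ b, w' b * (ind (pt' b x ≠ pt' b y) +
            ind (pt' b x ≠ pt' b y) * (((pt' b x).1 : ℝ) + 1)) =
            ∑ b, w' b * ind (pt' b x ≠ pt' b y) +
            ∑ b, w' b * (ind (pt' b x ≠ pt' b y) * (((pt' b x).1 : ℝ) + 1)) := by
          rw [← Finset.sum_add_distrib]
          exact Finset.sum_congr rfl fun b _ => by ring
        rw [h7]
        linarith
      have h8' : 0 ≤ ∑ b, w' b * (ind (pt' b x ≠ pt' b y) +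
          ind (pt' b x ≠ pt' b y) * (((pt' b x).1 : ℝ) + 1)) :=
        Finset.sum_nonneg fun b _ => mul_nonneg (ih.w0 b)
          (add_nonneg (ind_nonneg _) (mul_nonneg (ind_nonneg _) (by positivity)))
      have hs1 := hs0 x y
      have h9 := mul_le_mul h3 h6 h6' hs1
      have h10 := mul_le_mul (hdp x) h8 h8' (by norm_num)
      linarith

end Pool.Agent.MP_a4c1f4_lc.Euc
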