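import Pool.Agent.Lib.MP_a4c1f4_lc.Euc.Spec

set_option linter.all false

/-!
The volume of the difference of two balls.
-/

namespace Pool.Agent.MP_a4c1f4_lc.Euc

open MeasureTheory Finset

namespace Vol1M

/-- A ball in coordinates. -/
theorem ballE (n : ℕ) (R : ℝ) (hR : 0 < R) :
    volume (Metric.closedBall (0 : EuclideanSpace ℝ (Fin n)) R) =
      volume {z : Fin n → ℝ | ∑ i, z i ^ 2 ≤ R ^ 2} := by
  rw [← (PiLp.volume_preserving_toLp (Fin n)).measure_preimage
    Metric.isClosed_closedBall.measurableSet.nullMeasurableSet]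
  congr 1
  ext z
  simp only [Set.mem_preimage, Metric.mem_closedBall, dist_zero_right, Set.mem_setOf_eq]
  rw [EuclideanSpace.norm_eq, Real.sqrt_le_left hR.le]
  simp only [Real.norm_eq_abs, sq_abs]

theorem measZ (n : ℕ) (R t : ℝ) : MeasurableSet {q : ℝ × (Fin n → ℝ) |
    q.1 ^ 2 + ∑ i, q.2 i ^ 2 ≤ R ^ 2 ∧ R ^ 2 < (q.1 - t) ^ 2 + ∑ i, q.2 i ^ 2} := by
  have h1 : Measurable (fun q : ℝ × (Fin n → ℝ) => q.1 ^ 2 + ∑ i, q.2 i ^ 2) := by fun_prop
  have h2 : Measurable (fun q : ℝ × (Fin n → ℝ) => (q.1 - t) ^ 2 + ∑ i, q.2 i ^ 2) := by fun_prop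
  exact (measurableSet_le h1 measurable_const).inter (measurableSet_lt measurable_const h2)

/-- The difference in coordinates. -/
theorem difE (n : ℕ) (R t : ℝ) (hR : 0 < R) :
    volume (Metric.closedBall (0 : EuclideanSpace ℝ (Fin (n + 1))) R \
        Metric.closedBall (EuclideanSpace.single 0 t) R) =
      volume {q : ℝ × (Fin n → ℝ) | q.1 ^ 2 + ∑ i, q.2 i ^ 2 ≤ R ^ 2 ∧
        R ^ 2 < (q.1 - t) ^ 2 + ∑ i, q.2 i ^ 2} := by
  have hm1 : MeasurableSet (Metric.closedBall (0 : EuclideanSpace ℝ (Fin (n + 1))) R \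
        Metric.closedBall (EuclideanSpace.single 0 t) R) :=
    Metric.isClosed_closedBall.measurableSet.diff Metric.isClosed_closedBall.measurableSet
  have hm2 : MeasurableSet {q : ℝ × (Fin n → ℝ) | q.1 ^ 2 + ∑ i, q.2 i ^ 2 ≤ R ^ 2 ∧
        R ^ 2 < (q.1 - t) ^ 2 + ∑ i, q.2 i ^ 2} := measZ n R t
  rw [← (PiLp.volume_preserving_toLp (Fin (n + 1))).measure_preimage hm1.nullMeasurableSet,
    ← (volume_preserving_piFinSuccAbove (fun _ : Fin (n + 1) => ℝ) 0).measure_preimage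
      hm2.nullMeasurableSet]
  congr 1
  ext y
  have e1 : (MeasurableEquiv.piFinSuccAbove (fun _ : Fin (n + 1) => ℝ) 0) y =
      (y 0, fun i => y i.succ) := rfl
  rw [Set.mem_preimage, Set.mem_preimage, e1, Set.mem_diff, Metric.mem_closedBall,
    Metric.mem_closedBall, dist_zero_right, EuclideanSpace.norm_eq, EuclideanSpace.dist_eq,
    Real.sqrt_le_left hR.le, Real.sqrt_le_left hR.le, Fin.sum_univ_succ, Fin.sum_univ_succ]
  simp only [Real.norm_eq_abs, sq_abs, Real.dist_eq, Set.mem_setOf_eq, not_le,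
    EuclideanSpace.single_apply, if_true, Fin.succ_ne_zero, if_false, sub_zero]

/-- The volume in coordinates. -/
theorem volZ (n : ℕ) (R t : ℝ) (hR : 0 < R) (ht : 0 ≤ t) :
    volume {q : ℝ × (Fin n → ℝ) | q.1 ^ 2 + ∑ i, q.2 i ^ 2 ≤ R ^ 2 ∧
        R ^ 2 < (q.1 - t) ^ 2 + ∑ i, q.2 i ^ 2} ≤
      ENNReal.ofReal t * volume {z : Fin n → ℝ | ∑ i, z i ^ 2 ≤ R ^ 2} := by
  have hm2 : MeasurableSet {q : ℝ × (Fin n → ℝ) | q.1 ^ 2 + ∑ i, q.2 i ^ 2 ≤ R ^ 2 ∧
        R ^ 2 < (q.1 - t) ^ 2 + ∑ i, q.2 i ^ 2} := measZ n R t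
  have hm3 : MeasurableSet {z : Fin n → ℝ | ∑ i, z i ^ 2 ≤ R ^ 2} :=
    measurableSet_le (by fun_prop) (by fun_prop)
  have e1 : (volume : Measure (ℝ × (Fin n → ℝ))) = (volume : Measure ℝ).prod volume := rfl
  rw [e1, Measure.prod_apply_symm hm2, ← lintegral_indicator_const hm3]
  refine lintegral_mono fun z => ?_
  by_cases hz : ∑ i, z i ^ 2 ≤ R ^ 2
  · rw [Set.indicator_of_mem (show z ∈ {z : Fin n → ℝ | ∑ i, z i ^ 2 ≤ R ^ 2} from hz)]
    set s : ℝ := √(R ^ 2 - ∑ i, z i ^ 2) with hs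
    have hs2 : s ^ 2 = R ^ 2 - ∑ i, z i ^ 2 := Real.sq_sqrt (by linarith)
    have hs0 : 0 ≤ s := Real.sqrt_nonneg _
    calc volume ((fun a => (a, z)) ⁻¹' {q : ℝ × (Fin n → ℝ) | q.1 ^ 2 + ∑ i, q.2 i ^ 2 ≤ R ^ 2 ∧
        R ^ 2 < (q.1 - t) ^ 2 + ∑ i, q.2 i ^ 2})
        ≤ volume (Set.Ico (-s) (t - s)) := by
          apply measure_mono
          intro a ha
          obtain ⟨h1, h2⟩ := ha
          simp only at h1 h2
          have h3 : a ^ 2 ≤ s ^ 2 := by linarith
          have h4 : s ^ 2 < (a - t) ^ 2 := by linarith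
          have h5 : |a| ≤ s := abs_le_of_sq_le_sq h3 hs0
          rw [abs_le] at h5
          refine ⟨h5.1, ?_⟩
          by_contra hcon
          rw [not_lt] at hcon
          have h6 : (a - t) ^ 2 ≤ s ^ 2 := by
            apply sq_le_sq'
            · linarith
            · linarith
          linarith
      _ = ENNReal.ofReal t := by
          rw [Real.volume_Ico]
          congr 1
          ring
  · rw [Set.indicator_of_notMem (show z ∉ {z : Fin n → ℝ | ∑ i, z i ^ 2 ≤ R ^ 2} from hz)]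
    rw [nonpos_iff_eq_zero]
    convert measure_empty (μ := (volume : Measure ℝ))
    ext a
    simp only [Set.mem_preimage, Set.mem_setOf_eq, Set.mem_empty_iff_false, iff_false, not_and]
    intro h1
    exfalso
    apply hz
    have := sq_nonneg a
    linarith

end Vol1M

open Vol1M in
theorem vol1P : Vol1Prop := by
  intro n v R hR
  set t : ℝ := ‖v‖ with ht
  have ht0 : 0 ≤ t := norm_nonneg v
  have hn : ‖(EuclideanSpace.single 0 t : EuclideanSpace ℝ (Fin (n + 1)))‖ = ‖v‖ := by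
    rw [EuclideanSpace.norm_single, Real.norm_eq_abs, abs_of_nonneg ht0]
  let A : EuclideanSpace ℝ (Fin (n + 1)) ≃ₗᵢ[ℝ] EuclideanSpace ℝ (Fin (n + 1)) :=
    (Submodule.span ℝ {EuclideanSpace.single 0 t - v})ᗮ.reflection
  have hA : A (EuclideanSpace.single 0 t) = v := Submodule.reflection_sub hn
  have hm1 : MeasurableSet (Metric.closedBall (0 : EuclideanSpace ℝ (Fin (n + 1))) R \
        Metric.closedBall v R) :=
    Metric.isClosed_closedBall.measurableSet.diff Metric.isClosed_closedBall.measurableSet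
  rw [← (LinearIsometryEquiv.measurePreserving A).measure_preimage hm1.nullMeasurableSet]
  have e1 : A ⁻¹' (Metric.closedBall (0 : EuclideanSpace ℝ (Fin (n + 1))) R \
        Metric.closedBall v R) = Metric.closedBall (0 : EuclideanSpace ℝ (Fin (n + 1))) R \
        Metric.closedBall (EuclideanSpace.single 0 t) R := by
    ext x
    simp only [Set.mem_preimage, Set.mem_diff, Metric.mem_closedBall]
    rw [← hA, A.dist_map, ← A.map_zero, A.dist_map, A.map_zero]
  rw [e1, difE n R t hR, ballE n R hR]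
  exact volZ n R t hR ht0

end Pool.Agent.MP_a4c1f4_lc.Euc
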