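import Pool.Agent.Lib.MP_a4c1f4_lc.Euc.Spec

set_option linter.all false

/-!
The ratio of the volumes of balls of consecutive dimensions.
-/

namespace Pool.Agent.MP_a4c1f4_lc.Euc

open MeasureTheory

namespace Vol2M

/-- The volume of a ball, also for dimension zero. -/
theorem volF (n : ℕ) (R : ℝ) (hR : 0 < R) :
    volume (Metric.closedBall (0 : EuclideanSpace ℝ (Fin n)) R) =
      ENNReal.ofReal (R ^ n * (√Real.pi ^ n / Real.Gamma ((n : ℝ) / 2 + 1))) := by
  rcases n with _ | n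
  · have h1 : Metric.closedBall (0 : EuclideanSpace ℝ (Fin 0)) R = Set.univ := by
      ext x
      simp only [Metric.mem_closedBall, Set.mem_univ, iff_true]
      rw [Subsingleton.elim x 0, dist_self]
      exact hR.le
    rw [h1, ← (PiLp.volume_preserving_toLp (Fin 0)).measure_preimage
      MeasurableSet.univ.nullMeasurableSet, Set.preimage_univ, Measure.volume_pi_eq_dirac]
    simp
  · rw [EuclideanSpace.volume_closedBall, Fintype.card_fin, ← ENNReal.ofReal_pow hR.le,
      ← ENNReal.ofReal_mul (by positivity)]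

/-- Half a step of the Gamma function. -/
theorem gamma_half (x : ℝ) (hx : 0 < x) : Real.Gamma (x + 1 / 2) ≤ √x * Real.Gamma x := by
  have h1 := Real.Gamma_mul_add_mul_le_rpow_Gamma_mul_rpow_Gamma hx (by linarith : 0 < x + 1)
    (by norm_num : (0 : ℝ) < 1 / 2) (by norm_num : (0 : ℝ) < 1 / 2) (by norm_num)
  have h2 : (1 / 2 : ℝ) * x + 1 / 2 * (x + 1) = x + 1 / 2 := by ring
  have hG : 0 < Real.Gamma x := Real.Gamma_pos_of_pos hx
  rw [h2, Real.Gamma_add_one hx.ne', ← Real.sqrt_eq_rpow, ← Real.sqrt_eq_rpow,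
    Real.sqrt_mul hx.le] at h1
  have h3 : √(Real.Gamma x) * √(Real.Gamma x) = Real.Gamma x := Real.mul_self_sqrt hG.le
  calc Real.Gamma (x + 1 / 2) ≤ √(Real.Gamma x) * (√x * √(Real.Gamma x)) := h1
    _ = √x * (√(Real.Gamma x) * √(Real.Gamma x)) := by ring
    _ = _ := by rw [h3]

end Vol2M

open Vol2M in
theorem vol2P : Vol2Prop := by
  intro n R hR
  rw [volF n R hR, volF (n + 1) R hR, ← ENNReal.ofReal_mul (by positivity)]
  apply ENNReal.ofReal_le_ofReal
  have hn : (0 : ℝ) ≤ (n : ℝ) := Nat.cast_nonneg n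
  set x : ℝ := (n : ℝ) / 2 + 1 with hx
  have hx0 : 0 < x := by positivity
  have e1 : ((n + 1 : ℕ) : ℝ) / 2 + 1 = x + 1 / 2 := by
    push_cast
    rw [hx]
    ring
  rw [e1]
  have hG : 0 < Real.Gamma x := Real.Gamma_pos_of_pos hx0
  have hG2 : 0 < Real.Gamma (x + 1 / 2) := Real.Gamma_pos_of_pos (by linarith)
  have h1 := gamma_half x hx0
  have h2 : √x ≤ √((n : ℝ) + 1) * √Real.pi := by
    rw [← Real.sqrt_mul (by linarith)]
    apply Real.sqrt_le_sqrt
    have := Real.pi_gt_three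
    nlinarith
  have h3 : Real.Gamma (x + 1 / 2) ≤ √((n : ℝ) + 1) * √Real.pi * Real.Gamma x :=
    h1.trans (mul_le_mul_of_nonneg_right h2 hG.le)
  have e2 : √((n : ℝ) + 1) / R * (R ^ (n + 1) * (√Real.pi ^ (n + 1) / Real.Gamma (x + 1 / 2))) =
      R ^ n * √Real.pi ^ n * (√((n : ℝ) + 1) * √Real.pi / Real.Gamma (x + 1 / 2)) := by
    rw [pow_succ, pow_succ]
    field_simp
  have e3 : R ^ n * (√Real.pi ^ n / Real.Gamma x) = R ^ n * √Real.pi ^ n * (1 / Real.Gamma x) := by
    ring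
  rw [e2, e3]
  refine mul_le_mul_of_nonneg_left ?_ (by positivity)
  rw [div_le_div_iff₀ hG hG2]
  linarith

end Pool.Agent.MP_a4c1f4_lc.Euc
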